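import Pool.Graph.R_pool_sql_team_seeded_3997aac3.Q97.UM.Base8

set_option autoImplicit false

/-! Moments over thick sets. -/

open Filter Topology MeasureTheory Complex

namespace Pool.Agent.H4.SC

open Pool.Agent.Q97.UM
open Pool.Agent.Q98.UM (S3 S3_nonneg supp_zero norm_ap_le dp_cube EP_PA shift_bd lint_lower exp_tangent ae_zt)

noncomputable section

/-- **moments over thick sets**: products of shifted values, real orders -/
theorem lbt {A c₁ θ₁ : ℝ} (hA : 1 ≤ A) (hc₁ : 0 < c₁) (hθ₁ : 0 < θ₁) : ∃ δ c : ℝ, 0 < δ ∧ δ ≤ 1 / 40 ∧ 0 < c ∧ ∀ᶠ T : ℝ in atTop,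
    ∀ u : ℝ → ℝ, Measurable u → (∀ t, 0 ≤ u t) → (∀ t, u t ≤ 1) →
    (∀ M : ℕ, (M : ℝ) ≤ T ^ θ₁ → ∀ b : ℕ → ℂ, c₁ * (T * N2 M b) ≤ ∫ t in T..(2 * T), u t * ‖dp M b t‖ ^ 2) →
    ∀ (n : ℕ) (k α : Fin n → ℝ), ∑ j, |k j| ≤ A → (∀ j, |α j| ≤ T / 2) →
      ENNReal.ofReal (c * T * Real.exp (∑ p ∈ (Finset.Icc 1 ⌊T ^ δ⌋₊).filter Nat.Prime, ‖ap k α p‖ ^ 2 / p)) ≤
        ∫⁻ t in Set.Icc T (2 * T), ENNReal.ofReal (u t * ∏ j, ‖zt (t + α j)‖ ^ (2 * k j)) := by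
  have hE := b_EK
  have hT := b_THP
  have hD := Pool.Agent.Q84.UM.t_DPM
  have hM := Pool.Agent.Q84.UM.t_MVL
  obtain ⟨κ, hκ, hE⟩ := hE A hA
  obtain ⟨θ₀, δ₀, hθ₀, hδ₀, hT⟩ := hT 1
  have hκ1 : 0 < 1 + 20 * κ := by linarith
  obtain ⟨δ, hδ, hδ1, hδ2, hδ3, hδ4⟩ : ∃ δ : ℝ, 0 < δ ∧ (1 + 20 * κ) * δ ≤ 1 / 40 ∧ δ ≤ δ₀ ∧
      (1 + 20 * κ) * δ ≤ θ₀ ∧ (1 + 20 * κ) * δ ≤ θ₁ := by
    set m := min (1 / 40) (min θ₀ θ₁) with hm
    have hm0 : 0 < m := by positivity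
    have h1 : m ≤ 1 / 40 := min_le_left _ _
    have h2 : m ≤ θ₀ := (min_le_right _ _).trans (min_le_left _ _)
    have h3 : m ≤ θ₁ := (min_le_right _ _).trans (min_le_right _ _)
    have h5 : (1 + 20 * κ) * min (m / (1 + 20 * κ)) δ₀ ≤ m := by
      calc (1 + 20 * κ) * min (m / (1 + 20 * κ)) δ₀ ≤ (1 + 20 * κ) * (m / (1 + 20 * κ)) :=
            mul_le_mul_of_nonneg_left (min_le_left _ _) hκ1.le
        _ = m := by field_simp
    exact ⟨min (m / (1 + 20 * κ)) δ₀, by positivity, h5.trans h1, min_le_right _ _, h5.trans h2, h5.trans h3⟩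
  have hδ40 : δ ≤ 1 / 40 := by nlinarith
  obtain ⟨C₁, hC₁, hT⟩ := hT δ hδ hδ2
  obtain ⟨C₂, c₂, hC₂, hc₂, hE⟩ := hE δ hδ
  have hS3 := S3_nonneg
  set K₁ : ℝ := 2 * A * C₁ + 8 * A * S3 + 8 * C₂ with hK₁
  have hK₁0 : 0 ≤ K₁ := by positivity
  set K : ℝ := K₁ / c₁ with hK
  have hK0 : 0 ≤ K := by positivity
  refine ⟨δ, Real.exp (-K) * c₁ * c₂, hδ, hδ40, by positivity, ?_⟩
  filter_upwards [hT, hE, eventually_ge_atTop 16] with T hT hE hT16 u hu hu0 hu1 hthick n k α hk hα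
  have hT0 : 0 < T := by linarith
  have hT1 : 1 ≤ T := by linarith
  obtain ⟨M, e, J, M₀, q, w, hd⟩ := hE (ap k α) (ap k fun j => 2 * α j) (norm_ap_le k α hk)
    (norm_ap_le k _ hk)
  have hML : (M : ℝ) ≤ T ^ (20 * κ * δ) := hd.len
  set F : ℝ → ℂ := dp M e with hF
  set n2 := N2 M e with hn2
  have hn20 : 0 ≤ n2 := N2_nonneg _ _
  have hlow := hd.low
  rw [← hn2] at hlow
  have hn2p : 0 < n2 := lt_of_lt_of_le (by positivity) hlow
  have hM1 : 1 ≤ M := by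
    rcases Nat.eq_zero_or_pos M with h | h
    · exfalso
      have : N2 M e = 0 := by
        rw [h]
        unfold N2
        simp
      linarith
    · exact h
  have hM' : (M : ℝ) ≤ T ^ ((1 + 20 * κ) * δ) :=
    hML.trans (Real.rpow_le_rpow_of_exponent_le hT1 (by nlinarith))
  have hMq : (M : ℝ) ≤ T ^ (1 / 4 : ℝ) :=
    hM'.trans (Real.rpow_le_rpow_of_exponent_le hT1 (by linarith))
  obtain ⟨m1, m2⟩ := hM T hT16 M hMq e
  set X := ⌊T ^ δ⌋₊ with hX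
  have hFc : Continuous F := (hD.2.2 M e 0).2
  -- the shifted values
  have hsh : ∀ j, IntervalIntegrable (fun t => |Real.log ‖zt (t + α j)‖ - EP X (t + α j)| * ‖F t‖ ^ 2)
      volume T (2 * T) ∧ ∫ t in T..(2 * T), |Real.log ‖zt (t + α j)‖ - EP X (t + α j)| * ‖F t‖ ^ 2 ≤
        C₁ * T * n2 := by
    intro j
    refine shift_bd hD hT0.le (fun b' => ?_) (hα j)
    exact hT M (hM'.trans (Real.rpow_le_rpow_of_exponent_le hT1 hδ3)) b'
  -- the block errors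
  have hq6 : ∀ j t, ‖dp M₀ (q j) t‖ ^ 6 * ‖F t‖ ^ 2 =
      ‖dp (M₀ ^ 3 * M) (cv (q j) (cv (q j) (cv (q j) e))) t‖ ^ 2 := fun j t =>
    dp_cube hD (hd.qs j) hd.supp t
  have hlen3 : ((M₀ ^ 3 * M : ℕ) : ℝ) ≤ T ^ (1 / 4 : ℝ) := by
    have e1 : ((M₀ ^ 3 * M : ℕ) : ℝ) ≤ (T ^ (2 * δ)) ^ 3 * T ^ ((1 + 20 * κ) * δ) := by
      push_cast
      exact mul_le_mul (pow_le_pow_left₀ (Nat.cast_nonneg _) hd.M0 3) hM' (by positivity) (by positivity)
    refine e1.trans ?_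
    rw [← Real.rpow_natCast, ← Real.rpow_mul hT0.le, ← Real.rpow_add hT0]
    refine Real.rpow_le_rpow_of_exponent_le hT1 ?_
    push_cast
    nlinarith
  have hblk : ∀ j, Continuous (fun t => ‖dp M₀ (q j) t‖ ^ 6 * ‖F t‖ ^ 2) ∧
      ∫ t in T..(2 * T), ‖dp M₀ (q j) t‖ ^ 6 * ‖F t‖ ^ 2 ≤
        2 * T * N2 (M₀ ^ 3 * M) (cv (q j) (cv (q j) (cv (q j) e))) := by
    intro j
    have e1 : (fun t => ‖dp M₀ (q j) t‖ ^ 6 * ‖F t‖ ^ 2) = fun t =>
        ‖dp (M₀ ^ 3 * M) (cv (q j) (cv (q j) (cv (q j) e))) t‖ ^ 2 := funext (hq6 j)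
    rw [e1]
    exact ⟨((hD.2.2 _ _ 0).2.norm.pow 2), (hM T hT16 _ hlen3 _).2⟩
  have hmean := hd.mean M e hM1 hM' (supp_zero hd.supp)
  -- the error function
  set g : ℝ → ℝ := fun t => (∑ j, 2 * |k j| * |Real.log ‖zt (t + α j)‖ - EP X (t + α j)|) +
    (4 * A * S3 + 2 * C₂) + ∑ j ∈ Finset.range J, 2 * w j * ‖dp M₀ (q j) t‖ ^ 6 with hg
  have hg0 : ∀ t, 0 ≤ g t := by
    intro t
    rw [hg]
    have h1 : 0 ≤ ∑ j ∈ Finset.range J, 2 * w j * ‖dp M₀ (q j) t‖ ^ 6 :=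
      Finset.sum_nonneg fun j _ => by have := hd.wn j; positivity
    have h2 : 0 ≤ ∑ j, 2 * |k j| * |Real.log ‖zt (t + α j)‖ - EP X (t + α j)| :=
      Finset.sum_nonneg fun j _ => by positivity
    have h3 : 0 ≤ 4 * A * S3 + 2 * C₂ := by positivity
    simp only
    linarith
  have hgF : ∀ t, g t * ‖F t‖ ^ 2 =
      (∑ j, 2 * |k j| * (|Real.log ‖zt (t + α j)‖ - EP X (t + α j)| * ‖F t‖ ^ 2)) +
      (4 * A * S3 + 2 * C₂) * ‖F t‖ ^ 2 +
      ∑ j ∈ Finset.range J, 2 * w j * (‖dp M₀ (q j) t‖ ^ 6 * ‖F t‖ ^ 2) := by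
    intro t
    simp only [hg]
    rw [add_mul, add_mul, Finset.sum_mul, Finset.sum_mul]
    congr 1
    · congr 1
      exact Finset.sum_congr rfl fun j _ => by ring
    · exact Finset.sum_congr rfl fun j _ => by ring
  have i1 : IntervalIntegrable (fun t => ∑ j, 2 * |k j| *
      (|Real.log ‖zt (t + α j)‖ - EP X (t + α j)| * ‖F t‖ ^ 2)) volume T (2 * T) := by
    have := IntervalIntegrable.sum Finset.univ (f := fun j t => 2 * |k j| *
      (|Real.log ‖zt (t + α j)‖ - EP X (t + α j)| * ‖F t‖ ^ 2)) (μ := volume) (a := T) (b := 2 * T)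
      fun j _ => (hsh j).1.const_mul _
    have e1 : (fun t => ∑ j, 2 * |k j| *
        (|Real.log ‖zt (t + α j)‖ - EP X (t + α j)| * ‖F t‖ ^ 2)) = ∑ j, fun t => 2 * |k j| *
        (|Real.log ‖zt (t + α j)‖ - EP X (t + α j)| * ‖F t‖ ^ 2) := by
      funext t
      rw [Finset.sum_apply]
    rw [e1]
    exact this
  have i2 : IntervalIntegrable (fun t => ‖F t‖ ^ 2) volume T (2 * T) :=
    (hFc.norm.pow 2).intervalIntegrable _ _
  have i3 : IntervalIntegrable (fun t => ∑ j ∈ Finset.range J, 2 * w j *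
      (‖dp M₀ (q j) t‖ ^ 6 * ‖F t‖ ^ 2)) volume T (2 * T) :=
    (continuous_finsetSum _ fun j _ => continuous_const.mul (hblk j).1).intervalIntegrable _ _
  have i3' : ∀ j ∈ Finset.range J, IntervalIntegrable (fun t => 2 * w j *
      (‖dp M₀ (q j) t‖ ^ 6 * ‖F t‖ ^ 2)) volume T (2 * T) := fun j _ =>
    (continuous_const.mul (hblk j).1).intervalIntegrable _ _
  have igF : IntervalIntegrable (fun t => g t * ‖F t‖ ^ 2) volume T (2 * T) := by
    simp only [hgF]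
    exact (i1.add (i2.const_mul _)).add i3
  have hTn : 0 ≤ T * n2 := mul_nonneg hT0.le hn20
  have hint : ∫ t in T..(2 * T), g t * ‖F t‖ ^ 2 ≤ K₁ * (T * n2) := by
    simp only [hgF]
    rw [intervalIntegral.integral_add (i1.add (i2.const_mul _)) i3,
      intervalIntegral.integral_add i1 (i2.const_mul _), intervalIntegral.integral_const_mul]
    rw [intervalIntegral.integral_finsetSum fun j _ => (hsh j).1.const_mul _,
      intervalIntegral.integral_finsetSum i3']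
    have b1 : ∑ j, ∫ t in T..(2 * T), 2 * |k j| *
        (|Real.log ‖zt (t + α j)‖ - EP X (t + α j)| * ‖F t‖ ^ 2) ≤ 2 * A * (C₁ * T * n2) := by
      calc ∑ j, ∫ t in T..(2 * T), 2 * |k j| *
          (|Real.log ‖zt (t + α j)‖ - EP X (t + α j)| * ‖F t‖ ^ 2)
          ≤ ∑ j, 2 * |k j| * (C₁ * T * n2) := by
            refine Finset.sum_le_sum fun j _ => ?_
            rw [intervalIntegral.integral_const_mul]
            exact mul_le_mul_of_nonneg_left (hsh j).2 (by positivity)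
        _ = 2 * (∑ j, |k j|) * (C₁ * T * n2) := by rw [← Finset.sum_mul, ← Finset.mul_sum]
        _ ≤ 2 * A * (C₁ * T * n2) := by
            refine mul_le_mul_of_nonneg_right (by linarith) (by positivity)
    have b3 : ∑ j ∈ Finset.range J, ∫ t in T..(2 * T), 2 * w j *
        (‖dp M₀ (q j) t‖ ^ 6 * ‖F t‖ ^ 2) ≤ 4 * T * (C₂ * n2) := by
      calc ∑ j ∈ Finset.range J, ∫ t in T..(2 * T), 2 * w j * (‖dp M₀ (q j) t‖ ^ 6 * ‖F t‖ ^ 2)
          ≤ ∑ j ∈ Finset.range J, 4 * T * (w j *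
              N2 (M₀ ^ 3 * M) (cv (q j) (cv (q j) (cv (q j) e)))) := by
            refine Finset.sum_le_sum fun j _ => ?_
            rw [intervalIntegral.integral_const_mul]
            have := mul_le_mul_of_nonneg_left (hblk j).2 (by have := hd.wn j; linarith : 0 ≤ 2 * w j)
            refine this.trans (le_of_eq ?_)
            ring
        _ = 4 * T * ∑ j ∈ Finset.range J, w j *
              N2 (M₀ ^ 3 * M) (cv (q j) (cv (q j) (cv (q j) e))) := by rw [Finset.mul_sum]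
        _ ≤ 4 * T * (C₂ * n2) := mul_le_mul_of_nonneg_left hmean (by positivity)
    have b2 : (4 * A * S3 + 2 * C₂) * ∫ t in T..(2 * T), ‖F t‖ ^ 2 ≤
        (4 * A * S3 + 2 * C₂) * (2 * T * n2) := mul_le_mul_of_nonneg_left m2 (by positivity)
    rw [hK₁]
    linarith [(by ring : 2 * A * (C₁ * T * n2) + (4 * A * S3 + 2 * C₂) * (2 * T * n2) +
      4 * T * (C₂ * n2) = (2 * A * C₁ + 8 * A * S3 + 8 * C₂) * (T * n2))]
  -- the pointwise inequality
  have hpt : ∀ᵐ t : ℝ, Real.exp (-K) * ((1 + K) * (u t * ‖F t‖ ^ 2) - g t * ‖F t‖ ^ 2) ≤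
      u t * ∏ j, ‖zt (t + α j)‖ ^ (2 * k j) := by
    have hae : ∀ᵐ t : ℝ, ∀ j, zt (t + α j) ≠ 0 := ae_all_iff.mpr fun j => ae_zt (α j)
    refine hae.mono fun t ht => ?_
    have hnn : 0 ≤ u t * ∏ j, ‖zt (t + α j)‖ ^ (2 * k j) := mul_nonneg (hu0 t) (Finset.prod_nonneg fun j _ => by positivity)
    by_cases hF0 : F t = 0
    · rw [hF0]
      simpa using hnn
    have hprod : ∏ j, ‖zt (t + α j)‖ ^ (2 * k j) =
        Real.exp (∑ j, Real.log ‖zt (t + α j)‖ * (2 * k j)) := by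
      rw [Real.exp_sum]
      exact Finset.prod_congr rfl fun j _ => Real.rpow_def_of_pos (norm_pos_iff.mpr (ht j)) _
    have hEsq : ‖F t‖ ^ 2 = Real.exp (2 * Real.log ‖F t‖) := by
      rw [two_mul, Real.exp_add, Real.exp_log (norm_pos_iff.mpr hF0), sq]
    set h : ℝ := (∑ j, Real.log ‖zt (t + α j)‖ * (2 * k j)) - 2 * Real.log ‖F t‖ with hh
    have hrhs : ∏ j, ‖zt (t + α j)‖ ^ (2 * k j) = Real.exp h * ‖F t‖ ^ 2 := by
      rw [hprod, hEsq, ← Real.exp_add, hh]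
      congr 1
      ring
    have hgh : -g t ≤ h := by
      have u1 := hd.up t hF0
      have u2 := abs_le.mp (EP_PA k α hk X t)
      have u3 : 2 * ∑ j, k j * EP X (t + α j) -
          (∑ j, 2 * |k j| * |Real.log ‖zt (t + α j)‖ - EP X (t + α j)|) ≤
          ∑ j, Real.log ‖zt (t + α j)‖ * (2 * k j) := by
        rw [Finset.mul_sum, ← Finset.sum_sub_distrib]
        refine Finset.sum_le_sum fun j _ => ?_
        have v1 : -(|k j| * |Real.log ‖zt (t + α j)‖ - EP X (t + α j)|) ≤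
            k j * (Real.log ‖zt (t + α j)‖ - EP X (t + α j)) := by
          rw [← abs_mul]
          exact neg_abs_le _
        linarith
      have u4 : ∑ j ∈ Finset.range J, 2 * w j * ‖dp M₀ (q j) t‖ ^ 6 =
          2 * ∑ j ∈ Finset.range J, w j * ‖dp M₀ (q j) t‖ ^ 6 := by
        rw [Finset.mul_sum]
        exact Finset.sum_congr rfl fun j _ => by ring
      simp only [hg, hh]
      rw [u4]
      linarith [u2.1]
    have h4 := exp_tangent (K := K) hgh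
    rw [hrhs]
    have h5 : u t * (Real.exp (-K) * (1 + K - g t)) ≤ u t * Real.exp h := mul_le_mul_of_nonneg_left h4 (hu0 t)
    have h6 : u t * g t ≤ 1 * g t := mul_le_mul_of_nonneg_right (hu1 t) (hg0 t)
    have h7 : Real.exp (-K) * ((1 + K) * u t - g t) ≤ u t * (Real.exp (-K) * (1 + K - g t)) := by
      have e1 : u t * (Real.exp (-K) * (1 + K - g t)) = Real.exp (-K) * ((1 + K) * u t - u t * g t) := by ring
      rw [e1]
      apply mul_le_mul_of_nonneg_left _ (Real.exp_pos _).le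
      linarith
    calc Real.exp (-K) * ((1 + K) * (u t * ‖F t‖ ^ 2) - g t * ‖F t‖ ^ 2)
        = (Real.exp (-K) * ((1 + K) * u t - g t)) * ‖F t‖ ^ 2 := by ring
      _ ≤ (u t * Real.exp h) * ‖F t‖ ^ 2 := mul_le_mul_of_nonneg_right (h7.trans h5) (by positivity)
      _ = _ := by ring
  have iu : IntervalIntegrable (fun t => u t * ‖F t‖ ^ 2) volume T (2 * T) :=
    ii_mul hu (B := 1) (fun t => by rw [abs_of_nonneg (hu0 t)]; exact hu1 t) (hFc.norm.pow 2) _ _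
  have iφ : IntervalIntegrable (fun t => Real.exp (-K) * ((1 + K) * (u t * ‖F t‖ ^ 2) - g t * ‖F t‖ ^ 2))
      volume T (2 * T) := ((iu.const_mul _).sub igF).const_mul _
  refine le_trans (ENNReal.ofReal_le_ofReal ?_) (lint_lower hT0.le iφ hpt)
  rw [intervalIntegral.integral_const_mul,
    intervalIntegral.integral_sub (iu.const_mul _) igF, intervalIntegral.integral_const_mul]
  have hI := hthick M (hM'.trans (Real.rpow_le_rpow_of_exponent_le hT1 hδ4)) e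
  rw [← hn2] at hI
  set I₀ := ∫ t in T..(2 * T), u t * ‖F t‖ ^ 2 with hI₀
  have h5 : K₁ * (T * n2) ≤ K * I₀ := by
    have h6 := mul_le_mul_of_nonneg_left hI hK0
    have h7 : K * (c₁ * (T * n2)) = K₁ * (T * n2) := by
      rw [hK]
      field_simp
    linarith
  have h6 : I₀ ≤ (1 + K) * I₀ - ∫ t in T..(2 * T), g t * ‖F t‖ ^ 2 := by linarith
  calc Real.exp (-K) * c₁ * c₂ * T * Real.exp (∑ p ∈ (Finset.Icc 1 X).filter Nat.Prime, ‖ap k α p‖ ^ 2 / p)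
      = Real.exp (-K) * (c₁ * (T * (c₂ * Real.exp (∑ p ∈ (Finset.Icc 1 X).filter Nat.Prime, ‖ap k α p‖ ^ 2 / p)))) := by ring
    _ ≤ Real.exp (-K) * (c₁ * (T * n2)) := by gcongr
    _ ≤ Real.exp (-K) * I₀ := mul_le_mul_of_nonneg_left hI (Real.exp_pos _).le
    _ ≤ _ := mul_le_mul_of_nonneg_left h6 (Real.exp_pos _).le

end

end Pool.Agent.H4.SC
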