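import Pool.Agent.H4.SC.Thk
import Pool.Agent.H4.SC.Lbt
import Pool.Agent.H4.PX.Bad

set_option autoImplicit false

/-! The neighbourhoods of the runs of simple zeros with prescribed indices are thick. -/

open Filter Topology MeasureTheory Complex

namespace Pool.Agent.H4.SC

open Pool.Agent.Q97.UM
open Pool.Agent.H4.IX
open Pool.Agent.H4.PX (w w_nonneg w_le dp_cont w_deriv run_b uni_b Y Lam mem_In)
open Pool.Agent.Q32.Idx (N Z)
open H370 (cMTinv)

noncomputable section

lemma gdi_facts {d T : ℝ} (hT : 16 ≤ T) (hd : d / Real.log T ≤ 1) {n : ℕ} (hn : n ∈ gdi d T) (hn1 : n + 1 ∈ gdi d T) :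
    T < ord n ∧ ord (n + 1) ≤ 2 * T ∧ ord n + d / Real.log T ≤ ord (n + 1) ∧ ∀ t, ord n ≤ t → t < ord (n + 1) → N 0 t = n := by
  obtain ⟨s, hs, hsn⟩ := hn
  obtain ⟨s', hs', hsn'⟩ := hn1
  obtain ⟨h1, h2, h3, h4, h5⟩ := ZI_facts (by linarith) hs
  obtain ⟨g1, g2, g3, g4, g5⟩ := ZI_facts (by linarith) hs'
  have e1 : ord n = s.im := by rw [← hsn]; exact ord_N h1 (by linarith)
  have e2 : ord (n + 1) = s'.im := by rw [← hsn']; exact ord_N g1 (by linarith)
  have hne : s ≠ s' := by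
    intro h
    rw [h, hsn'] at hsn
    omega
  have hsep := (iso_facts hT hd hs).2.2 s' hs' hne
  have hle : ord n ≤ ord (n + 1) := ord_mono (T := T) (by linarith) (by rw [← hsn]; exact gdi_In (by linarith) hs)
    (by rw [← hsn']; exact gdi_In (by linarith) hs') (by omega)
  rw [e1, e2] at hle
  rw [abs_sub_comm, abs_of_nonneg (by linarith)] at hsep
  refine ⟨by rw [e1]; exact h4, by rw [e2]; exact g5, by rw [e1, e2]; linarith, fun t ht1 ht2 => ?_⟩
  have h6 : n ≤ N 0 t := by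
    rw [e1] at ht1
    have := N_mono (a := s.im) (b := t) (by linarith) ht1
    omega
  by_contra h7
  have h8 : n + 1 ≤ N 0 t := by omega
  have h9 : ord (n + 1) ≤ t := by
    unfold ord
    refine csInf_le ⟨0, fun x hx => hx.1.le⟩ ⟨?_, h8⟩
    rw [e1] at ht1
    linarith
  linarith

/-- the neighbourhoods to the right of the ordinates with index in `S` -/
def US (S : Finset ℕ) (r : ℝ) : Set ℝ := {t | ∃ n ∈ S, ord n ≤ t ∧ t ≤ ord n + r}

lemma US_meas (S : Finset ℕ) (r : ℝ) : MeasurableSet (US S r) := by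
  have h : US S r = ⋃ n ∈ S, Set.Icc (ord n) (ord n + r) := by
    ext t
    simp only [US, Set.mem_ofPred_eq, Set.mem_iUnion, Set.mem_Icc, exists_prop]
  rw [h]
  exact Finset.measurableSet_biUnion S fun n _ => measurableSet_Icc

/-- its indicator function -/
def uU (S : Finset ℕ) (r t : ℝ) : ℝ := (US S r).indicator (fun _ => (1 : ℝ)) t

lemma uU_meas (S : Finset ℕ) (r : ℝ) : Measurable (uU S r) := measurable_const.indicator (US_meas S r)

lemma uU_nonneg (S : Finset ℕ) (r t : ℝ) : 0 ≤ uU S r t := Set.indicator_nonneg (fun _ _ => zero_le_one) t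

lemma uU_le (S : Finset ℕ) (r t : ℝ) : uU S r t ≤ 1 := by
  unfold uU
  by_cases h : t ∈ US S r
  · rw [Set.indicator_of_mem h]
  · rw [Set.indicator_of_notMem h]
    exact zero_le_one

open Classical in
/-- the starting points of the runs of `k` zeros -/
def St (k : ℕ) (d : ℝ) (I : Set ℕ) (T : ℝ) : Finset ℕ := (In T).filter (fun n => n ∈ I ∧ n ∈ run k d T)

/-- **the neighbourhoods of the runs are thick** -/
theorem thickI {k : ℕ} (hk : 2 ≤ k) {I : Set ℕ} {α ε₀ : ℝ} (hG : Gap k I) (hI : UD α I) (hα : (cMTinv - 1) / 2 < α) (hε₀ : 0 < ε₀) :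
    ∃ d δ c θ : ℝ, 0 < d ∧ d ≤ 1 ∧ 0 < δ ∧ δ ≤ ε₀ ∧ δ < d ∧ 0 < c ∧ 0 < θ ∧ θ ≤ 1 / 40 ∧ ∀ᶠ T : ℝ in atTop, 
      ∀ M : ℕ, (M : ℝ) ≤ T ^ θ → ∀ b : ℕ → ℂ,
      c * (T * N2 M b) ≤ ∫ t in T..(2 * T), uU (St k d I T) (δ / Real.log T) t * w M b t := by
  classical
  obtain ⟨β, hβ⟩ : ∃ β, β = α - (cMTinv - 1) / 2 := ⟨_, rfl⟩
  have hβ0 : 0 < β := by rw [hβ]; linarith
  obtain ⟨d, θ₁, hd0, hd1, hθ₁0, hθ₁1, h1⟩ := run_b k (show 0 < β / 4 by positivity)
  obtain ⟨θ₂, hθ₂0, hθ₂1, h2⟩ := uni_b hI (show 0 < β / 4 by positivity)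
  obtain ⟨θ, hθ⟩ : ∃ θ, θ = min (min θ₁ θ₂) (β / 128) := ⟨_, rfl⟩
  have hθ0 : 0 < θ := by rw [hθ]; positivity
  have hθa : θ ≤ θ₁ := by rw [hθ]; exact (min_le_left _ _).trans (min_le_left _ _)
  have hθb : θ ≤ θ₂ := by rw [hθ]; exact (min_le_left _ _).trans (min_le_right _ _)
  have hθc : θ ≤ β / 128 := by rw [hθ]; exact min_le_right _ _
  obtain ⟨δ, hδ⟩ : ∃ δ, δ = min (d / 2) ε₀ := ⟨_, rfl⟩
  have hδ0 : 0 < δ := by rw [hδ]; positivity
  have hδ1 : δ ≤ d / 2 := by rw [hδ]; exact min_le_left _ _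
  have hδ2 : δ ≤ ε₀ := by rw [hδ]; exact min_le_right _ _
  have hpi := Real.pi_pos
  have hpi4 := Real.pi_le_four
  refine ⟨d, δ, δ * (β / 32), θ, hd0, hd1, hδ0, hδ2, by linarith, by positivity, hθ0, hθa.trans hθ₁1, ?_⟩
  filter_upwards [h1, h2, w_var hθ0 (hθa.trans hθ₁1), eventually_ge_atTop (16 : ℝ), Real.tendsto_log_atTop.eventually_ge_atTop 1]
    with T h1 h2 hwv hT16 hL1 M hM b
  have hT1 : 1 ≤ T := by linarith
  have hM1 : (M : ℝ) ≤ T ^ θ₁ := hM.trans (Real.rpow_le_rpow_of_exponent_le hT1 hθa)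
  have hM2 : (M : ℝ) ≤ T ^ θ₂ := hM.trans (Real.rpow_le_rpow_of_exponent_le hT1 hθb)
  replace h1 := h1 I hG M hM1 b
  replace h2 := h2 M hM2 b
  replace hwv := hwv M hM b
  obtain ⟨L, hL⟩ : ∃ L, L = Real.log T := ⟨_, rfl⟩
  have hY : Y T M b = L / (2 * Real.pi) * (T * N2 M b) := by unfold Y; rw [hL]
  obtain ⟨W, hW⟩ : ∃ W, W = T * N2 M b := ⟨_, rfl⟩
  have hW0 : 0 ≤ W := by rw [hW]; exact mul_nonneg (by linarith) (N2_nonneg _ _)
  rw [← hL] at hL1
  rw [← hW] at hY hwv ⊢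
  rw [← hL] at hwv ⊢
  have hL0 : 0 < L := by linarith
  obtain ⟨r, hr⟩ : ∃ r, r = δ / L := ⟨_, rfl⟩
  have hr0 : 0 < r := by rw [hr]; positivity
  have hrL : r * L = δ := by rw [hr]; field_simp
  have hdL : d / Real.log T ≤ 1 := by rw [← hL, div_le_one hL0]; linarith
  have hrd : 2 * r ≤ d / L := by
    rw [hr, ← mul_div_assoc]
    gcongr
    linarith
  have hdL0 : 0 < d / L := by positivity
  rw [← hr]
  -- the mass of the starting points
  have hmass : β / 2 * Y T M b ≤ ∑ n ∈ St k d I T, w M b (ord n) := by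
    have e : ∑ n ∈ St k d I T, w M b (ord n) = ∑ n ∈ (In T).filter (fun n => n ∈ I ∧ n ∈ run k d T), w M b (ord n) := rfl
    rw [e]
    have e2 : (α - β / 4) * Y T M b = β / 2 * Y T M b + ((cMTinv - 1) / 2 + β / 4) * Y T M b := by rw [hβ]; ring
    rw [e2] at h2
    linarith
  have hSm : ∀ n ∈ St k d I T, n ∈ I ∧ n ∈ gdi d T ∧ n + 1 ∈ gdi d T := by
    intro n hn
    have h3 := (Finset.mem_filter.1 hn).2
    refine ⟨h3.1, ?_, h3.2 1 (by omega)⟩
    have := h3.2 0 (by omega)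
    rwa [add_zero] at this
  have hfac : ∀ n ∈ St k d I T, T < ord n ∧ ord (n + 1) ≤ 2 * T ∧ ord n + d / L ≤ ord (n + 1) := by
    intro n hn
    obtain ⟨-, a1, a2⟩ := hSm n hn
    obtain ⟨b1, b2, b3, -⟩ := gdi_facts hT16 hdL a1 a2
    rw [← hL] at b3
    exact ⟨b1, b2, b3⟩
  have hdis : ∀ i ∈ St k d I T, ∀ j ∈ St k d I T, i ≠ j → 2 * (r / 2) ≤ |ord i - ord j| := by
    have key : ∀ i ∈ St k d I T, ∀ j ∈ St k d I T, i < j → ord i + d / L ≤ ord j := by
      intro i hi j hj hij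
      obtain ⟨-, -, b3⟩ := hfac i hi
      have hIi := hSm i hi
      have hIj := hSm j hj
      have h3 : ord (i + 1) ≤ ord j := by
        obtain ⟨s, hs, hsn⟩ := hIi.2.2
        obtain ⟨s', hs', hsn'⟩ := hIj.2.1
        exact ord_mono (T := T) (by linarith) (by rw [← hsn]; exact gdi_In hT1 hs) (by rw [← hsn']; exact gdi_In hT1 hs') (by omega)
      linarith
    intro i hi j hj hij
    rcases lt_or_gt_of_ne hij with h | h
    · have := key i hi j hj h
      rw [abs_sub_comm, abs_of_nonneg (by linarith)]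
      linarith
    · have := key j hj i hi h
      rw [abs_of_nonneg (by linarith)]
      linarith
  have hin : ∀ i ∈ St k d I T, T ≤ ord i + r / 2 - r / 2 ∧ ord i + r / 2 + r / 2 ≤ 2 * T := by
    intro i hi
    obtain ⟨b1, b2, b3⟩ := hfac i hi
    constructor <;> linarith
  have hwi : ∀ x y, IntervalIntegrable (fun t => w M b t) volume x y := fun x y => (w_cont M b).intervalIntegrable _ _
  have hw'i : ∀ x y, IntervalIntegrable (fun t => |w' M b t|) volume x y := fun x y => (w'_cont M b).abs.intervalIntegrable _ _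
  have hw'i' : ∀ x y, IntervalIntegrable (fun t => w' M b t) volume x y := fun x y => (w'_cont M b).intervalIntegrable _ _
  have huw : ∀ x y, IntervalIntegrable (fun t => uU (St k d I T) r t * w M b t) volume x y := fun x y =>
    ii_mul (uU_meas _ _) (B := 1) (fun t => by rw [abs_of_nonneg (uU_nonneg _ _ _)]; exact uU_le _ _ _) (w_cont M b) _ _
  -- one starting point
  have hone : ∀ n ∈ St k d I T, r * w M b (ord n) ≤
      (∫ t in (ord n + r / 2 - r / 2)..(ord n + r / 2 + r / 2), uU (St k d I T) r t * w M b t) +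
      r * ∫ t in (ord n + r / 2 - r / 2)..(ord n + r / 2 + r / 2), |w' M b t| := by
    intro n hn
    have e1 : ord n + r / 2 - r / 2 = ord n := by ring
    have e2 : ord n + r / 2 + r / 2 = ord n + r := by ring
    rw [e1, e2]
    obtain ⟨V, hV⟩ : ∃ V, V = ∫ t in (ord n)..(ord n + r), |w' M b t| := ⟨_, rfl⟩
    rw [← hV]
    have h3 : ∀ t ∈ Set.Icc (ord n) (ord n + r), w M b (ord n) - V ≤ uU (St k d I T) r t * w M b t := by
      intro t ht
      have h4 : uU (St k d I T) r t = 1 := by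
        unfold uU
        rw [Set.indicator_of_mem (show t ∈ US (St k d I T) r from ⟨n, hn, ht.1, ht.2⟩)]
      rw [h4, one_mul]
      have h5 : w M b t - w M b (ord n) = ∫ x in (ord n)..t, w' M b x :=
        (intervalIntegral.integral_eq_sub_of_hasDerivAt (fun x _ => w_deriv M b x) (hw'i' _ _)).symm
      have h6 : |w M b t - w M b (ord n)| ≤ V := by
        rw [h5, hV]
        refine (intervalIntegral.abs_integral_le_integral_abs ht.1).trans ?_
        exact intervalIntegral.integral_mono_interval le_rfl ht.1 ht.2 (Eventually.of_forall fun x => abs_nonneg _) (hw'i _ _)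
      linarith [(abs_le.1 h6).1]
    have h4 := intervalIntegral.integral_mono_on (by linarith : ord n ≤ ord n + r) intervalIntegrable_const (huw _ _) h3
    rw [intervalIntegral.integral_const, smul_eq_mul] at h4
    have h5 : (ord n + r - ord n) * (w M b (ord n) - V) = r * w M b (ord n) - r * V := by ring
    rw [h5] at h4
    linarith
  have hsum := Finset.sum_le_sum hone
  rw [← Finset.mul_sum, Finset.sum_add_distrib, ← Finset.mul_sum] at hsum
  have s1 : ∑ n ∈ St k d I T, (∫ t in (ord n + r / 2 - r / 2)..(ord n + r / 2 + r / 2), uU (St k d I T) r t * w M b t) ≤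
      ∫ t in T..(2 * T), uU (St k d I T) r t * w M b t :=
    sum_win (f := ord) (x := r / 2) (fun t => mul_nonneg (uU_nonneg _ _ _) (w_nonneg _ _ _)) (huw _ _) (by linarith) (by linarith) hdis hin
  have s2 : ∑ n ∈ St k d I T, (∫ t in (ord n + r / 2 - r / 2)..(ord n + r / 2 + r / 2), |w' M b t|) ≤ ∫ t in T..(2 * T), |w' M b t| :=
    sum_win (f := ord) (x := r / 2) (fun t => abs_nonneg _) (hw'i _ _) (by linarith) (by linarith) hdis hin
  have s3 : r * (β / 2 * Y T M b) ≤ (∫ t in T..(2 * T), uU (St k d I T) r t * w M b t) + r * (4 * θ * (L * W)) := by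
    have h3 := mul_le_mul_of_nonneg_left hmass hr0.le
    have h4 := mul_le_mul_of_nonneg_left (s2.trans hwv) hr0.le
    linarith
  have e1 : r * (4 * θ * (L * W)) = δ * (4 * θ) * W := by rw [← hrL]; ring
  have e2 : r * (β / 2 * Y T M b) = δ * (β / (4 * Real.pi)) * W := by
    rw [hY, ← hrL]
    field_simp
    ring
  rw [e1, e2] at s3
  have h5 : β / 16 ≤ β / (4 * Real.pi) := by
    apply div_le_div_of_nonneg_left hβ0.le (by positivity)
    linarith
  have h6 : δ * (β / 16) * W ≤ δ * (β / (4 * Real.pi)) * W := by gcongr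
  have h7 : δ * (4 * θ) * W ≤ δ * (β / 32) * W := by
    have : 4 * θ ≤ β / 32 := by linarith
    gcongr
  have h8 : δ * (β / 16) * W = δ * (β / 32) * W + δ * (β / 32) * W := by ring
  linarith

end

end Pool.Agent.H4.SC
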