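import Pool.Agent.H4.SC.Mom

set_option autoImplicit false

/-! Cancellation in the shifted moments. -/

open Filter Topology MeasureTheory Complex

namespace Pool.Agent.H4.SC

open Pool.Agent.Q97.UM (zt)
open Pool.Agent.Q85.Mom (ph)
open Pool.Agent.Q32.Idx (Z Z_cont Z_real Z_zero_iff)

noncomputable section

/-- from lower integrals to integrals -/
lemma int_of_lint {X Y m : ℝ} {S : Set ℝ} {G H : ℝ → ℝ} (hXY : X ≤ Y) (hS : S ⊆ Set.Icc X Y) (hSm : MeasurableSet S)
    (hG : Continuous G) (hG0 : ∀ t, 0 ≤ G t) (hle : ∀ t ∈ S, H t ≤ G t)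
    (h : ENNReal.ofReal m ≤ ∫⁻ t in S, ENNReal.ofReal (H t)) : m ≤ ∫ t in X..Y, G t := by
  have h1 : ∫⁻ t in S, ENNReal.ofReal (H t) ≤ ∫⁻ t in S, ENNReal.ofReal (G t) :=
    setLIntegral_mono' hSm fun t ht => ENNReal.ofReal_le_ofReal (hle t ht)
  have h2 : ∫⁻ t in S, ENNReal.ofReal (G t) ≤ ∫⁻ t in Set.Icc X Y, ENNReal.ofReal (G t) := lintegral_mono_set hS
  have hI : IntegrableOn G (Set.Icc X Y) := hG.integrableOn_Icc
  have h3 := ofReal_integral_eq_lintegral_ofReal hI (Eventually.of_forall hG0)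
  have h4 : ENNReal.ofReal m ≤ ENNReal.ofReal (∫ t in X..Y, G t) := by
    rw [intervalIntegral.integral_of_le hXY, ← integral_Icc_eq_integral_Ioc, h3]
    exact h.trans (h1.trans h2)
  have h5 : 0 ≤ ∫ t in X..Y, G t := intervalIntegral.integral_nonneg hXY fun t _ => hG0 t
  exact (ENNReal.ofReal_le_ofReal_iff h5).1 h4

/-- cancellation of a nearly real function with both signs -/
lemma cancel {X Y η m : ℝ} {F : ℝ → ℂ} {R : ℝ → ℝ} {E : ℂ} (hXY : X ≤ Y) (hFc : Continuous F) (hRc : Continuous R)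
    (hF : ∀ t ∈ Set.Icc X Y, ‖F t - E * R t‖ ≤ η * |R t|) (hn : ∀ t ∈ Set.Icc X Y, ‖F t‖ = |R t|) (hm : 0 < m)
    (hP : m ≤ ∫ t in X..Y, max (R t) 0) (hN : m ≤ ∫ t in X..Y, max (-R t) 0) :
    ‖∫ t in X..Y, F t‖ ≤ (∫ t in X..Y, |R t|) - 2 * m + 2 * η * m := by
  obtain ⟨P, hPd⟩ : ∃ P, P = ∫ t in X..Y, max (R t) 0 := ⟨_, rfl⟩
  obtain ⟨N, hNd⟩ : ∃ N, N = ∫ t in X..Y, max (-R t) 0 := ⟨_, rfl⟩
  rw [← hPd] at hP
  rw [← hNd] at hN
  have hP0 : 0 < P := by linarith
  have hN0 : 0 < N := by linarith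
  obtain ⟨a, ha⟩ : ∃ a, a = m / P := ⟨_, rfl⟩
  obtain ⟨b, hb⟩ : ∃ b, b = m / N := ⟨_, rfl⟩
  have ha0 : 0 ≤ a := by rw [ha]; positivity
  have hb0 : 0 ≤ b := by rw [hb]; positivity
  have ha1 : a ≤ 1 := by rw [ha, div_le_one hP0]; exact hP
  have hb1 : b ≤ 1 := by rw [hb, div_le_one hN0]; exact hN
  have c1 : Continuous fun t => max (R t) 0 := hRc.max continuous_const
  have c2 : Continuous fun t => max (-R t) 0 := hRc.neg.max continuous_const
  have i1 : IntervalIntegrable (fun t => max (R t) 0) volume X Y := c1.intervalIntegrable _ _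
  have i2 : IntervalIntegrable (fun t => max (-R t) 0) volume X Y := c2.intervalIntegrable _ _
  have iR : IntervalIntegrable (fun t => |R t|) volume X Y := hRc.abs.intervalIntegrable _ _
  have hp : ∫ t in X..Y, (a * max (R t) 0 + b * max (-R t) 0) = 2 * m := by
    rw [intervalIntegral.integral_add (i1.const_mul _) (i2.const_mul _), intervalIntegral.integral_const_mul,
      intervalIntegral.integral_const_mul, ← hPd, ← hNd, ha, hb]
    field_simp
    ring
  have hq : ∫ t in X..Y, (a * max (R t) 0 - b * max (-R t) 0) = 0 := by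
    rw [intervalIntegral.integral_sub (i1.const_mul _) (i2.const_mul _), intervalIntegral.integral_const_mul,
      intervalIntegral.integral_const_mul, ← hPd, ← hNd, ha, hb]
    field_simp
    ring
  have cq : Continuous fun t => a * max (R t) 0 - b * max (-R t) 0 := (continuous_const.mul c1).sub (continuous_const.mul c2)
  have hqc : ∫ t in X..Y, E * ((a * max (R t) 0 - b * max (-R t) 0 : ℝ) : ℂ) = 0 := by
    rw [intervalIntegral.integral_const_mul, intervalIntegral.integral_ofReal, hq]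
    simp
  have iF : IntervalIntegrable F volume X Y := hFc.intervalIntegrable _ _
  have iEq : IntervalIntegrable (fun t => E * ((a * max (R t) 0 - b * max (-R t) 0 : ℝ) : ℂ)) volume X Y :=
    (continuous_const.mul (Complex.continuous_ofReal.comp cq)).intervalIntegrable _ _
  have e1 : ∫ t in X..Y, F t = ∫ t in X..Y, (F t - E * ((a * max (R t) 0 - b * max (-R t) 0 : ℝ) : ℂ)) := by
    rw [intervalIntegral.integral_sub iF iEq, hqc, sub_zero]
  have hpt : ∀ t ∈ Set.Icc X Y, ‖F t - E * ((a * max (R t) 0 - b * max (-R t) 0 : ℝ) : ℂ)‖ ≤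
      |R t| - (a * max (R t) 0 + b * max (-R t) 0) + η * (a * max (R t) 0 + b * max (-R t) 0) := by
    intro t ht
    have h1 := hF t ht
    have h2 := hn t ht
    rcases le_total 0 (R t) with h | h
    · rw [max_eq_left h, max_eq_right (by linarith : -R t ≤ 0), abs_of_nonneg h] at *
      have e2 : F t - E * ((a * R t - b * 0 : ℝ) : ℂ) = ((1 - a : ℝ) : ℂ) * F t + ((a : ℝ) : ℂ) * (F t - E * R t) := by
        push_cast
        ring
      rw [e2]
      refine (norm_add_le _ _).trans ?_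
      rw [norm_mul, norm_mul, Complex.norm_real, Complex.norm_real, Real.norm_eq_abs, Real.norm_eq_abs, abs_of_nonneg ha0,
        abs_of_nonneg (by linarith : 0 ≤ 1 - a), h2]
      have h3 := mul_le_mul_of_nonneg_left h1 ha0
      linarith
    · rw [max_eq_right h, max_eq_left (by linarith : 0 ≤ -R t), abs_of_nonpos h] at *
      have e2 : F t - E * ((a * 0 - b * -R t : ℝ) : ℂ) = ((1 - b : ℝ) : ℂ) * F t + ((b : ℝ) : ℂ) * (F t - E * R t) := by
        push_cast
        ring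
      rw [e2]
      refine (norm_add_le _ _).trans ?_
      rw [norm_mul, norm_mul, Complex.norm_real, Complex.norm_real, Real.norm_eq_abs, Real.norm_eq_abs, abs_of_nonneg hb0,
        abs_of_nonneg (by linarith : 0 ≤ 1 - b), h2]
      have h3 := mul_le_mul_of_nonneg_left h1 hb0
      linarith
  rw [e1]
  have ip : IntervalIntegrable (fun t => a * max (R t) 0 + b * max (-R t) 0) volume X Y := (i1.const_mul _).add (i2.const_mul _)
  refine (intervalIntegral.norm_integral_le_integral_norm hXY).trans ?_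
  refine (intervalIntegral.integral_mono_on hXY (iF.sub iEq).norm ((iR.sub ip).add (ip.const_mul η)) hpt).trans (le_of_eq ?_)
  rw [intervalIntegral.integral_add (iR.sub ip) (ip.const_mul η), intervalIntegral.integral_sub iR ip,
    intervalIntegral.integral_const_mul, hp]
  ring

/-- the one-sided form -/
lemma cancel_one {X Y η m : ℝ} {F : ℝ → ℂ} {R : ℝ → ℝ} {E : ℂ} (hXY : X ≤ Y) (hFc : Continuous F) (hRc : Continuous R)
    (hE : ‖E‖ = 1) (hη : η ≤ 1)
    (hF : ∀ t ∈ Set.Icc X Y, ‖F t - E * R t‖ ≤ η * |R t|) (hn : ∀ t ∈ Set.Icc X Y, ‖F t‖ = |R t|)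
    (hN : m ≤ ∫ t in X..Y, max (-R t) 0) :
    ((starRingEnd ℂ) E * ∫ t in X..Y, F t).re ≤ (∫ t in X..Y, |R t|) - m := by
  have iR : IntervalIntegrable (fun t => |R t|) volume X Y := hRc.abs.intervalIntegrable _ _
  have i2 : IntervalIntegrable (fun t => max (-R t) 0) volume X Y := (hRc.neg.max continuous_const).intervalIntegrable _ _
  have cF : Continuous fun t => (starRingEnd ℂ) E * F t := continuous_const.mul hFc
  have hEE : (starRingEnd ℂ) E * E = 1 := by
    rw [mul_comm, Complex.mul_conj, Complex.normSq_eq_norm_sq, hE]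
    simp
  have hpt : ∀ t ∈ Set.Icc X Y, ((starRingEnd ℂ) E * F t).re ≤ |R t| - max (-R t) 0 := by
    intro t ht
    have h1 := hF t ht
    have h2 := hn t ht
    rcases le_total 0 (R t) with h | h
    · rw [max_eq_right (by linarith : -R t ≤ 0), sub_zero, ← h2]
      refine (Complex.re_le_norm _).trans ?_
      rw [norm_mul, Complex.norm_conj, hE, one_mul]
    · rw [max_eq_left (by linarith : 0 ≤ -R t), abs_of_nonpos h, sub_self]
      have e1 : (starRingEnd ℂ) E * F t = (starRingEnd ℂ) E * (F t - E * R t) + R t := by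
        linear_combination (R t : ℂ) * hEE
      rw [e1, Complex.add_re, Complex.ofReal_re]
      have h3 := Complex.re_le_norm ((starRingEnd ℂ) E * (F t - E * R t))
      rw [norm_mul, Complex.norm_conj, hE, one_mul] at h3
      rw [abs_of_nonpos h] at h1
      have h4 : η * -R t ≤ 1 * -R t := mul_le_mul_of_nonneg_right hη (by linarith)
      linarith
  have e1 : ((starRingEnd ℂ) E * ∫ t in X..Y, F t).re = ∫ t in X..Y, ((starRingEnd ℂ) E * F t).re := by
    rw [← intervalIntegral.integral_const_mul]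
    exact (Complex.reCLM.intervalIntegral_comp_comm (cF.intervalIntegrable (μ := volume) X Y)).symm
  rw [e1]
  refine (intervalIntegral.integral_mono_on hXY ((Complex.continuous_re.comp cF).intervalIntegrable _ _) (iR.sub i2) hpt).trans ?_
  rw [intervalIntegral.integral_sub iR i2]
  linarith

/-- the integrand of the problem -/
def Fk (k : ℕ) (a t : ℝ) : ℂ := (zt (t + a) * (starRingEnd ℂ) (zt (t - a))) ^ k

/-- the real function -/
def Rk (k : ℕ) (a t : ℝ) : ℝ := (Z (t + a) * Z (t - a)) ^ k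

lemma zt_cont : Continuous zt := by
  unfold zt
  have h : ∀ t : ℝ, (1 / 2 + t * I : ℂ) ≠ 1 := by
    intro t h
    have := congrArg Complex.re h
    norm_num at this
  rw [continuous_iff_continuousAt]
  intro t
  have h1 : ContinuousAt riemannZeta (1 / 2 + t * I) := (differentiableAt_riemannZeta (h t)).continuousAt
  exact ContinuousAt.comp (f := fun t : ℝ => (1 / 2 + t * I : ℂ)) h1 (by fun_prop)

lemma Fk_cont (k : ℕ) (a : ℝ) : Continuous (Fk k a) :=
  ((zt_cont.comp (continuous_id.add continuous_const)).mul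
    (Complex.continuous_conj.comp (zt_cont.comp (continuous_id.sub continuous_const)))).pow k

lemma Rk_cont (k : ℕ) (a : ℝ) : Continuous (Rk k a) :=
  ((Z_cont.comp (continuous_id.add continuous_const)).mul (Z_cont.comp (continuous_id.sub continuous_const))).pow k

lemma Fk_norm (k : ℕ) (a t : ℝ) : ‖Fk k a t‖ = |Rk k a t| := by
  unfold Fk Rk
  rw [norm_pow, norm_mul, Complex.norm_conj, abs_pow, abs_mul, abs_Z, abs_Z]

/-- the phase -/
lemma Fk_near {k : ℕ} {a T t : ℝ} (hT : 400 ≤ T) (ha : 0 ≤ a) (ha1 : a ≤ 1) (h1 : T / 2 ≤ t) (h2 : t ≤ T) :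
    ‖Fk k a t - cexp (-(I * (k * (a * Real.log T)))) * Rk k a t‖ ≤ (6 * k * a) * |Rk k a t| := by
  have h3 := ph_shift hT ha ha1 h1 h2
  obtain ⟨ψ, hψ⟩ : ∃ ψ, ψ = ph (t - a) - ph (t + a) + a * Real.log T := ⟨_, rfl⟩
  rw [← hψ] at h3
  have h4 : Fk k a t = cexp (-(I * (k * (a * Real.log T)))) * cexp (I * ((k * ψ : ℝ) : ℂ)) * Rk k a t := by
    unfold Fk Rk
    rw [ZZ_eq (by linarith : 100 < t + a) (by linarith : 100 < t - a), mul_pow, ← Complex.exp_nat_mul, ← Complex.exp_add]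
    push_cast
    congr 2
    rw [hψ]
    push_cast
    ring
  have h5 : Fk k a t - cexp (-(I * (k * (a * Real.log T)))) * Rk k a t =
      cexp (-(I * (k * (a * Real.log T)))) * (cexp (I * ((k * ψ : ℝ) : ℂ)) - 1) * Rk k a t := by
    rw [h4]; ring
  have h6 : ‖cexp (-(I * (k * (a * Real.log T))))‖ = 1 := by
    have : -(I * (k * (a * Real.log T)) : ℂ) = ((-(k * (a * Real.log T)) : ℝ) : ℂ) * I := by
      push_cast
      ring
    rw [this, Complex.norm_exp_ofReal_mul_I]
  rw [h5, norm_mul, norm_mul, h6, one_mul, Complex.norm_real, Real.norm_eq_abs]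
  apply mul_le_mul_of_nonneg_right _ (abs_nonneg _)
  refine (Real.norm_exp_I_mul_ofReal_sub_one_le).trans ?_
  rw [Real.norm_eq_abs, abs_mul, Nat.abs_cast]
  calc (k : ℝ) * |ψ| ≤ k * (6 * a) := mul_le_mul_of_nonneg_left h3 (Nat.cast_nonneg k)
    _ = 6 * k * a := by ring

lemma sgn_pow {k : ℕ} (hk : Odd k) {x : ℝ} : (0 < x → |x| ^ (k : ℝ) ≤ max (x ^ k) 0) ∧ (x < 0 → |x| ^ (k : ℝ) ≤ max (-x ^ k) 0) := by
  constructor
  · intro h
    rw [Real.rpow_natCast, abs_of_pos h]
    exact le_max_left _ _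
  · intro h
    rw [Real.rpow_natCast, abs_of_neg h, hk.neg_pow]
    exact le_max_left _ _

/-- the masses of both signs -/
lemma mass_sgn {q α : ℝ} (hq : q = 1 ∨ q = 2) (h0 : 0 < α) (h1 : α < q * Real.pi) {k : ℕ} (hk : Odd k) : ∃ c : ℝ, 0 < c ∧ ∀ᶠ T : ℝ in atTop,
    c * T * Real.log T ^ (k ^ 2) ≤ ∫ t in (T / 2)..T, max (-Rk k (α / Real.log T) t) 0 ∧
    (q = 1 → c * T * Real.log T ^ (k ^ 2) ≤ ∫ t in (T / 2)..T, max (Rk k (α / Real.log T) t) 0) := by
  obtain ⟨c, hc, h⟩ := mom hq h0 h1 (k : ℝ)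
  refine ⟨c, hc, ?_⟩
  filter_upwards [h, eventually_ge_atTop (1 : ℝ)] with T h hT
  have e1 : Real.log T ^ ((k : ℝ) ^ 2) = Real.log T ^ (k ^ 2) := by
    rw [← Nat.cast_pow, Real.rpow_natCast]
  rw [e1] at h
  have hmeas : ∀ σ : ℝ, MeasurableSet {t : ℝ | T / 2 ≤ t ∧ t ≤ T ∧ 0 < σ * (Z (t + α / Real.log T) * Z (t - α / Real.log T))} := by
    intro σ
    have h1 : {t : ℝ | T / 2 ≤ t ∧ t ≤ T ∧ 0 < σ * (Z (t + α / Real.log T) * Z (t - α / Real.log T))} =
        Set.Icc (T / 2) T ∩ {t : ℝ | 0 < σ * (Z (t + α / Real.log T) * Z (t - α / Real.log T))} := by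
      ext t
      exact ⟨fun h => ⟨⟨h.1, h.2.1⟩, h.2.2⟩, fun h => ⟨h.1.1, h.1.2, h.2⟩⟩
    rw [h1]
    exact measurableSet_Icc.inter (isOpen_S σ _).measurableSet
  refine ⟨?_, fun hq1 => ?_⟩
  · refine int_of_lint (by linarith) (fun t ht => ⟨ht.1, ht.2.1⟩) (hmeas (-1)) ((Rk_cont k _).neg.max continuous_const)
      (fun t => le_max_right _ _) (fun t ht => ?_) (h (-1) (Or.inr rfl) (Or.inr rfl))
    have h2 : Z (t + α / Real.log T) * Z (t - α / Real.log T) < 0 := by linarith [ht.2.2]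
    exact (sgn_pow hk).2 h2
  · refine int_of_lint (by linarith) (fun t ht => ⟨ht.1, ht.2.1⟩) (hmeas 1) ((Rk_cont k _).max continuous_const)
      (fun t => le_max_right _ _) (fun t ht => ?_) (h 1 (Or.inl rfl) (Or.inl hq1))
    have h2 : 0 < Z (t + α / Real.log T) * Z (t - α / Real.log T) := by linarith [ht.2.2]
    exact (sgn_pow hk).1 h2

/-- **cancellation**, positive shifts -/
theorem canc {q α : ℝ} (hq : q = 1 ∨ q = 2) (h0 : 0 < α) (h1 : α < q * Real.pi) {k : ℕ} (hk : Odd k) : ∃ c : ℝ, 0 < c ∧ ∀ᶠ T : ℝ in atTop,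
    (q = 1 → ‖∫ t in (0 : ℝ)..T, Fk k (α / Real.log T) t‖ ≤
      (∫ t in (0 : ℝ)..T, ‖Fk k (α / Real.log T) t‖) - c * T * Real.log T ^ (k ^ 2)) ∧
    (cexp (I * (k * α)) * ∫ t in (0 : ℝ)..T, Fk k (α / Real.log T) t).re ≤
      (∫ t in (0 : ℝ)..T, ‖Fk k (α / Real.log T) t‖) - c * T * Real.log T ^ (k ^ 2) := by
  obtain ⟨c, hc, h⟩ := mass_sgn hq h0 h1 hk
  refine ⟨c, hc, ?_⟩
  filter_upwards [h, eventually_ge_atTop (400 : ℝ), Real.tendsto_log_atTop.eventually_ge_atTop (1 + 12 * k * α + α)] with T h hT hL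
  have hkα : 0 ≤ 12 * (k : ℝ) * α := by positivity
  have hL0 : 0 < Real.log T := by linarith
  obtain ⟨a, ha⟩ : ∃ a, a = α / Real.log T := ⟨_, rfl⟩
  rw [← ha] at h ⊢
  have haL : a * Real.log T = α := by rw [ha]; field_simp
  have ha0 : 0 ≤ a := by rw [ha]; positivity
  have ha1 : a ≤ 1 := by
    rw [ha, div_le_one hL0]
    linarith
  have hη : 6 * (k : ℝ) * a ≤ 1 / 2 := by
    rw [ha, ← mul_div_assoc, div_le_iff₀ hL0]
    linarith
  obtain ⟨m, hm⟩ : ∃ m, m = c * T * Real.log T ^ (k ^ 2) := ⟨_, rfl⟩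
  rw [← hm] at h ⊢
  have hm0 : 0 < m := by rw [hm]; positivity
  have hFc := Fk_cont k a
  have hii : ∀ x y, IntervalIntegrable (Fk k a) volume x y := fun x y => hFc.intervalIntegrable _ _
  have hin : ∀ x y, IntervalIntegrable (fun t => ‖Fk k a t‖) volume x y := fun x y => hFc.norm.intervalIntegrable _ _
  have hnear : ∀ t ∈ Set.Icc (T / 2) T, ‖Fk k a t - cexp (-(I * (k * α))) * Rk k a t‖ ≤ (6 * k * a) * |Rk k a t| := by
    intro t ht
    have := Fk_near (k := k) hT ha0 ha1 ht.1 ht.2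
    rw [← Complex.ofReal_mul, haL] at this
    exact this
  have hEn : ‖cexp (-(I * (k * α)))‖ = 1 := by
    have : -(I * (k * α) : ℂ) = ((-(k * α) : ℝ) : ℂ) * I := by
      push_cast
      ring
    rw [this, Complex.norm_exp_ofReal_mul_I]
  have hEc : (starRingEnd ℂ) (cexp (-(I * (k * α)))) = cexp (I * (k * α)) := by
    rw [← Complex.exp_conj]
    congr 1
    simp
  have s1 : ∫ t in (0 : ℝ)..T, Fk k a t = (∫ t in (0 : ℝ)..(T / 2), Fk k a t) + ∫ t in (T / 2)..T, Fk k a t :=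
    (intervalIntegral.integral_add_adjacent_intervals (hii _ _) (hii _ _)).symm
  have s2 : ∫ t in (0 : ℝ)..T, ‖Fk k a t‖ = (∫ t in (0 : ℝ)..(T / 2), ‖Fk k a t‖) + ∫ t in (T / 2)..T, ‖Fk k a t‖ :=
    (intervalIntegral.integral_add_adjacent_intervals (hin _ _) (hin _ _)).symm
  have s3 : ∫ t in (T / 2)..T, ‖Fk k a t‖ = ∫ t in (T / 2)..T, |Rk k a t| :=
    intervalIntegral.integral_congr fun t _ => Fk_norm k a t
  have s4 : ‖∫ t in (0 : ℝ)..(T / 2), Fk k a t‖ ≤ ∫ t in (0 : ℝ)..(T / 2), ‖Fk k a t‖ :=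
    intervalIntegral.norm_integral_le_integral_norm (by linarith)
  refine ⟨fun hq1 => ?_, ?_⟩
  · have h2 := cancel (by linarith : T / 2 ≤ T) hFc (Rk_cont k a) hnear (fun t _ => Fk_norm k a t) hm0 (h.2 hq1) h.1
    have h3 : 2 * (6 * (k : ℝ) * a) * m ≤ m := by
      have := mul_le_mul_of_nonneg_right hη hm0.le
      linarith
    rw [s1, s2, s3]
    refine (norm_add_le _ _).trans ?_
    linarith
  · have h2 := cancel_one (by linarith : T / 2 ≤ T) hFc (Rk_cont k a) hEn (by linarith) hnear (fun t _ => Fk_norm k a t) h.1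
    rw [hEc] at h2
    have h3 : (cexp (I * (k * α)) * ∫ t in (0 : ℝ)..(T / 2), Fk k a t).re ≤ ∫ t in (0 : ℝ)..(T / 2), ‖Fk k a t‖ := by
      refine (Complex.re_le_norm _).trans ?_
      rw [norm_mul, ← hEc, Complex.norm_conj, hEn, one_mul]
      exact s4
    rw [s1, s2, s3, mul_add, Complex.add_re]
    linarith

end

end Pool.Agent.H4.SC
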