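import Pool.Agent.H4.PX.Var
import Pool.Agent.H4.SG.Sgn

set_option autoImplicit false

/-! Sign propagation: zeros forced by the constant sign of `Z(t+a)Z(t-a)`. -/

open Filter Topology MeasureTheory Complex

namespace Pool.Agent.H4.SC

open Pool.Agent.Q97.UM
open Pool.Agent.Q32.Idx (Z Z_cont Z_real Z_zero_iff same_sign local_sign mult)
open Pool.Agent.H4.PX (w w_nonneg w_le dp_cont w_deriv N2_bd N2_nonneg)
open Pool.Agent.H4.IX (ZI_facts)

noncomputable section

/-- sums over disjoint windows -/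
lemma sum_win {ι : Type} {Γ : Finset ι} {f : ι → ℝ} {r x X Y : ℝ} {F : ℝ → ℝ} (hF : ∀ t, 0 ≤ F t)
    (hint : IntervalIntegrable F volume X Y) (hr : 0 ≤ r) (hXY : X ≤ Y)
    (hdis : ∀ i ∈ Γ, ∀ j ∈ Γ, i ≠ j → 2 * r ≤ |f i - f j|) (hin : ∀ i ∈ Γ, X ≤ f i + x - r ∧ f i + x + r ≤ Y) :
    ∑ i ∈ Γ, ∫ t in (f i + x - r)..(f i + x + r), F t ≤ ∫ t in X..Y, F t := by
  have h1 : ∀ i ∈ Γ, ∫ t in (f i + x - r)..(f i + x + r), F t = ∫ t in Set.Ioc (f i + x - r) (f i + x + r), F t :=
    fun i _ => intervalIntegral.integral_of_le (by linarith)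
  have hI : IntegrableOn F (Set.Ioc X Y) := (intervalIntegrable_iff_integrableOn_Ioc_of_le hXY).1 hint
  have hsub : ∀ i ∈ Γ, Set.Ioc (f i + x - r) (f i + x + r) ⊆ Set.Ioc X Y := fun i hi =>
    Set.Ioc_subset_Ioc (hin i hi).1 (hin i hi).2
  have hpd : (↑Γ : Set ι).Pairwise (Function.onFun Disjoint fun i => Set.Ioc (f i + x - r) (f i + x + r)) := by
    intro i hi j hj hij
    have h2 := hdis i hi j hj hij
    rw [Function.onFun, Set.disjoint_left]
    intro t ht1 ht2
    have h3 := abs_le.1 (le_refl |f i - f j|)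
    rcases le_total (f i) (f j) with h4 | h4
    · rw [abs_sub_comm, abs_of_nonneg (by linarith)] at h2
      linarith [ht1.2, ht2.1]
    · rw [abs_of_nonneg (by linarith)] at h2
      linarith [ht1.1, ht2.2]
  rw [Finset.sum_congr rfl h1, ← MeasureTheory.integral_biUnion_finset Γ (fun i _ => measurableSet_Ioc) hpd
    (fun i hi => hI.mono_set (hsub i hi)), intervalIntegral.integral_of_le hXY]
  refine setIntegral_mono_set hI (Eventually.of_forall fun t => hF t) (LE.le.eventuallyLE ?_)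
  exact Set.iUnion₂_subset hsub

/-- the sign changes at an isolated simple zero -/
lemma sgn_change {g r : ℝ} (hg : r < g) (hm : mult (1 / 2 + I * g) = 1)
    (hiso : ∀ x, |x - g| < r → Z x = 0 → x = g) {v : ℝ} (hv : 0 < v) (hvr : v < r) : Z (g + v) * Z (g - v) < 0 := by
  obtain ⟨δ, hδ, h⟩ := local_sign g (by linarith)
  obtain ⟨e, he⟩ : ∃ e, e = min v (δ / 2) := ⟨_, rfl⟩
  have he0 : 0 < e := by rw [he]; positivity
  have he1 : e ≤ v := by rw [he]; exact min_le_left _ _
  have he2 : e < δ := by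
    have : e ≤ δ / 2 := by rw [he]; exact min_le_right _ _
    linarith
  have h1 := h (g - e) (g + e) (by linarith) (by linarith) (by linarith) (by linarith)
  rw [hm, pow_one] at h1
  have h2 : 0 < Z (g + e) * Z (g + v) := same_sign (by linarith) fun x hx1 hx2 h0 => by
    have := hiso x (by rw [abs_lt]; constructor <;> linarith) h0
    linarith
  have h3 : 0 < Z (g - v) * Z (g - e) := same_sign (by linarith) fun x hx1 hx2 h0 => by
    have := hiso x (by rw [abs_lt]; constructor <;> linarith) h0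
    linarith
  have h4 : 0 < (-(Z (g - e) * Z (g + e))) * ((Z (g + e) * Z (g + v)) * (Z (g - v) * Z (g - e))) :=
    mul_pos (by linarith) (mul_pos h2 h3)
  have h5 : (-(Z (g - e) * Z (g + e))) * ((Z (g + e) * Z (g + v)) * (Z (g - v) * Z (g - e))) =
      (Z (g - e) * Z (g + e)) ^ 2 * (-(Z (g + v) * Z (g - v))) := by ring
  rw [h5] at h4
  have h6 := (pos_iff_pos_of_mul_pos h4).1 (by
    have : 0 ≤ (Z (g - e) * Z (g + e)) ^ 2 := sq_nonneg _
    rcases this.lt_or_eq with h7 | h7
    · exact h7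
    · rw [← h7, zero_mul] at h4
      exact absurd h4 (lt_irrefl _))
  linarith

/-- sign propagation -/
lemma chain {σ a g v : ℝ} {J : ℕ} (h0 : Z (g + v) * Z (g - v) < 0)
    (hp : ∀ j < J, 0 < σ * (Z (g + v + (2 * j + 1) * a + a) * Z (g + v + (2 * j + 1) * a - a)))
    (hm : ∀ j < J, 0 < σ * (Z (g - v + (2 * j + 1) * a + a) * Z (g - v + (2 * j + 1) * a - a))) :
    ∀ j ≤ J, Z (g + v + 2 * j * a) * Z (g - v + 2 * j * a) < 0 := by
  intro j
  induction j with
  | zero =>
    intro _
    simpa using h0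
  | succ j ih =>
    intro hj
    have h1 := ih (by omega)
    have h2 := mul_pos (hp j (by omega)) (hm j (by omega))
    have e1 : g + v + (2 * (j : ℝ) + 1) * a + a = g + v + 2 * ((j + 1 : ℕ) : ℝ) * a := by push_cast; ring
    have e2 : g + v + (2 * (j : ℝ) + 1) * a - a = g + v + 2 * (j : ℝ) * a := by ring
    have e3 : g - v + (2 * (j : ℝ) + 1) * a + a = g - v + 2 * ((j + 1 : ℕ) : ℝ) * a := by push_cast; ring
    have e4 : g - v + (2 * (j : ℝ) + 1) * a - a = g - v + 2 * (j : ℝ) * a := by ring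
    rw [e1, e2, e3, e4] at h2
    set A := Z (g + v + 2 * ((j + 1 : ℕ) : ℝ) * a)
    set B := Z (g + v + 2 * (j : ℝ) * a)
    set C := Z (g - v + 2 * ((j + 1 : ℕ) : ℝ) * a)
    set D := Z (g - v + 2 * (j : ℝ) * a)
    have e5 : σ * (A * B) * (σ * (C * D)) = σ ^ 2 * ((A * C) * (B * D)) := by ring
    rw [e5] at h2
    by_contra h3
    rw [not_lt] at h3
    have h4 : (A * C) * (B * D) ≤ 0 := mul_nonpos_of_nonneg_of_nonpos h3 h1.le
    have h5 : σ ^ 2 * ((A * C) * (B * D)) ≤ 0 := mul_nonpos_of_nonneg_of_nonpos (sq_nonneg σ) h4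
    linarith

/-- a zero between points of opposite signs -/
lemma zero_between {x y : ℝ} (hxy : x ≤ y) (h : Z y * Z x < 0) : ∃ z, x < z ∧ z < y ∧ Z z = 0 := by
  have hc : ContinuousOn Z (Set.Icc x y) := Z_cont.continuousOn
  have hne : ∀ z, Z z = 0 → z ≠ x ∧ z ≠ y := by
    intro z hz
    constructor
    · rintro rfl
      rw [hz, mul_zero] at h
      exact lt_irrefl _ h
    · rintro rfl
      rw [hz, zero_mul] at h
      exact lt_irrefl _ h
  rcases lt_trichotomy (Z x) 0 with h1 | h1 | h1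
  · have h2 : 0 < Z y := by
      by_contra h3
      rw [not_lt] at h3
      have := mul_nonneg_of_nonpos_of_nonpos h3 h1.le
      linarith
    obtain ⟨z, hz1, hz2⟩ := intermediate_value_Icc hxy hc ⟨h1.le, h2.le⟩
    obtain ⟨h3, h4⟩ := hne z hz2
    exact ⟨z, lt_of_le_of_ne hz1.1 (Ne.symm h3), lt_of_le_of_ne hz1.2 h4, hz2⟩
  · rw [h1, mul_zero] at h
    exact absurd h (lt_irrefl _)
  · have h2 : Z y < 0 := by
      by_contra h3
      rw [not_lt] at h3
      have := mul_nonneg h3 h1.le
      linarith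
    obtain ⟨z, hz1, hz2⟩ := intermediate_value_Icc' hxy hc ⟨h2.le, h1.le⟩
    obtain ⟨h3, h4⟩ := hne z hz2
    exact ⟨z, lt_of_le_of_ne hz1.1 (Ne.symm h3), lt_of_le_of_ne hz1.2 h4, hz2⟩

/-- membership in `ZT` -/
lemma mem_ZT_of {T z : ℝ} (hT : 1 ≤ T) (h1 : T + 1 < z) (h2 : z ≤ 2 * T - 1) (hz : Z z = 0) :
    (1 / 2 + I * z : ℂ) ∈ ZT T := by
  have hF := H370.good_zeta
  unfold ZT
  rw [H370.mem_Zf hF (by linarith)]
  have h3 := (Z_zero_iff z).1 hz
  refine ⟨?_, ?_, ?_, ?_, h3⟩
  · simp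
  · simp; norm_num
  · simpa using h1
  · simpa using h2

/-- the number of zeros in a window is at least the number of real zeros of `Z` -/
lemma Nw_ge_card {T R t : ℝ} (hT : 1 ≤ T) (S : Finset ℝ)
    (hS : ∀ x ∈ S, Z x = 0 ∧ T + 1 < x ∧ x ≤ 2 * T - 1 ∧ |x - t| ≤ R) : (S.card : ℝ) ≤ Nw T R t := by
  classical
  have hinj : Set.InjOn (fun x : ℝ => (1 / 2 + I * (x : ℂ) : ℂ)) (S : Set ℝ) := by
    intro x _ y _ hxy
    have := congrArg Complex.im hxy
    simpa using this
  have hsub : S.image (fun x : ℝ => (1 / 2 + I * (x : ℂ) : ℂ)) ⊆ (ZT T).filter (fun s => |s.im - t| ≤ R) := by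
    intro s hs
    obtain ⟨x, hx, rfl⟩ := Finset.mem_image.1 hs
    obtain ⟨h1, h2, h3, h4⟩ := hS x hx
    rw [Finset.mem_filter]
    refine ⟨mem_ZT_of hT h2 h3 h1, ?_⟩
    simpa using h4
  have h5 : (S.card : ℝ) ≤ (((ZT T).filter (fun s => |s.im - t| ≤ R)).card : ℝ) := by
    rw [← Finset.card_image_of_injOn hinj]
    exact_mod_cast Finset.card_le_card hsub
  unfold Nw
  have h6 : (((ZT T).filter (fun s => |s.im - t| ≤ R)).card : ℝ) ≤ ∑ s ∈ (ZT T).filter (fun s => |s.im - t| ≤ R), (mz s : ℝ) := by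
    rw [Finset.card_eq_sum_ones]
    push_cast
    refine Finset.sum_le_sum fun s hs => ?_
    have h7 : 1 ≤ mz s := by
      have h8 := (Finset.mem_filter.1 hs).1
      unfold ZT at h8
      rw [H370.mem_Zf H370.good_zeta (by linarith)] at h8
      exact H370.Loc.mult_pos' H370.good_zeta (by linarith [h8.2.2.1]) h8.2.2.2.2
    exact_mod_cast h7
  calc (S.card : ℝ) ≤ _ := h5
    _ ≤ _ := by convert h6

/-- the count in the windows -/
lemma count_ge {T σ a g v t R q : ℝ} {J : ℕ} (hT : 1 ≤ T) (hv : 0 < v) (hva : v < a) (h0 : Z (g + v) * Z (g - v) < 0)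
    (hp : ∀ j < J, 0 < σ * (Z (g + v + (2 * j + 1) * a + a) * Z (g + v + (2 * j + 1) * a - a)))
    (hm : ∀ j < J, 0 < σ * (Z (g - v + (2 * j + 1) * a + a) * Z (g - v + (2 * j + 1) * a - a)))
    (hg1 : T + 1 < g - v) (hg2 : g + 2 * J * a + v ≤ 2 * T - 1) (ht : |t - (g + J * a)| + J * a + v ≤ R)
    (hq : q = 1 ∨ (q = 2 ∧ 0 < σ)) :
    q * J + 1 ≤ Nw T R t := by
  classical
  have hch := chain h0 hp hm
  have hz : ∀ j : ℕ, ∃ z, j ≤ J → g - v + 2 * j * a < z ∧ z < g + v + 2 * j * a ∧ Z z = 0 := by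
    intro j
    by_cases hj : j ≤ J
    · obtain ⟨z, h1, h2, h3⟩ := zero_between (x := g - v + 2 * j * a) (y := g + v + 2 * j * a) (by linarith) (hch j hj)
      exact ⟨z, fun _ => ⟨h1, h2, h3⟩⟩
    · exact ⟨0, fun h => absurd h hj⟩
  choose z hz using hz
  have ha : 0 < a := by linarith
  have keyz : ∀ i j : ℕ, i ≤ J → j ≤ J → i < j → z i < z j := by
    intro i j hi hj hij
    have h1 := (hz i hi).2.1
    have h2 := (hz j hj).1
    have h3 : (i : ℝ) + 1 ≤ j := by exact_mod_cast hij
    nlinarith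
  have hinj : Set.InjOn z (Finset.range (J + 1) : Set ℕ) := by
    intro i hi j hj hij
    rw [Finset.mem_coe, Finset.mem_range] at hi hj
    by_contra hne
    rcases lt_or_gt_of_ne hne with h | h
    · have := keyz i j (by omega) (by omega) h
      linarith
    · have := keyz j i (by omega) (by omega) h
      linarith
  have hzS : ∀ j ∈ Finset.range (J + 1), Z (z j) = 0 ∧ T + 1 < z j ∧ z j ≤ 2 * T - 1 ∧ |z j - t| ≤ R := by
    intro j hj
    rw [Finset.mem_range] at hj
    have hjJ : (j : ℝ) ≤ J := by exact_mod_cast (by omega : j ≤ J)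
    obtain ⟨h1, h2, h3⟩ := hz j (by omega)
    have hja : 2 * (j : ℝ) * a ≤ 2 * J * a := by nlinarith
    have hja0 : 0 ≤ 2 * (j : ℝ) * a := by positivity
    refine ⟨h3, by linarith, by linarith, ?_⟩
    have e1 : z j - t = (z j - (g + J * a)) - (t - (g + J * a)) := by ring
    rw [e1]
    refine (abs_sub _ _).trans ?_
    have h4 : |z j - (g + J * a)| ≤ J * a + v := by
      rw [abs_le]
      constructor <;> linarith
    linarith
  rcases hq with rfl | ⟨rfl, hσ⟩
  · have h1 := Nw_ge_card (R := R) (t := t) hT ((Finset.range (J + 1)).image z) (fun x hx => by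
      obtain ⟨j, hj, rfl⟩ := Finset.mem_image.1 hx
      exact hzS j hj)
    rw [Finset.card_image_of_injOn hinj, Finset.card_range] at h1
    push_cast at h1
    linarith
  · have hy : ∀ j : ℕ, ∃ y, j < J → g + v + 2 * j * a < y ∧ y < g - v + 2 * (j + 1) * a ∧ Z y = 0 := by
      intro j
      by_cases hj : j < J
      · have h1 := hch (j + 1) (by omega)
        have h2 := hp j hj
        have e1 : g + v + (2 * (j : ℝ) + 1) * a + a = g + v + 2 * ((j : ℝ) + 1) * a := by ring
        have e2 : g + v + (2 * (j : ℝ) + 1) * a - a = g + v + 2 * (j : ℝ) * a := by ring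
        rw [e1, e2] at h2
        push_cast at h1
        have h3 : 0 < Z (g + v + 2 * ((j : ℝ) + 1) * a) * Z (g + v + 2 * (j : ℝ) * a) := (pos_iff_pos_of_mul_pos h2).1 hσ
        have h4 : Z (g - v + 2 * ((j : ℝ) + 1) * a) * Z (g + v + 2 * (j : ℝ) * a) < 0 := by
          set A := Z (g + v + 2 * ((j : ℝ) + 1) * a)
          set B := Z (g - v + 2 * ((j : ℝ) + 1) * a)
          set C := Z (g + v + 2 * (j : ℝ) * a)
          have h5 := mul_pos h3 (neg_pos.2 h1)
          have h6 : A * C * -(A * B) = A ^ 2 * -(B * C) := by ring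
          rw [h6] at h5
          by_contra h7
          rw [not_lt] at h7
          have h8 : 0 ≤ A ^ 2 * (B * C) := mul_nonneg (sq_nonneg _) h7
          linarith
        obtain ⟨y, h5, h6, h7⟩ := zero_between (x := g + v + 2 * j * a) (y := g - v + 2 * (j + 1) * a) (by linarith) h4
        exact ⟨y, fun _ => ⟨h5, h6, h7⟩⟩
      · exact ⟨0, fun h => absurd h hj⟩
    choose y hy using hy
    have keyy : ∀ i j : ℕ, i < J → j < J → i < j → y i < y j := by
      intro i j hi hj hij
      have h1 := (hy i hi).2.1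
      have h2 := (hy j hj).1
      have h3 : (i : ℝ) + 1 ≤ j := by exact_mod_cast hij
      nlinarith
    have hinjy : Set.InjOn y (Finset.range J : Set ℕ) := by
      intro i hi j hj hij
      rw [Finset.mem_coe, Finset.mem_range] at hi hj
      by_contra hne
      rcases lt_or_gt_of_ne hne with h | h
      · have := keyy i j (by omega) (by omega) h
        linarith
      · have := keyy j i (by omega) (by omega) h
        linarith
    have hyS : ∀ j ∈ Finset.range J, Z (y j) = 0 ∧ T + 1 < y j ∧ y j ≤ 2 * T - 1 ∧ |y j - t| ≤ R := by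
      intro j hj
      rw [Finset.mem_range] at hj
      have hjJ : (j : ℝ) + 1 ≤ J := by exact_mod_cast hj
      obtain ⟨h1, h2, h3⟩ := hy j hj
      have hja : 2 * ((j : ℝ) + 1) * a ≤ 2 * J * a := by nlinarith
      have hja0 : 0 ≤ 2 * (j : ℝ) * a := by positivity
      refine ⟨h3, by linarith, by linarith, ?_⟩
      have e1 : y j - t = (y j - (g + J * a)) - (t - (g + J * a)) := by ring
      rw [e1]
      refine (abs_sub _ _).trans ?_
      have h4 : |y j - (g + J * a)| ≤ J * a + v := by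
        rw [abs_le]
        constructor <;> linarith
      linarith
    have hdisj : Disjoint ((Finset.range (J + 1)).image z) ((Finset.range J).image y) := by
      rw [Finset.disjoint_left]
      intro x hx1 hx2
      obtain ⟨i, hi, rfl⟩ := Finset.mem_image.1 hx1
      obtain ⟨j, hj, hij⟩ := Finset.mem_image.1 hx2
      rw [Finset.mem_range] at hi hj
      obtain ⟨h1, h2, -⟩ := hz i (by omega)
      obtain ⟨h3, h4, -⟩ := hy j hj
      rcases Nat.lt_or_ge j i with h | h
      · have h5 : (j : ℝ) + 1 ≤ i := by exact_mod_cast h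
        nlinarith
      · have h5 : (i : ℝ) ≤ j := by exact_mod_cast h
        nlinarith
    have h1 := Nw_ge_card (R := R) (t := t) hT ((Finset.range (J + 1)).image z ∪ (Finset.range J).image y) (fun x hx => by
      rcases Finset.mem_union.1 hx with h | h
      · obtain ⟨j, hj, rfl⟩ := Finset.mem_image.1 h
        exact hzS j hj
      · obtain ⟨j, hj, rfl⟩ := Finset.mem_image.1 h
        exact hyS j hj)
    rw [Finset.card_union_of_disjoint hdisj, Finset.card_image_of_injOn hinj, Finset.card_image_of_injOn hinjy, Finset.card_range,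
      Finset.card_range] at h1
    push_cast at h1
    linarith

end

end Pool.Agent.H4.SC
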