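import Pool.Graph.R_pool_sql_team_seeded_3997aac3.Q97.UM.Base3

set_option autoImplicit false

/-! The law of large numbers for the number of the zeros in windows, relative to every Dirichlet polynomial. -/

open Filter Topology MeasureTheory Complex

namespace Pool.Agent.H4.SC

open Pool.Agent.Q97.UM

noncomputable section

lemma dp_cont' (N : ℕ) (b : ℕ → ℂ) : Continuous (dp N b) := by
  unfold dp
  refine continuous_finsetSum _ fun n hn => ?_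
  refine continuous_const.mul ?_
  have hn0 : (n : ℂ) ≠ 0 := by
    have := (Finset.mem_Icc.1 hn).1
    exact_mod_cast (by omega : n ≠ 0)
  exact Continuous.const_cpow (by fun_prop) (Or.inl hn0)

lemma ar1 {e h C : ℝ} (he : 0 < e) (h1 : 64 / e * C ≤ h) (hC : 0 ≤ C) : 4 * C / 3 ≤ e / 16 * h := by
  have h2 := mul_le_mul_of_nonneg_left h1 (by positivity : 0 ≤ e / 16)
  have h3 : e / 16 * (64 / e * C) = 4 * C := by
    have : e * (1 / e) = 1 := by rw [mul_one_div_cancel he.ne']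
    calc e / 16 * (64 / e * C) = (e * (1 / e)) * (4 * C) := by ring
      _ = _ := by rw [this, one_mul]
  linarith

lemma ar2 {e h C : ℝ} (he : 0 < e) (h1 : 1600 / e * C ≤ h) : 100 * C ≤ e / 16 * h := by
  have h2 := mul_le_mul_of_nonneg_left h1 (by positivity : 0 ≤ e / 16)
  have h3 : e / 16 * (1600 / e * C) = 100 * C := by
    have : e * (1 / e) = 1 := by rw [mul_one_div_cancel he.ne']
    calc e / 16 * (1600 / e * C) = (e * (1 / e)) * (100 * C) := by ring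
      _ = _ := by rw [this, one_mul]
  linarith

lemma ar4 {e h C η : ℝ} (he : 0 < e) (hη : 0 < η) (hh : 0 ≤ h) (h1 : 512 * C / (η * e ^ 2) ≤ h) :
    2 * C / η * h ≤ e ^ 2 / 256 * h ^ 2 := by
  have h2 := mul_le_mul_of_nonneg_left h1 (by positivity : 0 ≤ e ^ 2 / 256 * h)
  have h3 : e ^ 2 / 256 * h * (512 * C / (η * e ^ 2)) = 2 * C / η * h := by
    have e1 : 512 * C / (η * e ^ 2) = 512 * C / η * (1 / e ^ 2) := by rw [div_mul_div_comm, mul_one]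
    have e2 : e ^ 2 * (1 / e ^ 2) = 1 := by rw [mul_one_div_cancel (by positivity)]
    rw [e1]
    calc e ^ 2 / 256 * h * (512 * C / η * (1 / e ^ 2)) = (e ^ 2 * (1 / e ^ 2)) * (2 * C / η * h) := by ring
      _ = _ := by rw [e2, one_mul]
  have h4 : e ^ 2 / 256 * h * h = e ^ 2 / 256 * h ^ 2 := by ring
  linarith

lemma ar5 {e h C : ℝ} (he : 0 < e) (hC : 0 < C) (hh : 0 ≤ h) (h1 : 2 * (4096 * C / e ^ 2) ^ 2 ≤ h) :
    C * Real.sqrt (2 * h) ≤ e ^ 2 / 4096 * h := by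
  obtain ⟨u, hu⟩ : ∃ u, u = e ^ 2 / (4096 * C) := ⟨_, rfl⟩
  have hu0 : 0 < u := by rw [hu]; positivity
  have huv : u * (4096 * C / e ^ 2) = 1 := by
    rw [hu, div_mul_div_comm, mul_comm (e ^ 2), div_self (by positivity)]
  have h4 : 2 ≤ u ^ 2 * h := by
    have h5 := mul_le_mul_of_nonneg_left h1 (by positivity : 0 ≤ u ^ 2)
    have h6 : u ^ 2 * (2 * (4096 * C / e ^ 2) ^ 2) = 2 := by
      calc u ^ 2 * (2 * (4096 * C / e ^ 2) ^ 2) = 2 * (u * (4096 * C / e ^ 2)) ^ 2 := by ring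
        _ = 2 := by rw [huv]; norm_num
    linarith
  have h2 : Real.sqrt (2 * h) ≤ u * h := by
    rw [Real.sqrt_le_left (by positivity)]
    have h3 : (u * h) ^ 2 = (u ^ 2 * h) * h := by ring
    rw [h3]
    exact mul_le_mul_of_nonneg_right h4 hh
  have h7 := mul_le_mul_of_nonneg_left h2 hC.le
  have h8 : C * (u * h) = e ^ 2 / 4096 * h := by
    have e1 : C * u = e ^ 2 / 4096 := by
      rw [hu, ← mul_div_assoc, mul_comm C, mul_div_mul_right _ _ hC.ne']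
    rw [← mul_assoc, e1]
  linarith

lemma ar6 {e h Q q D : ℝ} (he0 : 0 < e) (he1 : e ≤ 1) (hh : 0 ≤ h) (hq : |q| ≤ 2 * h) (h1 : |Q - q| ≤ D) (hD : D ≤ e ^ 2 / 2048 * h) :
    Q ^ 2 ≤ q ^ 2 + 5 * h * (e ^ 2 / 2048 * h) := by
  have he2 : e ^ 2 ≤ 1 := pow_le_one₀ he0.le he1
  have h2 : e ^ 2 / 2048 * h ≤ h := by
    have : e ^ 2 / 2048 ≤ 1 := by linarith
    exact mul_le_of_le_one_left hh this
  have h1' := h1.trans hD
  have h3 : |Q + q| ≤ 5 * h := by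
    have e3 : Q + q = (Q - q) + 2 * q := by ring
    rw [e3]
    refine (abs_add_le _ _).trans ?_
    rw [abs_mul, abs_two]
    linarith
  have h4 : |Q + q| * |Q - q| ≤ 5 * h * (e ^ 2 / 2048 * h) := mul_le_mul h3 h1' (abs_nonneg _) (by positivity)
  rw [← abs_mul] at h4
  have h5 := le_abs_self ((Q + q) * (Q - q))
  have h6 : (Q + q) * (Q - q) = Q ^ 2 - q ^ 2 := by ring
  linarith

/-- the variance -/
lemma ar7 {e h q Q M W Z2 Zz C η : ℝ} (he0 : 0 < e) (he1 : e ≤ 1) (hh : 0 < h) (hW0 : 0 ≤ W) (hq : |q| ≤ 2 * h)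
    (hη : η = e ^ 2 / 4096) (hQq : Q ^ 2 ≤ q ^ 2 + 5 * h * (e ^ 2 / 2048 * h))
    (f4 : C * h ≤ e ^ 2 / 256 * h ^ 2)
    (hZ2W : Z2 ≤ (Q ^ 2 + η * Q ^ 2 + C * h + e ^ 2 / 1024 * h ^ 2) * W)
    (hMW : |M - W| ≤ e ^ 2 / 1024 * W)
    (hLI : |Zz - q * M| ≤ e ^ 2 / 2048 * h * W) :
    Z2 - 2 * q * Zz + q ^ 2 * M ≤ e ^ 2 / 32 * h ^ 2 * W := by
  have he2 : e ^ 2 ≤ 1 := pow_le_one₀ he0.le he1
  have hq4 : q ^ 2 ≤ 4 * h ^ 2 := by
    have h1 : |q| ^ 2 ≤ (2 * h) ^ 2 := pow_le_pow_left₀ (abs_nonneg _) hq 2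
    rw [sq_abs] at h1
    linarith
  have hh2 : 0 < h ^ 2 := by positivity
  have hx : e ^ 2 * h ^ 2 ≤ h ^ 2 := mul_le_of_le_one_left hh2.le he2
  have h1 : 2 * q * (q * M - Zz) ≤ 4 * h * (e ^ 2 / 2048 * h * W) := by
    have h2 : 2 * q * (q * M - Zz) ≤ 2 * |q| * |Zz - q * M| := by
      have h3 := le_abs_self (2 * q * (q * M - Zz))
      rw [abs_mul, abs_mul, abs_two, abs_sub_comm] at h3
      exact h3
    have h4 : 2 * |q| * |Zz - q * M| ≤ 4 * h * (e ^ 2 / 2048 * h * W) :=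
      mul_le_mul (by linarith) hLI (abs_nonneg _) (by positivity)
    linarith
  have h5 : q ^ 2 * (W - M) ≤ 4 * h ^ 2 * (e ^ 2 / 1024 * W) := by
    have h6 : W - M ≤ e ^ 2 / 1024 * W := by linarith [(abs_le.1 hMW).1]
    have h7 : 0 ≤ e ^ 2 / 1024 * W := by positivity
    calc q ^ 2 * (W - M) ≤ q ^ 2 * (e ^ 2 / 1024 * W) := mul_le_mul_of_nonneg_left h6 (sq_nonneg q)
      _ ≤ 4 * h ^ 2 * (e ^ 2 / 1024 * W) := mul_le_mul_of_nonneg_right hq4 h7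
  have h8 : (Q ^ 2 + η * Q ^ 2 + C * h + e ^ 2 / 1024 * h ^ 2) * W ≤
      (q ^ 2 + 5 * h * (e ^ 2 / 2048 * h) + e ^ 2 / 4096 * (9 * h ^ 2) + e ^ 2 / 256 * h ^ 2 + e ^ 2 / 1024 * h ^ 2) * W := by
    apply mul_le_mul_of_nonneg_right _ hW0
    have h9 : Q ^ 2 ≤ 9 * h ^ 2 := by
      have : 5 * h * (e ^ 2 / 2048 * h) = 5 / 2048 * (e ^ 2 * h ^ 2) := by ring
      linarith
    have h10 : η * Q ^ 2 ≤ e ^ 2 / 4096 * (9 * h ^ 2) := by
      rw [hη]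
      exact mul_le_mul_of_nonneg_left h9 (by positivity)
    linarith
  have h11 : 0 ≤ e ^ 2 * h ^ 2 * W := by positivity
  have e1 : 4 * h * (e ^ 2 / 2048 * h * W) = 1 / 512 * (e ^ 2 * h ^ 2 * W) := by ring
  have e2 : 4 * h ^ 2 * (e ^ 2 / 1024 * W) = 1 / 256 * (e ^ 2 * h ^ 2 * W) := by ring
  have e3 : (q ^ 2 + 5 * h * (e ^ 2 / 2048 * h) + e ^ 2 / 4096 * (9 * h ^ 2) + e ^ 2 / 256 * h ^ 2 + e ^ 2 / 1024 * h ^ 2) * W =
      q ^ 2 * W + (5 / 2048 + 9 / 4096 + 1 / 256 + 1 / 1024) * (e ^ 2 * h ^ 2 * W) := by ring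
  have e4 : Z2 - 2 * q * Zz + q ^ 2 * M = Z2 + 2 * q * (q * M - Zz) - q ^ 2 * W - q ^ 2 * M + q ^ 2 * W := by ring
  have e5 : e ^ 2 / 32 * h ^ 2 * W = 1 / 32 * (e ^ 2 * h ^ 2 * W) := by ring
  have e6 : q ^ 2 * (W - M) = q ^ 2 * W - q ^ 2 * M := by ring
  rw [e1] at h1
  rw [e2, e6] at h5
  rw [e3] at h8
  rw [e4, e5]
  linarith

lemma ar8 {e h z q r : ℝ} (he0 : 0 < e) (hh : 0 < h) (hz : |z| ≤ r) :
    |z - q| ≤ e / 8 * h + 2 / (e * h) * (r ^ 2 - 2 * q * z + q ^ 2) := by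
  obtain ⟨y, hy⟩ : ∃ y, y = |z - q| := ⟨_, rfl⟩
  have h0 : y ^ 2 ≤ r ^ 2 - 2 * q * z + q ^ 2 := by
    have h1 : |z| ^ 2 ≤ r ^ 2 := pow_le_pow_left₀ (abs_nonneg _) hz 2
    rw [sq_abs] at h1
    rw [hy, sq_abs]
    have : (z - q) ^ 2 = z ^ 2 - 2 * q * z + q ^ 2 := by ring
    linarith
  obtain ⟨k, hk⟩ : ∃ k, k = e * h := ⟨_, rfl⟩
  have hk0 : 0 < k := by rw [hk]; positivity
  have h4 : 0 ≤ 2 / k * (y - k / 4) ^ 2 := by positivity
  have h5 : 2 / k * (y - k / 4) ^ 2 = 2 / k * y ^ 2 - y * (k * (1 / k)) + k / 8 * (k * (1 / k)) := by ring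
  rw [mul_one_div_cancel hk0.ne', mul_one, mul_one] at h5
  have h6 : 2 / k * y ^ 2 ≤ 2 / k * (r ^ 2 - 2 * q * z + q ^ 2) := mul_le_mul_of_nonneg_left h0 (by positivity)
  rw [← hy, ← hk]
  have h7 : e / 8 * h = k / 8 := by rw [hk]; ring
  linarith

/-- **law of large numbers** -/
theorem lln {e₀ : ℝ} (he₀ : 0 < e₀) : ∃ H₀ : ℝ, 1 ≤ H₀ ∧ ∀ H : ℝ, H₀ ≤ H → ∃ θ : ℝ, 0 < θ ∧ θ ≤ 1 / 40 ∧ ∀ᶠ T : ℝ in atTop,
    ∀ N : ℕ, (N : ℝ) ≤ T ^ θ → ∀ b : ℕ → ℂ,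
      ∫ t in (T + 2 * Real.log T)..(2 * T - 2 * Real.log T), |Nw T (H / Real.log T) t - H / Real.pi| * ‖dp N b t‖ ^ 2 ≤
        e₀ * (H / Real.pi) * (T * N2 N b) := by
  obtain ⟨e, he⟩ : ∃ e, e = min e₀ 1 := ⟨_, rfl⟩
  have he0 : 0 < e := by rw [he]; positivity
  have he1 : e ≤ 1 := by rw [he]; exact min_le_right _ _
  have hee : e ≤ e₀ := by rw [he]; exact min_le_left _ _
  obtain ⟨lam, g, R, hl0, hl1, hg, hR, hK, -⟩ := Pool.Agent.Q222.UM.t_MTW 1 one_pos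
  obtain ⟨C₀, hC₀, hLI⟩ := b_LIN
  obtain ⟨C₁, hC₁, hZU⟩ := b_ZU
  obtain ⟨ϑ, c₀, C', hϑ0, hϑ1, hc₀, hC', hTB⟩ := b_TAIL
  obtain ⟨C₂, hC₂, hEDB⟩ := b_ED ϑ c₀ C' hϑ0 hϑ1 hc₀ hC' hTB
  obtain ⟨c, hc⟩ : ∃ c, c = min (c₀ / 4) 1 := ⟨_, rfl⟩
  have hc0 : 0 < c := by rw [hc]; positivity
  have hEDB' : EDB (ϑ / 2) c C₂ := EDB_mono hC₂ (by rw [hc]; exact min_le_left _ _) hEDB
  obtain ⟨K₀, hER⟩ := b_ERR (ϑ / 2) c C₂ (by positivity) (by linarith) hc0 (by rw [hc]; exact min_le_right _ _) hC₂ hEDB'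
  obtain ⟨K, hKd⟩ : ∃ K, K = max K₀ 2 := ⟨_, rfl⟩
  have hK2 : 2 ≤ K := by rw [hKd]; exact le_max_right _ _
  have hKK : K₀ ≤ K := by rw [hKd]; exact le_max_left _ _
  obtain ⟨δ, hδ⟩ : ∃ δ, δ = min (c / 100) (1 / 16) := ⟨_, rfl⟩
  have hδ0 : 0 < δ := by rw [hδ]; positivity
  have hδ1 : δ ≤ c / 100 := by rw [hδ]; exact min_le_left _ _
  have hδ2 : δ ≤ 1 / 16 := by rw [hδ]; exact min_le_right _ _
  obtain ⟨C₄, hC₄, hER⟩ := hER K hKK δ hδ0 hδ1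
  obtain ⟨Cw, hCw, hOM⟩ := Pool.Agent.Q247.UM.t_OMEX K δ hδ0 (by linarith)
  have hpi := Real.pi_pos
  obtain ⟨η, hη⟩ : ∃ η, η = e ^ 2 / 4096 := ⟨_, rfl⟩
  have hη0 : 0 < η := by rw [hη]; positivity
  have he2 : e ^ 2 ≤ 1 := pow_le_one₀ he0.le he1
  have hη1 : η ≤ 1 := by rw [hη]; linarith
  -- the threshold
  obtain ⟨h₀, hh₀⟩ : ∃ h₀ : ℝ, h₀ = 64 / e * Cw ^ 2 + 1600 / e * (Cw ^ 2 * C₄) + 8 * Cw ^ 4 + 512 * C₁ / (η * e ^ 2) +
    2 * (4096 * C₀ / e ^ 2) ^ 2 := ⟨_, rfl⟩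
  have hh00 : 0 ≤ h₀ := by rw [hh₀]; positivity
  refine ⟨1 + Real.pi * h₀, by nlinarith, fun H hH => ?_⟩
  have hH1 : 1 ≤ H := by nlinarith [mul_nonneg hpi.le hh00]
  obtain ⟨w, hw⟩ := hOM H hH1
  obtain ⟨hqlip, hqe, hqs, -, hq0, hI2⟩ := Pool.Agent.Q176.UM.t_QH δ H Cw K w hδ0 (by linarith) hH1 hCw hK2 hw
  obtain ⟨D, hD1, hQL⟩ := Pool.Agent.Q247.UM.t_QLF δ w hδ0 (by linarith) hqlip hqe hqs
  obtain ⟨h, hh⟩ : ∃ h, h = H / Real.pi := ⟨_, rfl⟩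
  have hhH : H = h * Real.pi := by rw [hh]; field_simp
  have hhh : h₀ ≤ h := by
    rw [hh, le_div_iff₀ hpi]
    nlinarith
  have hh0 : 0 < h := by rw [hh]; positivity
  have hq0' : |qh w 0 - h| ≤ 4 * Cw ^ 2 / 3 := by
    have e1 : Real.pi * qh w 0 - H = Real.pi * (qh w 0 - h) := by rw [hhH]; ring
    rw [e1, abs_mul, abs_of_pos hpi] at hq0
    have := Real.pi_gt_three
    have h2 := abs_nonneg (qh w 0 - h)
    nlinarith
  have hI2' : |I2 w - h| ≤ 4 * Cw ^ 4 / 3 := by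
    have e1 : Real.pi * I2 w - H = Real.pi * (I2 w - h) := by rw [hhH]; ring
    rw [e1, abs_mul, abs_of_pos hpi] at hI2
    have := Real.pi_gt_three
    have h2 := abs_nonneg (I2 w - h)
    nlinarith
  have hCw2 : 0 < Cw ^ 2 := by positivity
  have hCw4 : 0 < Cw ^ 4 := by positivity
  -- consequences of `h₀ ≤ h`
  have p1 : 0 ≤ 64 / e * Cw ^ 2 := by positivity
  have p2 : 0 ≤ 1600 / e * (Cw ^ 2 * C₄) := by positivity
  have p3 : 0 ≤ 8 * Cw ^ 4 := by positivity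
  have p4 : 0 ≤ 512 * C₁ / (η * e ^ 2) := by positivity
  have p5 : 0 ≤ 2 * (4096 * C₀ / e ^ 2) ^ 2 := by positivity
  have f1 : 4 * Cw ^ 2 / 3 ≤ e / 16 * h := ar1 he0 (by linarith) hCw2.le
  have f2 : 100 * Cw ^ 2 * C₄ ≤ e / 16 * h := by
    rw [mul_assoc]
    exact ar2 he0 (by linarith)
  have f3 : 4 * Cw ^ 4 / 3 ≤ h := by linarith
  have f4 : 2 * C₁ / η * h ≤ e ^ 2 / 256 * h ^ 2 := ar4 he0 hη0 hh0.le (by linarith)
  have f5 : C₀ * Real.sqrt (2 * h) ≤ e ^ 2 / 4096 * h := ar5 he0 (by linarith) hh0.le (by linarith)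
  have hq2 : |qh w 0| ≤ 2 * h := by
    have h1 := abs_le.1 hq0'
    have h2 : e / 16 * h ≤ h := mul_le_of_le_one_left hh0.le (by linarith)
    rw [abs_le]
    constructor <;> linarith [h1.1, h1.2]
  have hI2up : I2 w ≤ 2 * h := by linarith [(abs_le.1 hI2').2]
  have hI20 : 0 ≤ I2 w := by linarith [(abs_le.1 hI2').1]
  obtain ⟨θ, hθ⟩ : ∃ θ, θ = min (ϑ / 2) (1 / 40) := ⟨_, rfl⟩
  have hθ0 : 0 < θ := by rw [hθ]; positivity
  have hθ1 : θ ≤ ϑ / 2 := by rw [hθ]; exact min_le_left _ _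
  have hθ2 : θ ≤ 1 / 40 := by rw [hθ]; exact min_le_right _ _
  refine ⟨θ, hθ0, hθ2, ?_⟩
  have hsθ : Real.sqrt θ ≤ 1 / 2 := by
    rw [Real.sqrt_le_left (by norm_num)]
    linarith
  have hsθ0 : 0 ≤ Real.sqrt θ := Real.sqrt_nonneg _
  have hδθ : δ + Real.sqrt θ ≤ 1 := by linarith
  have eZU := hZU δ H Cw K w θ (e ^ 2 / 1024 * h ^ 2) η hδ0 hδ2 hH1 hCw hK2 hw hθ0 hθ2 (by positivity) hη0 hη1
  have eLI := hLI δ H Cw K w θ (e ^ 2 / 4096 * h) hδ0 hδ2 hH1 hCw hK2 hw hθ0 hθ2 (by positivity)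
  have eDE := b_DET g R lam hg hR hK hl0 hl1.le δ H Cw K w hδ0 (by linarith) hH1 hCw hK2 hw
  have eER := hER H hH1
  have eMA := mass_short Pool.Agent.Q222.UM.t_MV2 (e ^ 2 / 1024) (by positivity)
  have eLL : ∀ᶠ T : ℝ in atTop, max 1 (D / (e ^ 2 / 2048 * h)) ≤ Real.log T := Real.tendsto_log_atTop.eventually_ge_atTop _
  filter_upwards [eZU, eLI, eDE, eER, eMA, eventually_ge_atTop (16 : ℝ), eLL] with T eZU eLI eDE eER eMA hT16 eLL N hN b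
  have hT0 : 0 < T := by linarith
  have hT1 : 1 ≤ T := by linarith
  have hNϑ : (N : ℝ) ≤ T ^ (ϑ / 2) := hN.trans (Real.rpow_le_rpow_of_exponent_le hT1 hθ1)
  have hN40 : (N : ℝ) ≤ T ^ (1 / 40 : ℝ) := hN.trans (Real.rpow_le_rpow_of_exponent_le hT1 hθ2)
  have hLL1 : 1 ≤ Real.log T := (le_max_left _ _).trans eLL
  have hLL0 : 0 < Real.log T := by linarith
  have hLL2 : D / Real.log T ≤ e ^ 2 / 2048 * h := by
    have h1 : D / (e ^ 2 / 2048 * h) ≤ Real.log T := (le_max_right _ _).trans eLL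
    rw [div_le_iff₀ (by positivity)] at h1 ⊢
    linarith
  replace eZU := eZU N hN b 0 le_rfl (mul_nonneg (by linarith) hLL0.le)
  replace eLI := eLI N hN b
  replace eER := eER N hNϑ b
  replace eMA := eMA N hN40 b
  obtain ⟨-, -, -, -, -, -, -, hQ0⟩ := hQL (Real.log T) hLL1
  rw [if_neg (by nlinarith : ¬ 3 * δ * Real.log T ≤ 0)] at eZU
  have hL4 : 4 * Real.log T ≤ T := by
    have h5 := Real.log_le_sub_one_of_pos (show (0 : ℝ) < T / 16 by positivity)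
    rw [Real.log_div (by positivity) (by norm_num)] at h5
    have h6 : Real.log 16 ≤ 3 := by
      have : Real.log 16 = 4 * Real.log 2 := by
        rw [show (16 : ℝ) = 2 ^ 4 by norm_num, Real.log_pow]; norm_num
      rw [this]; have := Real.log_two_lt_d9; linarith
    linarith
  have hxy : T + 2 * Real.log T ≤ 2 * T - 2 * Real.log T := by linarith
  have hVc : Continuous (fun t : ℝ => ‖dp N b t‖ ^ 2) := ((dp_cont' N b).norm).pow 2
  have hZ0 : Continuous (fun t : ℝ => Zt w T 0 t) := by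
    have h1 := (Zt_cont hw hδ0 T 0).comp (continuous_const.prodMk continuous_id : Continuous fun t : ℝ => ((0 : ℝ), t))
    have e : (fun t : ℝ => Zt w T 0 t) = (fun p : ℝ × ℝ => Zt w T (0 * p.1) p.2) ∘ (fun t : ℝ => ((0 : ℝ), t)) := by
      funext t
      simp
    rw [e]
    exact h1
  obtain ⟨q, hqd⟩ : ∃ q, q = qh w 0 := ⟨_, rfl⟩
  rw [← hqd] at hq0' hq2 hQ0 eLI
  set X := T + 2 * Real.log T with hX
  set Y := 2 * T - 2 * Real.log T with hY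
  obtain ⟨mN, B1, bN⟩ := Nw_meas T (H / Real.log T)
  obtain ⟨mE, ⟨B4, bE⟩, hE0⟩ := ErrS_meas (δ := δ) hH1 K T
  set M := ∫ t in X..Y, ‖dp N b t‖ ^ 2 with hM
  set E := ∫ t in X..Y, ErrS δ H K T t * ‖dp N b t‖ ^ 2 with hE
  set Z2 := ∫ t in X..Y, ‖Zt w T 0 t‖ ^ 2 * ‖dp N b t‖ ^ 2 with hZ2
  set Zz := ∫ t in X..Y, (Zt w T 0 t).re * ‖dp N b t‖ ^ 2 with hZz
  obtain ⟨W, hW⟩ : ∃ W, W = T * N2 N b := ⟨_, rfl⟩
  have hW0 : 0 ≤ W := by rw [hW]; exact mul_nonneg hT0.le (N2_nonneg N b)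
  have iM : IntervalIntegrable (fun t => ‖dp N b t‖ ^ 2) volume X Y := hVc.intervalIntegrable _ _
  have iE : IntervalIntegrable (fun t => ErrS δ H K T t * ‖dp N b t‖ ^ 2) volume X Y := ii_mul mE bE hVc X Y
  have iZ2 : IntervalIntegrable (fun t => ‖Zt w T 0 t‖ ^ 2 * ‖dp N b t‖ ^ 2) volume X Y :=
    ((hZ0.norm.pow 2).mul hVc).intervalIntegrable _ _
  have iZz : IntervalIntegrable (fun t => (Zt w T 0 t).re * ‖dp N b t‖ ^ 2) volume X Y :=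
    ((Complex.continuous_re.comp hZ0).mul hVc).intervalIntegrable _ _
  have iN : IntervalIntegrable (fun t => |Nw T (H / Real.log T) t - h| * ‖dp N b t‖ ^ 2) volume X Y :=
    ii_mul ((mN.sub_const h).abs) (fun t => by
      rw [abs_abs]
      exact (abs_sub _ _).trans (add_le_add (bN t) le_rfl)) hVc X Y
  have hZl : ∫ t in X..Y, ((Zt w T 0 t).re - q) * ‖dp N b t‖ ^ 2 = Zz - q * M := by
    rw [hZz, hM, ← intervalIntegral.integral_const_mul, ← intervalIntegral.integral_sub iZz (iM.const_mul q)]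
    refine intervalIntegral.integral_congr fun t _ => ?_
    ring
  rw [hZl] at eLI
  have eMA' : |M - W| ≤ e ^ 2 / 1024 * W := by rw [hW]; exact eMA
  have hMW := abs_le.1 eMA'
  have hM2 : M ≤ 2 * W := by
    have : e ^ 2 / 1024 * W ≤ W := mul_le_of_le_one_left hW0 (by linarith)
    linarith [hMW.2]
  have hM0 : 0 ≤ M := by
    rw [hM]
    exact intervalIntegral.integral_nonneg hxy fun t _ => by positivity
  -- the second moment
  have hZ2W : Z2 ≤ (QL w (Real.log T) 0 ^ 2 + η * QL w (Real.log T) 0 ^ 2 + 2 * C₁ / η * h + e ^ 2 / 1024 * h ^ 2) * W := by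
    have h1 := (abs_le.1 eZU).2
    rw [zero_div, zero_mul, add_zero] at h1
    have h2 : C₁ / η * (δ + Real.sqrt θ) * I2 w ≤ 2 * C₁ / η * h := by
      calc C₁ / η * (δ + Real.sqrt θ) * I2 w ≤ C₁ / η * 1 * (2 * h) := by gcongr
        _ = _ := by ring
    have h3 : (η * QL w (Real.log T) 0 ^ 2 + C₁ / η * (δ + Real.sqrt θ) * I2 w + e ^ 2 / 1024 * h ^ 2) * T * N2 N b ≤
        (η * QL w (Real.log T) 0 ^ 2 + 2 * C₁ / η * h + e ^ 2 / 1024 * h ^ 2) * W := by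
      rw [hW, mul_assoc _ T]
      exact mul_le_mul_of_nonneg_right (by linarith) (by rw [← hW]; exact hW0)
    have h4 : QL w (Real.log T) 0 ^ 2 * T * N2 N b = QL w (Real.log T) 0 ^ 2 * W := by rw [hW]; ring
    rw [h4] at h1
    linarith
  have hQq : QL w (Real.log T) 0 ^ 2 ≤ q ^ 2 + 5 * h * (e ^ 2 / 2048 * h) := ar6 he0 he1 hh0.le hq2 hQ0 hLL2
  have hLI' : |Zz - q * M| ≤ e ^ 2 / 2048 * h * W := by
    refine eLI.trans ?_
    have h1 : Real.sqrt ((δ + Real.sqrt θ) * I2 w) ≤ Real.sqrt (2 * h) := by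
      apply Real.sqrt_le_sqrt
      calc (δ + Real.sqrt θ) * I2 w ≤ 1 * (2 * h) := by gcongr
        _ = 2 * h := one_mul _
    have h2 : C₀ * Real.sqrt ((δ + Real.sqrt θ) * I2 w) ≤ e ^ 2 / 4096 * h :=
      (mul_le_mul_of_nonneg_left h1 (by linarith)).trans f5
    rw [mul_assoc _ T, ← hW]
    apply mul_le_mul_of_nonneg_right _ hW0
    linarith
  have hV : Z2 - 2 * q * Zz + q ^ 2 * M ≤ e ^ 2 / 32 * h ^ 2 * W :=
    ar7 he0 he1 hh0 hW0 hq2 hη hQq f4 hZ2W eMA' hLI'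
  -- the pointwise bound
  have hκ0 : 0 < e / 4 * h := by positivity
  have hpt : ∀ t ∈ Set.Icc X Y, |Nw T (H / Real.log T) t - h| * ‖dp N b t‖ ^ 2 ≤
      100 * Cw ^ 2 * (ErrS δ H K T t * ‖dp N b t‖ ^ 2) + (e / 8 * h + e / 16 * h) * ‖dp N b t‖ ^ 2 +
        2 / (e * h) * (‖Zt w T 0 t‖ ^ 2 * ‖dp N b t‖ ^ 2 - 2 * q * ((Zt w T 0 t).re * ‖dp N b t‖ ^ 2) + q ^ 2 * ‖dp N b t‖ ^ 2) := by
    intro t ht
    have h1 := (eDE t ht.1 ht.2).2.2
    have h2 : |Nw T (H / Real.log T) t - h| ≤ 100 * Cw ^ 2 * ErrS δ H K T t + |(Zt w T 0 t).re - q| + e / 16 * h := by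
      have e1 : Nw T (H / Real.log T) t - h = (Nw T (H / Real.log T) t - (Zt w T 0 t).re) + ((Zt w T 0 t).re - q) + (q - h) := by ring
      rw [e1]
      refine (abs_add_le _ _).trans (add_le_add ((abs_add_le _ _).trans (add_le_add h1 le_rfl)) (hq0'.trans f1))
    have h3 := ar8 (q := q) he0 hh0 (Complex.abs_re_le_norm (Zt w T 0 t))
    have h9 : |Nw T (H / Real.log T) t - h| ≤ 100 * Cw ^ 2 * ErrS δ H K T t + (e / 8 * h + e / 16 * h) +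
        2 / (e * h) * (‖Zt w T 0 t‖ ^ 2 - 2 * q * (Zt w T 0 t).re + q ^ 2) := by linarith
    refine (mul_le_mul_of_nonneg_right h9 (by positivity)).trans (le_of_eq ?_)
    ring
  have iR : IntervalIntegrable (fun t => 100 * Cw ^ 2 * (ErrS δ H K T t * ‖dp N b t‖ ^ 2) + (e / 8 * h + e / 16 * h) * ‖dp N b t‖ ^ 2 +
        2 / (e * h) * (‖Zt w T 0 t‖ ^ 2 * ‖dp N b t‖ ^ 2 - 2 * q * ((Zt w T 0 t).re * ‖dp N b t‖ ^ 2) + q ^ 2 * ‖dp N b t‖ ^ 2))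
        volume X Y :=
    ((iE.const_mul _).add (iM.const_mul _)).add (((iZ2.sub (iZz.const_mul _)).add (iM.const_mul _)).const_mul _)
  have hint := intervalIntegral.integral_mono_on hxy iN iR hpt
  have hcomp : ∫ t in X..Y, (100 * Cw ^ 2 * (ErrS δ H K T t * ‖dp N b t‖ ^ 2) + (e / 8 * h + e / 16 * h) * ‖dp N b t‖ ^ 2 +
        2 / (e * h) * (‖Zt w T 0 t‖ ^ 2 * ‖dp N b t‖ ^ 2 - 2 * q * ((Zt w T 0 t).re * ‖dp N b t‖ ^ 2) + q ^ 2 * ‖dp N b t‖ ^ 2)) =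
      100 * Cw ^ 2 * E + (e / 8 * h + e / 16 * h) * M + 2 / (e * h) * (Z2 - 2 * q * Zz + q ^ 2 * M) := by
    rw [intervalIntegral.integral_add ((iE.const_mul _).add (iM.const_mul _))
        (((iZ2.sub (iZz.const_mul _)).add (iM.const_mul _)).const_mul _),
      intervalIntegral.integral_add (iE.const_mul _) (iM.const_mul _), intervalIntegral.integral_const_mul,
      intervalIntegral.integral_const_mul, intervalIntegral.integral_const_mul,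
      intervalIntegral.integral_add (iZ2.sub (iZz.const_mul _)) (iM.const_mul _),
      intervalIntegral.integral_sub iZ2 (iZz.const_mul _), intervalIntegral.integral_const_mul,
      intervalIntegral.integral_const_mul]
  rw [hcomp] at hint
  rw [← hh, ← hW]
  refine hint.trans ?_
  have g1 : 100 * Cw ^ 2 * E ≤ e / 16 * h * W := by
    have h1 : 100 * Cw ^ 2 * E ≤ 100 * Cw ^ 2 * (C₄ * T * N2 N b) := mul_le_mul_of_nonneg_left eER (by positivity)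
    have h2 : 100 * Cw ^ 2 * (C₄ * T * N2 N b) = 100 * Cw ^ 2 * C₄ * W := by rw [hW]; ring
    rw [h2] at h1
    exact h1.trans (mul_le_mul_of_nonneg_right f2 hW0)
  have g2 : (e / 8 * h + e / 16 * h) * M ≤ (e / 8 * h + e / 16 * h) * (2 * W) :=
    mul_le_mul_of_nonneg_left hM2 (by positivity)
  have g3 : 2 / (e * h) * (Z2 - 2 * q * Zz + q ^ 2 * M) ≤ e / 16 * h * W := by
    have h1 := mul_le_mul_of_nonneg_left hV (by positivity : 0 ≤ 2 / (e * h))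
    have h2 : 2 / (e * h) * (e ^ 2 / 32 * h ^ 2 * W) = e / 16 * h * W := by
      field_simp
      ring
    linarith
  have g4 : 0 ≤ e * h * W := by positivity
  have g5 : e * h * W ≤ e₀ * h * W := by gcongr
  nlinarith

end

end Pool.Agent.H4.SC
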