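import Pool.Graph.R_pool_sql_team_seeded_2aa45f1a.Q85.Mom.Rolle
import Pool.Graph.R_pool_sql_team_seeded_3997aac3.Q97.UM.Base8
import Pool.Agent.H4.SG.Sgn

set_option autoImplicit false

/-! The phase of `ζ(1/2+i(t+a)) conj ζ(1/2+i(t-a))`. -/

open Filter Topology MeasureTheory Complex

namespace Pool.Agent.H4.SC

open Pool.Agent.Q97.UM (zt)
open Pool.Agent.Q98.UM (ae_zt)
open Pool.Agent.Q85.Mom (ph HZ HZ_real lamE_near ph_der)
open Pool.Agent.Q32.Idx (Z Z_cont Z_real Z_zero_iff phase phase_cont phase_ne)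

noncomputable section

lemma phase_norm (t : ℝ) : ‖phase t‖ = 1 := by
  have h3 := Pool.Agent.Q32.Idx.phase_eq t
  have h4 : Gammaℝ (1 / 2 + t * I) ≠ 0 := by
    intro h
    rw [h] at h3
    simp only [norm_zero, Complex.ofReal_zero, div_zero] at h3
    exact phase_ne t h3
  rw [h3, norm_div, Complex.norm_real, norm_norm]
  exact div_self (norm_ne_zero_iff.2 h4)

lemma Z_zt (t : ℝ) : ((Z t : ℝ) : ℂ) = phase t * zt t := by
  rw [Z_real]
  unfold zt
  rw [mul_comm I]

lemma abs_Z (t : ℝ) : |Z t| = ‖zt t‖ := by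
  have h : ‖((Z t : ℝ) : ℂ)‖ = ‖phase t * zt t‖ := by rw [Z_zt]
  rw [norm_mul, phase_norm, one_mul, Complex.norm_real, Real.norm_eq_abs] at h
  exact h

lemma ph_cont : Continuous ph := continuous_iff_continuousAt.2 fun t => (ph_der t).continuousAt

/-- the phase of `z(x) conj z(y)` -/
theorem ZZ_eq {x y : ℝ} (hx : 100 < x) (hy : 100 < y) :
    zt x * (starRingEnd ℂ) (zt y) = cexp (((ph y - ph x : ℝ) : ℂ) * I) * ((Z x * Z y : ℝ) : ℂ) := by
  obtain ⟨c₀, hc₀, hc₁⟩ := Pool.Agent.Q85.Mom.exists_root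
  have hc0 : c₀ ≠ 0 := by
    intro h
    rw [h, norm_zero] at hc₁
    norm_num at hc₁
  obtain ⟨D, hD⟩ : ∃ D : ℝ → ℂ, D = fun t => c₀ * cexp (ph t * I) := ⟨_, rfl⟩
  have hDn : ∀ t, ‖D t‖ = 1 := by
    intro t
    rw [hD]
    simp only
    rw [norm_mul, hc₁, one_mul, Complex.norm_exp_ofReal_mul_I]
  have hD0 : ∀ t, D t ≠ 0 := fun t h => by
    have := hDn t
    rw [h, norm_zero] at this
    norm_num at this
  have hDc : Continuous D := by
    rw [hD]
    exact continuous_const.mul (((Complex.continuous_ofReal.comp ph_cont).mul continuous_const).cexp)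
  have hHZ : ∀ t, HZ c₀ t = D t * zt t := by
    intro t
    rw [hD]
    unfold HZ Pool.Agent.Q85.Mom.z zt
    ring
  obtain ⟨S, hS⟩ : ∃ S : ℝ → ℂ, S = fun t => phase t * (D t)⁻¹ := ⟨_, rfl⟩
  have hSc : Continuous S := by
    rw [hS]
    exact phase_cont.mul (hDc.inv₀ hD0)
  have hsq0 : ∀ t, 100 < t → zt t ≠ 0 → S t ^ 2 = 1 := by
    intro t ht hz
    have h1 := (Complex.conj_eq_iff_re.1 (HZ_real hc₀ hc₁ ht.le)).symm
    rw [hHZ] at h1
    have h2 : |(D t * zt t).re| = ‖zt t‖ := by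
      have h3 : ‖D t * zt t‖ = ‖(((D t * zt t).re : ℝ) : ℂ)‖ := congrArg norm h1
      rw [norm_mul, hDn, one_mul, Complex.norm_real, Real.norm_eq_abs] at h3
      exact h3.symm
    have h4 : Z t ^ 2 = (D t * zt t).re ^ 2 := by
      rw [← sq_abs, abs_Z, ← h2, sq_abs]
    have h5 : (phase t * zt t) ^ 2 = (D t * zt t) ^ 2 := by
      rw [← Z_zt, h1, ← Complex.ofReal_pow, ← Complex.ofReal_pow, h4]
    have h6 : phase t ^ 2 = D t ^ 2 := by
      rw [mul_pow, mul_pow] at h5
      exact mul_right_cancel₀ (pow_ne_zero 2 hz) h5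
    rw [hS]
    simp only
    rw [mul_pow, h6, ← mul_pow, mul_inv_cancel₀ (hD0 t), one_pow]
  have hU : {t : ℝ | 100 < t ∧ S t ^ 2 ≠ 1} = ∅ := by
    have h1 : IsOpen {t : ℝ | 100 < t ∧ S t ^ 2 ≠ 1} :=
      (isOpen_lt continuous_const continuous_id).inter (isOpen_ne_fun (hSc.pow 2) continuous_const)
    refine h1.eq_empty_of_measure_zero (μ := volume) ?_
    have h2 : volume {t : ℝ | ¬ zt (t + 0) ≠ 0} = 0 := ae_iff.1 (ae_zt 0)
    refine measure_mono_null ?_ h2
    intro t ht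
    rw [Set.mem_setOf_eq] at ht ⊢
    intro h
    rw [add_zero] at h
    exact ht.2 (hsq0 t ht.1 h)
  have hsq : ∀ t, 100 < t → S t ^ 2 = 1 := by
    intro t ht
    by_contra h
    have : t ∈ {t : ℝ | 100 < t ∧ S t ^ 2 ≠ 1} := ⟨ht, h⟩
    rw [hU] at this
    exact this
  have hpre : Set.EqOn S 1 (Set.Ioi 100) ∨ Set.EqOn S (-1) (Set.Ioi 100) :=
    (isPreconnected_Ioi (a := (100 : ℝ))).eq_one_or_eq_neg_one_of_sq_eq hSc.continuousOn (fun t ht => by
      rw [Pi.pow_apply, Pi.one_apply]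
      exact hsq t ht)
  have hSS : S x * (starRingEnd ℂ) (S y) = 1 := by
    rcases hpre with h | h
    · rw [h hx, h hy]
      simp
    · rw [h hx, h hy]
      simp
  have hph : ∀ t, phase t = S t * D t := by
    intro t
    rw [hS]
    simp only
    rw [mul_assoc, inv_mul_cancel₀ (hD0 t), mul_one]
  have hZy : ((Z y : ℝ) : ℂ) = (starRingEnd ℂ) (phase y * zt y) := by
    rw [← Z_zt, Complex.conj_ofReal]
  have hcc : c₀ * (starRingEnd ℂ) c₀ = 1 := by
    rw [Complex.mul_conj, Complex.normSq_eq_norm_sq, hc₁]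
    simp
  have hDD : D x * (starRingEnd ℂ) (D y) = cexp (((ph x - ph y : ℝ) : ℂ) * I) := by
    rw [hD]
    simp only
    rw [map_mul, ← Complex.exp_conj]
    have e1 : (starRingEnd ℂ) ((ph y : ℂ) * I) = -(ph y * I) := by simp
    rw [e1]
    have e2 : cexp (((ph x - ph y : ℝ) : ℂ) * I) = cexp (ph x * I) * cexp (-(ph y * I)) := by
      rw [← Complex.exp_add]
      congr 1
      push_cast
      ring
    rw [e2]
    linear_combination (cexp (ph x * I) * cexp (-(ph y * I))) * hcc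
  have h1 : ((Z x * Z y : ℝ) : ℂ) = cexp (((ph x - ph y : ℝ) : ℂ) * I) * (zt x * (starRingEnd ℂ) (zt y)) := by
    rw [Complex.ofReal_mul, Z_zt x, hZy, hph x, hph y, map_mul, map_mul, ← hDD]
    linear_combination (D x * (starRingEnd ℂ) (D y) * (zt x * (starRingEnd ℂ) (zt y))) * hSS
  rw [h1, ← mul_assoc, ← Complex.exp_add]
  have e3 : (((ph y - ph x : ℝ) : ℂ) * I) + (((ph x - ph y : ℝ) : ℂ) * I) = 0 := by
    push_cast
    ring
  rw [e3, Complex.exp_zero, one_mul]

/-- the increment of the phase (the library's `PhaseOfShiftedMoments.ph_inc`) -/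
lemma ph_inc {T x y : ℝ} (hT : 100 ≤ T) (hx : T ≤ x) (hxy : x ≤ y) (hy : y ≤ 8 * T) :
    |ph y - ph x - (y - x) * (Real.log T / 2)| ≤ 2 * (y - x) := by
  have h1 : ∀ t ∈ Set.Icc x y, HasDerivWithinAt (fun t => ph t - t * (Real.log T / 2))
      (Pool.Agent.W188.GP.lamE t / 2 - Real.log T / 2) (Set.Icc x y) t := by
    intro t _
    have h2 := (ph_der t).sub ((hasDerivAt_id t).mul_const (Real.log T / 2))
    simp only [id, one_mul] at h2
    exact h2.hasDerivWithinAt
  have h3 := (convex_Icc x y).norm_image_sub_le_of_norm_hasDerivWithin_le (C := 2) h1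
    (fun t ht => by
      rw [Real.norm_eq_abs]
      exact lamE_near hT (hx.trans ht.1) (ht.2.trans hy)) (Set.left_mem_Icc.2 hxy) (Set.right_mem_Icc.2 hxy)
  rw [Real.norm_eq_abs, Real.norm_eq_abs, abs_of_nonneg (by linarith : 0 ≤ y - x)] at h3
  have e : ph y - y * (Real.log T / 2) - (ph x - x * (Real.log T / 2)) =
      ph y - ph x - (y - x) * (Real.log T / 2) := by ring
  rwa [e] at h3

/-- the phase for the shift `a` -/
lemma ph_shift {T a t : ℝ} (hT : 400 ≤ T) (ha : 0 ≤ a) (ha1 : a ≤ 1) (h1 : T / 2 ≤ t) (h2 : t ≤ T) :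
    |ph (t - a) - ph (t + a) + a * Real.log T| ≤ 6 * a := by
  have h3 := ph_inc (T := T / 4) (x := t - a) (y := t + a) (by linarith) (by linarith) (by linarith) (by linarith)
  have h4 : Real.log (T / 4) = Real.log T - Real.log 4 := Real.log_div (by linarith) (by norm_num)
  have h5 : Real.log 4 ≤ 2 := by
    have : Real.log 4 = 2 * Real.log 2 := by
      rw [show (4 : ℝ) = 2 ^ 2 by norm_num, Real.log_pow]; norm_num
    rw [this]
    have := Real.log_two_lt_d9
    linarith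
  have h6 : 0 ≤ Real.log 4 := Real.log_nonneg (by norm_num)
  rw [h4] at h3
  have e : ph (t - a) - ph (t + a) + a * Real.log T =
      -(ph (t + a) - ph (t - a) - (t + a - (t - a)) * ((Real.log T - Real.log 4) / 2)) + a * Real.log 4 := by ring
  rw [e]
  refine (abs_add_le _ _).trans ?_
  rw [abs_neg, abs_of_nonneg (mul_nonneg ha h6)]
  have h7 : a * Real.log 4 ≤ a * 2 := mul_le_mul_of_nonneg_left h5 ha
  linarith

end

end Pool.Agent.H4.SC
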