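import Pool.Agent.H4.SC.Thk
import Pool.Agent.H4.SC.Lbt
import Pool.Agent.H4.SC.Pha

set_option autoImplicit false

/-! Moments over the sets where `Z(t+a)Z(t-a)` has a given sign. -/

open Filter Topology MeasureTheory Complex

namespace Pool.Agent.H4.SC

open Pool.Agent.Q97.UM
open Pool.Agent.Q98.UM (prime_lower ae_zt)
open Pool.Agent.Q32.Idx (Z Z_cont Z_real Z_zero_iff)
open Pool.Agent.H4.PX (w)

noncomputable section

/-- the prime sum -/
lemma prime_cos {δ B : ℝ} (hδ : 0 < δ) (hδ1 : δ ≤ 1) : ∃ C : ℝ, 0 ≤ C ∧ ∀ᶠ T : ℝ in atTop, ∀ a : ℝ, |a| * Real.log T ≤ B →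
    Real.log (Real.log T) - C ≤ ∑ p ∈ (Finset.Icc 1 ⌊T ^ δ⌋₊).filter Nat.Prime, Real.cos (a * Real.log p) ^ 2 / p := by
  obtain ⟨C₁, hC₁, h1⟩ := prime_lower Pool.Agent.Q149.UM.t_MZ hδ hδ1
  obtain ⟨C₂, h2⟩ := Pool.Agent.Erdos456.Mert.mertens_log
  have hC₂ : 0 ≤ C₂ := le_trans (abs_nonneg _) (h2 1 le_rfl)
  refine ⟨C₁ + B ^ 2 * (1 + C₂), by positivity, ?_⟩
  filter_upwards [h1, eventually_ge_atTop (1 : ℝ), Real.tendsto_log_atTop.eventually_ge_atTop 1] with T h1 hT hL a ha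
  have hT0 : 0 < T := by linarith
  obtain ⟨X, hX⟩ : ∃ X, X = ⌊T ^ δ⌋₊ := ⟨_, rfl⟩
  rw [← hX] at h1 ⊢
  have hX1 : 1 ≤ X := by
    rw [hX, Nat.one_le_floor_iff]
    exact Real.one_le_rpow hT hδ.le
  have hXr : (1 : ℝ) ≤ X := by exact_mod_cast hX1
  have hXT : Real.log X ≤ Real.log T := by
    have h3 : (X : ℝ) ≤ T ^ δ := by rw [hX]; exact Nat.floor_le (by positivity)
    have h4 : (X : ℝ) ≤ T := h3.trans (by
      calc T ^ δ ≤ T ^ (1 : ℝ) := Real.rpow_le_rpow_of_exponent_le hT hδ1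
        _ = T := Real.rpow_one T)
    exact Real.log_le_log (by linarith) h4
  have h3 : ∑ p ∈ (Finset.Icc 1 X).filter Nat.Prime, (1 : ℝ) / p - ∑ p ∈ (Finset.Icc 1 X).filter Nat.Prime, a ^ 2 * Real.log T * (Real.log p / p) ≤
      ∑ p ∈ (Finset.Icc 1 X).filter Nat.Prime, Real.cos (a * Real.log p) ^ 2 / p := by
    rw [← Finset.sum_sub_distrib]
    refine Finset.sum_le_sum fun p hp => ?_
    rw [Finset.mem_filter, Finset.mem_Icc] at hp
    have hp1 : (1 : ℝ) ≤ p := by exact_mod_cast hp.1.1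
    have hp0 : 0 ≤ Real.log p := Real.log_nonneg hp1
    have hpX : Real.log p ≤ Real.log T := (Real.log_le_log (by linarith) (by exact_mod_cast hp.1.2)).trans hXT
    have h4 : 1 - (a * Real.log p) ^ 2 ≤ Real.cos (a * Real.log p) ^ 2 := by
      rw [Real.cos_sq']
      have h5 := Real.abs_sin_le_abs (x := a * Real.log p)
      have h6 : Real.sin (a * Real.log p) ^ 2 ≤ (a * Real.log p) ^ 2 := sq_le_sq.2 h5
      linarith
    have h5 : (a * Real.log p) ^ 2 ≤ a ^ 2 * Real.log T * Real.log p := by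
      have h6 : (a * Real.log p) ^ 2 = a ^ 2 * Real.log p * Real.log p := by ring
      rw [h6]
      gcongr
    have h6 : 1 - a ^ 2 * Real.log T * Real.log p ≤ Real.cos (a * Real.log p) ^ 2 := by linarith
    have h7 := div_le_div_of_nonneg_right h6 (by linarith : (0 : ℝ) ≤ p)
    refine le_trans (le_of_eq ?_) h7
    ring
  have h4 : ∑ p ∈ (Finset.Icc 1 X).filter Nat.Prime, a ^ 2 * Real.log T * (Real.log p / p) ≤ B ^ 2 * (1 + C₂) := by
    rw [← Finset.mul_sum]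
    have h5 := (abs_le.1 (h2 X hX1)).2
    have h6 : ∑ p ∈ (Finset.Icc 1 X).filter Nat.Prime, Real.log p / p ≤ Real.log T + C₂ := by linarith
    have h7 : (|a| * Real.log T) ^ 2 ≤ B ^ 2 := pow_le_pow_left₀ (by positivity) ha 2
    rw [mul_pow, sq_abs] at h7
    calc a ^ 2 * Real.log T * ∑ p ∈ (Finset.Icc 1 X).filter Nat.Prime, Real.log p / p
        ≤ a ^ 2 * Real.log T * (Real.log T + C₂) := mul_le_mul_of_nonneg_left h6 (by positivity)
      _ ≤ a ^ 2 * Real.log T * (Real.log T + C₂ * Real.log T) := by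
          apply mul_le_mul_of_nonneg_left _ (by positivity)
          have := mul_le_mul_of_nonneg_left hL hC₂
          linarith
      _ = a ^ 2 * Real.log T ^ 2 * (1 + C₂) := by ring
      _ ≤ B ^ 2 * (1 + C₂) := mul_le_mul_of_nonneg_right h7 (by linarith)
  linarith

/-- the coefficients at the primes -/
lemma ap_two (p a : ℝ) {n : ℕ} (hn : 1 ≤ n) : ‖ap (fun _ : Fin 2 => p / 2) ![a, -a] n‖ ^ 2 = p ^ 2 * Real.cos (a * Real.log n) ^ 2 := by
  have hn0 : (n : ℂ) ≠ 0 := by exact_mod_cast (by omega : n ≠ 0)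
  have h1 : ap (fun _ : Fin 2 => p / 2) ![a, -a] n = ((p * Real.cos (a * Real.log n) : ℝ) : ℂ) := by
    unfold ap
    rw [Fin.sum_univ_two]
    simp only [Matrix.cons_val_zero, Matrix.cons_val_one]
    rw [Complex.cpow_def_of_ne_zero hn0, Complex.cpow_def_of_ne_zero hn0, Complex.natCast_log.symm]
    rw [Complex.ofReal_mul, Complex.ofReal_cos, Complex.cos]
    push_cast
    have e1 : Complex.log (n : ℂ) * (-(a * I)) = -(a * Complex.log n) * I := by ring
    have e2 : Complex.log (n : ℂ) * (-(-a * I)) = (a * Complex.log n) * I := by ring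
    rw [e1, e2]
    ring
  rw [h1, Complex.norm_real, Real.norm_eq_abs, sq_abs, mul_pow]

/-- **moments over the sign sets** -/
theorem mom {q α : ℝ} (hq : q = 1 ∨ q = 2) (h0 : 0 < α) (h1 : α < q * Real.pi) (p : ℝ) : ∃ c : ℝ, 0 < c ∧ ∀ᶠ T : ℝ in atTop,
    ∀ σ : ℝ, (σ = 1 ∨ σ = -1) → (q = 1 ∨ σ = -1) → ENNReal.ofReal (c * T * Real.log T ^ (p ^ 2)) ≤
      ∫⁻ t in {t : ℝ | T / 2 ≤ t ∧ t ≤ T ∧ 0 < σ * (Z (t + α / Real.log T) * Z (t - α / Real.log T))},
        ENNReal.ofReal (|Z (t + α / Real.log T) * Z (t - α / Real.log T)| ^ p) := by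
  obtain ⟨c₁, θ, hc₁, hθ, -, hth⟩ := thick hq (show 0 < α / 2 by positivity) (show α / 2 ≤ α by linarith) h1
  obtain ⟨δ, c₂, hδ, hδ1, hc₂, hlb⟩ := lbt (A := |p| + 1) (by have := abs_nonneg p; linarith) hc₁ hθ
  obtain ⟨C, hC, hpc⟩ := prime_cos (B := α) hδ (by linarith)
  have hhalf : Tendsto (fun T : ℝ => T / 2) atTop atTop := tendsto_id.atTop_div_const (by norm_num)
  refine ⟨c₂ / 2 * Real.exp (-(p ^ 2 * C)) * (1 / 2) ^ (p ^ 2), by positivity, ?_⟩
  filter_upwards [hhalf.eventually hth, hhalf.eventually hlb, hhalf.eventually hpc, eventually_ge_atTop (4 : ℝ),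
    Real.tendsto_log_atTop.eventually_ge_atTop (2 + 2 * α), hhalf.eventually (eventually_ge_atTop (2 : ℝ))] with T hth hlb hpc hT4 hL hT2 σ hσ hqσ
  have hT0 : 0 < T := by linarith
  obtain ⟨L, hLd⟩ : ∃ L, L = Real.log T := ⟨_, rfl⟩
  rw [← hLd] at hL ⊢
  have hL0 : 0 < L := by linarith
  have hL' : Real.log (T / 2) = L - Real.log 2 := by rw [hLd]; exact Real.log_div (by linarith) (by norm_num)
  have hl2 : 0 ≤ Real.log 2 ∧ Real.log 2 ≤ 1 := ⟨Real.log_nonneg (by norm_num), by have := Real.log_two_lt_d9; linarith⟩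
  have hL1 : L / 2 ≤ Real.log (T / 2) := by rw [hL']; linarith [hl2.2]
  have hL2 : Real.log (T / 2) ≤ L := by rw [hL']; linarith [hl2.1]
  have hL'0 : 0 < Real.log (T / 2) := by linarith
  obtain ⟨a, ha⟩ : ∃ a, a = α / L := ⟨_, rfl⟩
  rw [← ha]
  have haL : a * L = α := by rw [ha]; field_simp
  have ha0 : 0 < a := by rw [ha]; positivity
  have ha1 : a ≤ 1 := by
    rw [ha, div_le_one hL0]
    linarith
  have b1 : α / 2 ≤ a * Real.log (T / 2) := by
    have := mul_le_mul_of_nonneg_left hL1 ha0.le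
    linarith
  have b2 : a * Real.log (T / 2) ≤ α := by
    have := mul_le_mul_of_nonneg_left hL2 ha0.le
    linarith
  have hth' := hth a b1 b2 (-σ) (by
    rcases hqσ with h | h
    · exact Or.inl h
    · exact Or.inr (by rw [h]; norm_num))
  have e2T : 2 * (T / 2) = T := by ring
  rw [e2T] at hth' hlb
  have hlb' := hlb (uS (-σ) a) (uS_meas _ _) (uS_nonneg _ _) (uS_le _ _) (fun M hM b => hth' M hM b) 2 (fun _ => p / 2) ![a, -a]
    (by
      rw [Fin.sum_univ_two, abs_div, abs_two]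
      linarith) (by
      intro j
      have hj : |(![a, -a] : Fin 2 → ℝ) j| = a := by
        fin_cases j <;> simp [abs_of_pos ha0]
      rw [hj]
      linarith)
  have hpc' := hpc a (by rw [abs_of_pos ha0]; exact b2)
  -- the lower bound
  have hlow : c₂ / 2 * Real.exp (-(p ^ 2 * C)) * (1 / 2) ^ (p ^ 2) * T * L ^ (p ^ 2) ≤
      c₂ * (T / 2) * Real.exp (∑ n ∈ (Finset.Icc 1 ⌊(T / 2) ^ δ⌋₊).filter Nat.Prime, ‖ap (fun _ : Fin 2 => p / 2) ![a, -a] n‖ ^ 2 / n) := by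
    have e1 : ∑ n ∈ (Finset.Icc 1 ⌊(T / 2) ^ δ⌋₊).filter Nat.Prime, ‖ap (fun _ : Fin 2 => p / 2) ![a, -a] n‖ ^ 2 / n =
        p ^ 2 * ∑ n ∈ (Finset.Icc 1 ⌊(T / 2) ^ δ⌋₊).filter Nat.Prime, Real.cos (a * Real.log n) ^ 2 / n := by
      rw [Finset.mul_sum]
      refine Finset.sum_congr rfl fun n hn => ?_
      rw [Finset.mem_filter, Finset.mem_Icc] at hn
      rw [ap_two p a hn.1.1]
      ring
    rw [e1]
    have h2 : p ^ 2 * Real.log (Real.log (T / 2)) - p ^ 2 * C ≤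
        p ^ 2 * ∑ n ∈ (Finset.Icc 1 ⌊(T / 2) ^ δ⌋₊).filter Nat.Prime, Real.cos (a * Real.log n) ^ 2 / n := by
      have := mul_le_mul_of_nonneg_left hpc' (sq_nonneg p)
      linarith
    have h3 : (1 / 2) ^ (p ^ 2) * L ^ (p ^ 2) ≤ Real.exp (p ^ 2 * Real.log (Real.log (T / 2))) := by
      rw [← Real.mul_rpow (by norm_num) hL0.le]
      have h4 : Real.exp (p ^ 2 * Real.log (Real.log (T / 2))) = Real.log (T / 2) ^ (p ^ 2) := by
        rw [Real.rpow_def_of_pos hL'0, mul_comm]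
      rw [h4]
      exact Real.rpow_le_rpow (by positivity) (by linarith) (sq_nonneg p)
    calc c₂ / 2 * Real.exp (-(p ^ 2 * C)) * (1 / 2) ^ (p ^ 2) * T * L ^ (p ^ 2)
        = c₂ * (T / 2) * (((1 / 2) ^ (p ^ 2) * L ^ (p ^ 2)) * Real.exp (-(p ^ 2 * C))) := by ring
      _ ≤ c₂ * (T / 2) * (Real.exp (p ^ 2 * Real.log (Real.log (T / 2))) * Real.exp (-(p ^ 2 * C))) := by gcongr
      _ = c₂ * (T / 2) * Real.exp (p ^ 2 * Real.log (Real.log (T / 2)) - p ^ 2 * C) := by rw [← Real.exp_add]; rfl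
      _ ≤ _ := by gcongr
  refine (ENNReal.ofReal_le_ofReal hlow).trans (hlb'.trans ?_)
  -- the sets
  have hmeas : MeasurableSet {t : ℝ | T / 2 ≤ t ∧ t ≤ T ∧ 0 < σ * (Z (t + a) * Z (t - a))} := by
    have h1 : {t : ℝ | T / 2 ≤ t ∧ t ≤ T ∧ 0 < σ * (Z (t + a) * Z (t - a))} =
        Set.Icc (T / 2) T ∩ {t : ℝ | 0 < σ * (Z (t + a) * Z (t - a))} := by
      ext t
      exact ⟨fun h => ⟨⟨h.1, h.2.1⟩, h.2.2⟩, fun h => ⟨h.1.1, h.1.2, h.2⟩⟩
    rw [h1]
    exact measurableSet_Icc.inter (isOpen_S σ a).measurableSet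
  rw [← lintegral_indicator measurableSet_Icc, ← lintegral_indicator hmeas]
  refine lintegral_mono_ae ?_
  filter_upwards [ae_zt a, ae_zt (-a)] with t hz1 hz2
  by_cases ht : t ∈ Set.Icc (T / 2) T
  · rw [Set.indicator_of_mem ht]
    have hprod : ∏ j : Fin 2, ‖zt (t + ![a, -a] j)‖ ^ (2 * (p / 2)) = |Z (t + a) * Z (t - a)| ^ p := by
      rw [Fin.prod_univ_two]
      simp only [Matrix.cons_val_zero, Matrix.cons_val_one]
      have e3 : 2 * (p / 2) = p := by ring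
      rw [e3, ← Real.mul_rpow (norm_nonneg _) (norm_nonneg _), abs_mul, abs_Z, abs_Z, ← sub_eq_add_neg]
    rw [hprod]
    by_cases hs : 0 < σ * (Z (t + a) * Z (t - a))
    · rw [Set.indicator_of_mem (show t ∈ {t : ℝ | T / 2 ≤ t ∧ t ≤ T ∧ 0 < σ * (Z (t + a) * Z (t - a))} from ⟨ht.1, ht.2, hs⟩)]
      apply ENNReal.ofReal_le_ofReal
      exact mul_le_of_le_one_left (by positivity) (uS_le _ _ _)
    · have hne : Z (t + a) * Z (t - a) ≠ 0 := by
        apply mul_ne_zero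
        · intro h
          apply hz1
          rw [← norm_eq_zero, ← abs_Z, h, abs_zero]
        · intro h
          apply hz2
          rw [← norm_eq_zero, ← abs_Z, ← sub_eq_add_neg, h, abs_zero]
      have hlt : 0 < -σ * (Z (t + a) * Z (t - a)) := by
        have h2 : σ ≠ 0 := by rcases hσ with h | h <;> rw [h] <;> norm_num
        have h3 : σ * (Z (t + a) * Z (t - a)) ≠ 0 := mul_ne_zero h2 hne
        rw [not_lt] at hs
        rw [neg_mul]
        have := lt_of_le_of_ne hs h3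
        linarith
      have hu : uS (-σ) a t = 0 := by
        unfold uS
        rw [if_pos hlt]
      rw [hu, zero_mul, ENNReal.ofReal_zero]
      exact zero_le
  · rw [Set.indicator_of_notMem ht]
    exact zero_le

end

end Pool.Agent.H4.SC
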