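import Pool.Agent.H4.SC.Geo

set_option autoImplicit false

/-! The inequality for one isolated zero. -/

open Filter Topology MeasureTheory Complex

namespace Pool.Agent.H4.SC

open Pool.Agent.Q97.UM
open Pool.Agent.Q32.Idx (Z Z_cont Z_real Z_zero_iff same_sign local_sign mult)

noncomputable section

/-- the indicator of the complement of the set where `σ Z(t+a) Z(t-a) > 0` -/
def uS (σ a t : ℝ) : ℝ := by
  classical
  exact if 0 < σ * (Z (t + a) * Z (t - a)) then 0 else 1

lemma uS_nonneg (σ a t : ℝ) : 0 ≤ uS σ a t := by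
  unfold uS
  split_ifs <;> norm_num

lemma uS_le (σ a t : ℝ) : uS σ a t ≤ 1 := by
  unfold uS
  split_ifs <;> norm_num

lemma uS_or (σ a t : ℝ) : 0 < σ * (Z (t + a) * Z (t - a)) ∨ uS σ a t = 1 := by
  unfold uS
  split_ifs with h
  · exact Or.inl h
  · exact Or.inr rfl

lemma isOpen_S (σ a : ℝ) : IsOpen {t : ℝ | 0 < σ * (Z (t + a) * Z (t - a))} := by
  have h : Continuous fun t : ℝ => σ * (Z (t + a) * Z (t - a)) :=
    continuous_const.mul ((Z_cont.comp (continuous_id.add continuous_const)).mul (Z_cont.comp (continuous_id.sub continuous_const)))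
  exact isOpen_lt continuous_const h

lemma uS_meas (σ a : ℝ) : Measurable (uS σ a) := by
  classical
  unfold uS
  exact Measurable.ite (isOpen_S σ a).measurableSet measurable_const measurable_const

lemma uS_mul_ii (σ a : ℝ) {f : ℝ → ℝ} (hf : Continuous f) (x y : ℝ) :
    IntervalIntegrable (fun t => uS σ a t * f t) volume x y :=
  ii_mul (uS_meas σ a) (fun t => by rw [abs_of_nonneg (uS_nonneg σ a t)]; exact uS_le σ a t) hf x y

lemma uS_ii (σ a : ℝ) (x y : ℝ) : IntervalIntegrable (fun t => uS σ a t) volume x y := by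
  have := uS_mul_ii σ a (continuous_const (y := (1 : ℝ))) x y
  simpa using this

/-- the inequality for one zero -/
theorem per_zero {T σ a g r r' R h κ V q : ℝ} {J : ℕ} {wt : ℝ → ℝ} (hwt : Continuous wt) (hw0 : ∀ t, 0 ≤ wt t)
    (hT : 1 ≤ T) (hr : 0 < r) (hra : r < a) (hrr' : r < r') (hrg : r' < g) (hm : mult (1 / 2 + I * g) = 1)
    (hiso : ∀ x, |x - g| < r' → Z x = 0 → x = g)
    (hg1 : T + 1 < g - r) (hg2 : g + 2 * J * a + r ≤ 2 * T - 1) (hR : J * a + 2 * r ≤ R)
    (hκ : 0 < κ) (hq : q = 1 ∨ (q = 2 ∧ 0 < σ)) (hκJ : h + κ ≤ q * J + 1)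
    (hV : ∀ y, g - r ≤ y → y ≤ g + 2 * J * a + r → |wt y - wt g| ≤ V) :
    r * wt g ≤ ∑ j ∈ Finset.range J, (∫ t in (g + (2 * j + 1) * a - r)..(g + (2 * j + 1) * a + r), uS σ a t * wt t) +
      1 / (2 * κ) * (∫ t in (g + J * a - r)..(g + J * a + r), |Nw T R t - h| * wt t) + (2 * J + 1) * r * V := by
  have ha : 0 < a := by linarith
  have hJa : 0 ≤ (J : ℝ) * a := by positivity
  have hV0 : 0 ≤ V := (abs_nonneg _).trans (hV g (by linarith) (by linarith))
  have hsum0 : 0 ≤ ∑ j ∈ Finset.range J, (∫ t in (g + (2 * j + 1) * a - r)..(g + (2 * j + 1) * a + r), uS σ a t * wt t) :=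
    Finset.sum_nonneg fun j _ => intervalIntegral.integral_nonneg (by linarith) fun t _ => mul_nonneg (uS_nonneg _ _ _) (hw0 t)
  have hN0 : 0 ≤ ∫ t in (g + J * a - r)..(g + J * a + r), |Nw T R t - h| * wt t :=
    intervalIntegral.integral_nonneg (by linarith) fun t _ => mul_nonneg (abs_nonneg _) (hw0 t)
  obtain ⟨mN, B1, bN⟩ := Nw_meas T R
  by_cases hgood : ∃ v, 0 < v ∧ v < r ∧ (∀ j < J, 0 < σ * (Z (g + v + (2 * j + 1) * a + a) * Z (g + v + (2 * j + 1) * a - a))) ∧
      ∀ j < J, 0 < σ * (Z (g - v + (2 * j + 1) * a + a) * Z (g - v + (2 * j + 1) * a - a))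
  · obtain ⟨v, hv, hvr, hp, hmm⟩ := hgood
    have hch := sgn_change hrg hm hiso hv (by linarith)
    have hcnt : ∀ t ∈ Set.Icc (g + J * a - r) (g + J * a + r), κ * (wt g - V) ≤ |Nw T R t - h| * wt t := by
      intro t ht
      have h1 : |t - (g + J * a)| ≤ r := by
        rw [abs_le]
        constructor <;> linarith [ht.1, ht.2]
      have h2 := count_ge (J := J) (R := R) hT hv (by linarith) hch hp hmm (by linarith) (by linarith) (by linarith : |t - (g + J * a)| + J * a + v ≤ R) hq
      have h3 : κ ≤ |Nw T R t - h| := by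
        refine le_trans ?_ (le_abs_self _)
        linarith
      have h4 := (abs_le.1 (hV t (by linarith [ht.1]) (by linarith [ht.2]))).1
      have h5 : wt g - V ≤ wt t := by linarith
      calc κ * (wt g - V) ≤ κ * wt t := mul_le_mul_of_nonneg_left h5 hκ.le
        _ ≤ |Nw T R t - h| * wt t := mul_le_mul_of_nonneg_right h3 (hw0 t)
    have iN : IntervalIntegrable (fun t => |Nw T R t - h| * wt t) volume (g + J * a - r) (g + J * a + r) :=
      ii_mul ((mN.sub_const h).abs) (B := B1 + |h|) (fun t => by
        rw [abs_abs]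
        exact (abs_sub _ _).trans (add_le_add (bN t) le_rfl)) hwt _ _
    have h6 := intervalIntegral.integral_mono_on (by linarith) (intervalIntegrable_const) iN hcnt
    rw [intervalIntegral.integral_const, smul_eq_mul] at h6
    have h7 : (g + J * a + r - (g + J * a - r)) * (κ * (wt g - V)) = 2 * κ * (r * (wt g - V)) := by ring
    rw [h7] at h6
    have h8 := mul_le_mul_of_nonneg_left h6 (by positivity : 0 ≤ 1 / (2 * κ))
    have h9 : 1 / (2 * κ) * (2 * κ * (r * (wt g - V))) = r * (wt g - V) := by
      rw [← mul_assoc, one_div, inv_mul_cancel₀ (by positivity), one_mul]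
    rw [h9] at h8
    have h10 : 0 ≤ 2 * (J : ℝ) * r * V := by positivity
    linarith
  · -- the bad case
    have hbad : ∀ v, 0 < v → v < r → 1 ≤ ∑ j ∈ Finset.range J, uS σ a (g + v + (2 * j + 1) * a) +
        ∑ j ∈ Finset.range J, uS σ a (g - v + (2 * j + 1) * a) := by
      intro v hv hvr
      by_contra hlt
      rw [not_le] at hlt
      apply hgood
      have s1 : 0 ≤ ∑ j ∈ Finset.range J, uS σ a (g + v + (2 * j + 1) * a) := Finset.sum_nonneg fun j _ => uS_nonneg _ _ _
      have s2 : 0 ≤ ∑ j ∈ Finset.range J, uS σ a (g - v + (2 * j + 1) * a) := Finset.sum_nonneg fun j _ => uS_nonneg _ _ _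
      refine ⟨v, hv, hvr, fun j hj => ?_, fun j hj => ?_⟩
      · rcases uS_or σ a (g + v + (2 * j + 1) * a) with h1 | h1
        · exact h1
        · have h2 := Finset.single_le_sum (f := fun j : ℕ => uS σ a (g + v + (2 * j + 1) * a)) (fun i _ => uS_nonneg _ _ _)
            (Finset.mem_range.2 hj)
          simp only [h1] at h2
          linarith
      · rcases uS_or σ a (g - v + (2 * j + 1) * a) with h1 | h1
        · exact h1
        · have h2 := Finset.single_le_sum (f := fun j : ℕ => uS σ a (g - v + (2 * j + 1) * a)) (fun i _ => uS_nonneg _ _ _)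
            (Finset.mem_range.2 hj)
          simp only [h1] at h2
          linarith
    -- each window
    have hwin : ∀ j : ℕ, ∫ t in (g + (2 * j + 1) * a - r)..(g + (2 * j + 1) * a + r), uS σ a t =
        ∫ v in (0 : ℝ)..r, (uS σ a (g + v + (2 * j + 1) * a) + uS σ a (g - v + (2 * j + 1) * a)) := by
      intro j
      obtain ⟨x, hx⟩ : ∃ x, x = g + (2 * j + 1) * a := ⟨_, rfl⟩
      have e1 : ∀ v : ℝ, g + v + (2 * j + 1) * a = x + v := fun v => by rw [hx]; ring
      have e2 : ∀ v : ℝ, g - v + (2 * j + 1) * a = x - v := fun v => by rw [hx]; ring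
      simp only [e1, e2, ← hx]
      have i1 : IntervalIntegrable (fun v => uS σ a (x + v)) volume 0 r := by
        have := (uS_ii σ a (x + 0) (x + r)).comp_add_left x
        simpa using this
      have i2 : IntervalIntegrable (fun v => uS σ a (x - v)) volume 0 r := by
        have := (uS_ii σ a (x - 0) (x - r)).comp_sub_left x
        simpa using this
      rw [intervalIntegral.integral_add i1 i2, intervalIntegral.integral_comp_add_left (fun t => uS σ a t) x,
        intervalIntegral.integral_comp_sub_left (fun t => uS σ a t) x, add_zero, sub_zero,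
        add_comm (∫ t in x..(x + r), uS σ a t), intervalIntegral.integral_add_adjacent_intervals (uS_ii _ _ _ _) (uS_ii _ _ _ _)]
    have hmass : r ≤ ∑ j ∈ Finset.range J, ∫ t in (g + (2 * j + 1) * a - r)..(g + (2 * j + 1) * a + r), uS σ a t := by
      rw [Finset.sum_congr rfl fun j _ => hwin j]
      have i3 : ∀ j ∈ Finset.range J, IntervalIntegrable (fun v => uS σ a (g + v + (2 * j + 1) * a) + uS σ a (g - v + (2 * j + 1) * a)) volume 0 r := by
        intro j _
        obtain ⟨x, hx⟩ : ∃ x, x = g + (2 * j + 1) * a := ⟨_, rfl⟩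
        have e1 : ∀ v : ℝ, g + v + (2 * j + 1) * a = x + v := fun v => by rw [hx]; ring
        have e2 : ∀ v : ℝ, g - v + (2 * j + 1) * a = x - v := fun v => by rw [hx]; ring
        simp only [e1, e2]
        have i1 : IntervalIntegrable (fun v => uS σ a (x + v)) volume 0 r := by
          have := (uS_ii σ a (x + 0) (x + r)).comp_add_left x
          simpa using this
        have i2 : IntervalIntegrable (fun v => uS σ a (x - v)) volume 0 r := by
          have := (uS_ii σ a (x - 0) (x - r)).comp_sub_left x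
          simpa using this
        exact i1.add i2
      rw [← intervalIntegral.integral_finsetSum i3]
      have h1 : (∫ _v in (0 : ℝ)..r, (1 : ℝ)) = r := by simp
      refine le_trans (le_of_eq h1.symm) ?_
      refine intervalIntegral.integral_mono_on_of_le_Ioo (μ := volume) hr.le intervalIntegrable_const ?_ fun v hv => ?_
      · have := IntervalIntegrable.sum (Finset.range J) (f := fun (j : ℕ) v => uS σ a (g + v + (2 * j + 1) * a) + uS σ a (g - v + (2 * j + 1) * a)) i3
        have e1 : (fun v => ∑ j ∈ Finset.range J, (uS σ a (g + v + (2 * j + 1) * a) + uS σ a (g - v + (2 * j + 1) * a))) =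
            ∑ j ∈ Finset.range J, fun v => (uS σ a (g + v + (2 * j + 1) * a) + uS σ a (g - v + (2 * j + 1) * a)) := by
          funext v
          rw [Finset.sum_apply]
        rw [e1]
        exact this
      · rw [Finset.sum_add_distrib]
        exact hbad v hv.1 hv.2
    have hone : ∀ j ∈ Finset.range J, wt g * (∫ t in (g + (2 * j + 1) * a - r)..(g + (2 * j + 1) * a + r), uS σ a t) ≤
        (∫ t in (g + (2 * j + 1) * a - r)..(g + (2 * j + 1) * a + r), uS σ a t * wt t) + 2 * r * V := by
      intro j hj
      rw [Finset.mem_range] at hj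
      have hjJ : (j : ℝ) + 1 ≤ J := by exact_mod_cast hj
      have hj0 : (0 : ℝ) ≤ j := Nat.cast_nonneg j
      have hja : 0 ≤ (2 * (j : ℝ) + 1) * a := by positivity
      have hja2 : (2 * (j : ℝ) + 1) * a ≤ 2 * J * a := by nlinarith
      have h2 : (∫ t in (g + (2 * j + 1) * a - r)..(g + (2 * j + 1) * a + r), V) = 2 * r * V := by
        rw [intervalIntegral.integral_const, smul_eq_mul]
        ring
      rw [← h2, ← intervalIntegral.integral_const_mul, ← intervalIntegral.integral_add (uS_mul_ii σ a hwt _ _) intervalIntegrable_const]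
      refine intervalIntegral.integral_mono_on (by linarith) ((uS_ii σ a _ _).const_mul _)
        ((uS_mul_ii σ a hwt _ _).add intervalIntegrable_const) fun t ht => ?_
      have h3 := (abs_le.1 (hV t (by linarith [ht.1]) (by linarith [ht.2]))).1
      have h4 := uS_nonneg σ a t
      have h5 := uS_le σ a t
      have h6 : wt g ≤ wt t + V := by linarith
      calc wt g * uS σ a t ≤ (wt t + V) * uS σ a t := mul_le_mul_of_nonneg_right h6 h4
        _ = uS σ a t * wt t + uS σ a t * V := by ring
        _ ≤ uS σ a t * wt t + 1 * V := by gcongr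
        _ = _ := by rw [one_mul]
    have h7 := mul_le_mul_of_nonneg_left hmass (hw0 g)
    rw [Finset.mul_sum] at h7
    have h8 := Finset.sum_le_sum hone
    rw [Finset.sum_add_distrib, Finset.sum_const, Finset.card_range, nsmul_eq_mul] at h8
    have h9 : 0 ≤ 1 / (2 * κ) * (∫ t in (g + J * a - r)..(g + J * a + r), |Nw T R t - h| * wt t) := by positivity
    have h10 : 0 ≤ r * V := by positivity
    have h11 : (2 * (J : ℝ) + 1) * r * V = J * (2 * r * V) + r * V := by ring
    linarith

end

end Pool.Agent.H4.SC
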