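import Pool.Agent.H4.SC.Lln
import Pool.Agent.H4.SC.Per
import Pool.Graph.R_pool_sql_team_seeded_3997aac3.Q97.UM.Base8

set_option autoImplicit false

/-! Both signs of `Z(t+a)Z(t-a)` have a positive share of the mean square of every Dirichlet polynomial. -/

open Filter Topology MeasureTheory Complex

namespace Pool.Agent.H4.SC

open Pool.Agent.Q97.UM
open Pool.Agent.Q32.Idx (Z Z_cont Z_real Z_zero_iff same_sign local_sign mult)
open Pool.Agent.H4.PX (w w_nonneg w_le dp_cont w_deriv N2_bd)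
open Pool.Agent.H4.IX (ZI_facts)

noncomputable section

/-- the derivative of the weight -/
def w' (M : ℕ) (b : ℕ → ℂ) (t : ℝ) : ℝ := 2 * inner ℝ (dp M b t) (dp M (Pool.Agent.Q61.UM.bd b) t)

lemma w'_cont (M : ℕ) (b : ℕ → ℂ) : Continuous (w' M b) :=
  continuous_const.mul ((dp_cont M b).inner (dp_cont M _))

lemma w_cont (M : ℕ) (b : ℕ → ℂ) : Continuous (w M b) := (dp_cont M b).norm.pow 2

/-- the variation of the weight -/
theorem w_var {θ : ℝ} (hθ : 0 < θ) (hθ1 : θ ≤ 1 / 40) : ∀ᶠ T : ℝ in atTop, ∀ M : ℕ, (M : ℝ) ≤ T ^ θ → ∀ b : ℕ → ℂ,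
    ∫ t in T..(2 * T), |w' M b t| ≤ 4 * θ * (Real.log T * (T * N2 M b)) := by
  filter_upwards [mv_rel 1 one_pos, eventually_ge_atTop (3 : ℝ)] with T h1 hT M hM b
  have hT0 : 0 < T := by linarith
  have hL0 : 0 < Real.log T := Real.log_pos (by linarith)
  have hM40 : (M : ℝ) ≤ T ^ (1 / 40 : ℝ) := hM.trans (Real.rpow_le_rpow_of_exponent_le (by linarith) hθ1)
  unfold w'
  set b' := Pool.Agent.Q61.UM.bd b with hb'
  obtain ⟨lam, hlam⟩ : ∃ lam, lam = θ * Real.log T := ⟨_, rfl⟩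
  have hlam0 : 0 < lam := by rw [hlam]; positivity
  have hlogM : 0 ≤ Real.log M ∧ Real.log M ≤ lam := by
    rcases Nat.eq_zero_or_pos M with h | h
    · rw [h]; simp [hlam0.le]
    · have h2 : (1 : ℝ) ≤ M := by exact_mod_cast h
      refine ⟨Real.log_nonneg h2, ?_⟩
      rw [hlam, ← Real.log_rpow hT0]
      exact Real.log_le_log (by linarith) hM
  have h2 : N2 M b' ≤ lam ^ 2 * N2 M b :=
    (N2_bd M b).trans (mul_le_mul_of_nonneg_right (pow_le_pow_left₀ hlogM.1 hlogM.2 2) (N2_nonneg M b))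
  have i1 : IntervalIntegrable (fun t => ‖dp M b t‖ ^ 2) volume T (2 * T) :=
    ((dp_cont M b).norm.pow 2).intervalIntegrable _ _
  have i2 : IntervalIntegrable (fun t => ‖dp M b' t‖ ^ 2) volume T (2 * T) :=
    ((dp_cont M b').norm.pow 2).intervalIntegrable _ _
  have h3 : (∫ t in T..(2 * T), |2 * inner ℝ (dp M b t) (dp M b' t)|) ≤
      ∫ t in T..(2 * T), (lam * ‖dp M b t‖ ^ 2 + lam⁻¹ * ‖dp M b' t‖ ^ 2) := by
    refine intervalIntegral.integral_mono_on (by linarith) ?_ ?_ ?_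
    · exact (continuous_const.mul ((dp_cont M b).inner (dp_cont M b'))).abs.intervalIntegrable _ _
    · exact (i1.const_mul _).add (i2.const_mul _)
    · intro t _
      rw [abs_mul, abs_two]
      have h4 := abs_real_inner_le_norm (dp M b t) (dp M b' t)
      have h5 : 2 * (‖dp M b t‖ * ‖dp M b' t‖) ≤ lam * ‖dp M b t‖ ^ 2 + lam⁻¹ * ‖dp M b' t‖ ^ 2 := by
        have h6 : 0 ≤ lam⁻¹ * (lam * ‖dp M b t‖ - ‖dp M b' t‖) ^ 2 := by positivity
        have h7 : lam⁻¹ * (lam * ‖dp M b t‖ - ‖dp M b' t‖) ^ 2 =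
            lam * ‖dp M b t‖ ^ 2 + lam⁻¹ * ‖dp M b' t‖ ^ 2 - 2 * (‖dp M b t‖ * ‖dp M b' t‖) := by
          field_simp
          ring
        linarith
      linarith
  refine h3.trans ?_
  rw [intervalIntegral.integral_add (i1.const_mul _) (i2.const_mul _), intervalIntegral.integral_const_mul,
    intervalIntegral.integral_const_mul]
  have h4 := (abs_le.1 (h1 M hM40 b)).2
  have h5 := (abs_le.1 (h1 M hM40 b')).2
  have h6 : (∫ t in T..(2 * T), ‖dp M b t‖ ^ 2) ≤ 2 * (T * N2 M b) := by linarith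
  have h7 : (∫ t in T..(2 * T), ‖dp M b' t‖ ^ 2) ≤ 2 * (T * (lam ^ 2 * N2 M b)) := by
    have := mul_le_mul_of_nonneg_left h2 hT0.le
    linarith
  have h8 := mul_le_mul_of_nonneg_left h6 hlam0.le
  have h9 := mul_le_mul_of_nonneg_left h7 (inv_nonneg.2 hlam0.le)
  have e1 : lam⁻¹ * (2 * (T * (lam ^ 2 * N2 M b))) = lam * (2 * (T * N2 M b)) := by
    field_simp
  rw [e1] at h9
  have e2 : 4 * θ * (Real.log T * (T * N2 M b)) = lam * (2 * (T * N2 M b)) + lam * (2 * (T * N2 M b)) := by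
    rw [hlam]; ring
  rw [e2]
  linarith

/-- the variation near a point, as a sum over windows -/
lemma var_near (M : ℕ) (b : ℕ → ℂ) {g r y : ℝ} {n : ℕ} (hr : 0 ≤ r) (hy1 : g - r ≤ y) (hy2 : y ≤ g - r + 2 * r * n)
    (hn : 1 ≤ n) :
    |w M b y - w M b g| ≤ ∑ i ∈ Finset.range n, ∫ t in (g + 2 * r * i - r)..(g + 2 * r * i + r), |w' M b t| := by
  have hc : ∀ x y, IntervalIntegrable (fun t => |w' M b t|) volume x y := fun x y => (w'_cont M b).abs.intervalIntegrable x y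
  have hc' : ∀ x y, IntervalIntegrable (fun t => w' M b t) volume x y := fun x y => (w'_cont M b).intervalIntegrable x y
  have h0 : ∑ i ∈ Finset.range n, ∫ t in (g + 2 * r * i - r)..(g + 2 * r * i + r), |w' M b t| =
      ∫ t in (g - r)..(g - r + 2 * r * n), |w' M b t| := by
    have h1 := intervalIntegral.sum_integral_adjacent_intervals (f := fun t => |w' M b t|) (μ := volume)
      (a := fun i : ℕ => g - r + 2 * r * i) (n := n) (fun k _ => hc _ _)
    simp only [Nat.cast_zero, mul_zero, add_zero] at h1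
    rw [← h1]
    refine Finset.sum_congr rfl fun i _ => ?_
    congr 1
    · ring
    · push_cast; ring
  rw [h0]
  have hn' : (1 : ℝ) ≤ n := by exact_mod_cast hn
  have hg1 : g ≤ g - r + 2 * r * n := by nlinarith
  have h2 : w M b y - w M b g = ∫ t in g..y, w' M b t :=
    (intervalIntegral.integral_eq_sub_of_hasDerivAt (fun t _ => w_deriv M b t) (hc' _ _)).symm
  rw [h2]
  rcases le_total g y with h | h
  · refine (intervalIntegral.abs_integral_le_integral_abs h).trans ?_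
    exact intervalIntegral.integral_mono_interval (by linarith) h hy2 (Eventually.of_forall fun t => abs_nonneg _) (hc _ _)
  · rw [intervalIntegral.integral_symm, abs_neg]
    refine (intervalIntegral.abs_integral_le_integral_abs h).trans ?_
    exact intervalIntegral.integral_mono_interval hy1 h hg1 (Eventually.of_forall fun t => abs_nonneg _) (hc _ _)

/-- the isolated zeros -/
lemma iso_facts {d T : ℝ} (hT : 16 ≤ T) (hd : d / Real.log T ≤ 1) {s : ℂ} (hs : s ∈ ZI d T) :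
    mult (1 / 2 + I * s.im) = 1 ∧
    (∀ x, |x - s.im| < d / Real.log T → Z x = 0 → x = s.im) ∧
    ∀ s' ∈ ZI d T, s ≠ s' → d / Real.log T ≤ |s.im - s'.im| := by
  classical
  obtain ⟨h1, h2, h3, h4, h5⟩ := ZI_facts (by linarith) hs
  have hline : (1 / 2 + I * (s.im : ℂ) : ℂ) = s := Pool.Agent.H4.SG.line_of h2
  have hiso : ∀ s' ∈ ZD T, s' ≠ s → d / Real.log T ≤ ‖s - s'‖ := by
    unfold ZI at hs
    rw [Finset.mem_filter] at hs
    exact hs.2.2.2
  have hmem : ∀ x : ℝ, T / 16 < x → x ≤ 16 * T → Z x = 0 → (1 / 2 + I * x : ℂ) ∈ ZD T := by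
    intro x hx1 hx2 hx
    unfold ZD
    rw [H370.mem_Zf H370.good_zeta (by linarith)]
    refine ⟨by simp, by simp; norm_num, by simpa using hx1, by simpa using hx2, (Z_zero_iff x).1 hx⟩
  refine ⟨?_, fun x hx hz => ?_, fun s' hs' hne => ?_⟩
  · rw [hline]
    exact h3
  · by_contra hne
    have hx := abs_lt.1 (lt_of_lt_of_le hx hd)
    have h6 := hiso _ (hmem x (by linarith) (by linarith) hz) (fun h => hne (by
      have := congrArg Complex.im h
      simpa using this))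
    have h7 : s - (1 / 2 + I * (x : ℂ)) = ((s.im - x : ℝ) : ℂ) * I := by
      conv_lhs => rw [← hline]
      push_cast
      ring
    rw [h7, norm_mul, Complex.norm_I, mul_one, Complex.norm_real, Real.norm_eq_abs, abs_sub_comm] at h6
    linarith
  · obtain ⟨g1, g2, g3, g4, g5⟩ := ZI_facts (by linarith) hs'
    have hline' : (1 / 2 + I * (s'.im : ℂ) : ℂ) = s' := Pool.Agent.H4.SG.line_of g2
    have hz' : Z s'.im = 0 := by
      rw [Z_zero_iff, hline']
      exact g1.1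
    have h6 := hiso s' (by
      rw [← hline']
      exact hmem _ (by linarith) (by linarith) hz') (Ne.symm hne)
    have h7 : s - s' = ((s.im - s'.im : ℝ) : ℂ) * I := by
      conv_lhs => rw [← hline, ← hline']
      push_cast
      ring
    rw [h7, norm_mul, Complex.norm_I, mul_one, Complex.norm_real, Real.norm_eq_abs] at h6
    exact h6

/-- the number of separated points -/
lemma card_win {ι : Type} {Γ : Finset ι} {f : ι → ℝ} {r X Y : ℝ} (hr : 0 < r) (hXY : X ≤ Y)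
    (hdis : ∀ i ∈ Γ, ∀ j ∈ Γ, i ≠ j → 2 * r ≤ |f i - f j|) (hin : ∀ i ∈ Γ, X ≤ f i - r ∧ f i + r ≤ Y) :
    (Γ.card : ℝ) * (2 * r) ≤ Y - X := by
  have h := sum_win (x := 0) (F := fun _ => (1 : ℝ)) (fun _ => zero_le_one) (intervalIntegrable_const) hr.le hXY hdis
    (fun i hi => by rw [add_zero]; exact hin i hi)
  have e : ∀ i ∈ Γ, (∫ _t in (f i + 0 - r)..(f i + 0 + r), (1 : ℝ)) = 2 * r := by
    intro i _
    rw [intervalIntegral.integral_const, smul_eq_mul, mul_one]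
    ring
  rw [Finset.sum_congr rfl e, Finset.sum_const, nsmul_eq_mul, intervalIntegral.integral_const, smul_eq_mul, mul_one] at h
  exact h

/-- the edges are negligible -/
lemma edge_small {δ B : ℝ} (hδ : 0 < δ) (hB : 0 < B) : ∀ᶠ T : ℝ in atTop, ∀ M : ℕ, (M : ℝ) ≤ T ^ (1 / 40 : ℝ) →
    (2 * Real.log T + 4) * Real.log T / δ * M ≤ B * (Real.log T * T) := by
  have h1 : ∀ᶠ T : ℝ in atTop, 6 / (B * δ) ≤ T ^ (19 / 20 : ℝ) := (tendsto_rpow_atTop (by norm_num)).eventually_ge_atTop _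
  have h2 : ∀ᶠ T : ℝ in atTop, Real.log T ≤ T ^ (1 / 40 : ℝ) := by
    have := (isLittleO_log_rpow_atTop (by norm_num : (0 : ℝ) < 1 / 40)).bound one_pos
    filter_upwards [this, eventually_ge_atTop (1 : ℝ)] with T h hT
    rw [one_mul, Real.norm_eq_abs, Real.norm_eq_abs, abs_of_nonneg (by positivity : 0 ≤ T ^ (1 / 40 : ℝ))] at h
    exact (le_abs_self _).trans h
  filter_upwards [h1, h2, eventually_ge_atTop (1 : ℝ), Real.tendsto_log_atTop.eventually_ge_atTop 1] with T h1 h2 hT hL M hM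
  have hT0 : 0 < T := by linarith
  have e1 : T ^ (19 / 20 : ℝ) * (T ^ (1 / 40 : ℝ) * T ^ (1 / 40 : ℝ)) = T := by
    rw [← Real.rpow_add hT0, ← Real.rpow_add hT0]
    norm_num
  rw [div_le_iff₀ (by positivity)] at h1
  have h3 : (2 * Real.log T + 4) * M ≤ B * δ * T := by
    calc (2 * Real.log T + 4) * M ≤ (6 * T ^ (1 / 40 : ℝ)) * T ^ (1 / 40 : ℝ) := by
          apply mul_le_mul _ hM (Nat.cast_nonneg _) (by positivity)
          linarith
      _ = 6 * (T ^ (1 / 40 : ℝ) * T ^ (1 / 40 : ℝ)) := by ring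
      _ ≤ (T ^ (19 / 20 : ℝ) * (B * δ)) * (T ^ (1 / 40 : ℝ) * T ^ (1 / 40 : ℝ)) := mul_le_mul_of_nonneg_right h1 (by positivity)
      _ = B * δ * (T ^ (19 / 20 : ℝ) * (T ^ (1 / 40 : ℝ) * T ^ (1 / 40 : ℝ))) := by ring
      _ = B * δ * T := by rw [e1]
  have h4 : (2 * Real.log T + 4) * Real.log T / δ * M = ((2 * Real.log T + 4) * M) * (Real.log T / δ) := by ring
  rw [h4]
  have h5 := mul_le_mul_of_nonneg_right h3 (by positivity : 0 ≤ Real.log T / δ)
  refine h5.trans (le_of_eq ?_)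
  field_simp

/-- **both signs are thick** -/
theorem thick {q α₀ α₁ : ℝ} (hq : q = 1 ∨ q = 2) (h0 : 0 < α₀) (h01 : α₀ ≤ α₁) (h1 : α₁ < q * Real.pi) :
    ∃ c θ : ℝ, 0 < c ∧ 0 < θ ∧ θ ≤ 1 / 40 ∧
    ∀ᶠ T : ℝ in atTop, ∀ a : ℝ, α₀ ≤ a * Real.log T → a * Real.log T ≤ α₁ → ∀ σ : ℝ, (q = 1 ∨ 0 < σ) → ∀ M : ℕ, (M : ℝ) ≤ T ^ θ → ∀ b : ℕ → ℂ,
      c * (T * N2 M b) ≤ ∫ t in T..(2 * T), uS σ a t * w M b t := by
  have hpi := Real.pi_pos
  have hc2 := H370.cMTinv_lt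
  obtain ⟨B₀, hB₀⟩ : ∃ B₀, B₀ = (2 - H370.cMTinv) / (4 * Real.pi) := ⟨_, rfl⟩
  have hB00 : 0 < B₀ := by rw [hB₀]; apply div_pos <;> linarith
  obtain ⟨d, θ₁, hd0, hd1, hθ₁, hθ₁', hSI⟩ := b_SAMPI ((2 - H370.cMTinv) / 2) (by linarith)
  have hq2 : q ≤ 2 := by rcases hq with h | h <;> linarith
  obtain ⟨ρ, hρ⟩ : ∃ ρ, ρ = q - α₁ / Real.pi := ⟨_, rfl⟩
  have hρ0 : 0 < ρ := by
    rw [hρ, sub_pos, div_lt_iff₀ hpi]
    exact h1
  have hρα : α₁ / Real.pi = q - ρ := by rw [hρ]; ring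
  obtain ⟨δ, hδ⟩ : ∃ δ, δ = min (d / 4) (α₀ / 2) := ⟨_, rfl⟩
  have hδ0 : 0 < δ := by rw [hδ]; positivity
  have hδ1 : δ ≤ d / 4 := by rw [hδ]; exact min_le_left _ _
  have hδ2 : δ ≤ α₀ / 2 := by rw [hδ]; exact min_le_right _ _
  obtain ⟨H₀, hH₀, hLL⟩ := lln (show 0 < ρ * δ * B₀ / 4 by positivity)
  -- the length of the chains
  obtain ⟨J, hJ⟩ : ∃ J : ℕ, max (H₀ / α₁) (max 1 (1 / ρ)) ≤ (J : ℝ) := exists_nat_ge _
  have hα₁ : 0 < α₁ := by linarith
  have hJ1 : H₀ / α₁ ≤ J := (le_max_left _ _).trans hJ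
  have hJ2 : (1 : ℝ) ≤ J := (le_max_left _ _).trans ((le_max_right _ _).trans hJ)
  have hJ3 : 1 / ρ ≤ J := (le_max_right _ _).trans ((le_max_right _ _).trans hJ)
  have hJ0 : (0 : ℝ) < J := by linarith
  obtain ⟨H, hH⟩ : ∃ H, H = α₁ * J + 2 * δ := ⟨_, rfl⟩
  have hHH : H₀ ≤ H := by
    rw [div_le_iff₀ hα₁] at hJ1
    rw [hH]
    linarith
  have hH1 : 1 ≤ H := hH₀.trans hHH
  obtain ⟨θ₂, hθ₂, hθ₂', hLL⟩ := hLL H hHH
  obtain ⟨h, hh⟩ : ∃ h, h = H / Real.pi := ⟨_, rfl⟩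
  have hhe : h = (q - ρ) * J + 2 * δ / Real.pi := by
    rw [hh, hH, ← hρα]
    ring
  have hδπ : 2 * δ / Real.pi ≤ 1 := by
    rw [div_le_one hpi]
    have := Real.pi_gt_three
    linarith
  have hhJ : h ≤ 2 * J := by
    rw [hhe]
    rw [div_le_iff₀ hρ0] at hJ3
    have : q * J ≤ 2 * J := mul_le_mul_of_nonneg_right hq2 hJ0.le
    linarith
  have hh0 : 0 < h := by rw [hh]; positivity
  obtain ⟨n, hn⟩ : ∃ n : ℕ, (2 * α₁ * J + 2 * δ) / (2 * δ) ≤ (n : ℝ) := exists_nat_ge _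
  rw [div_le_iff₀ (by positivity)] at hn
  have hn1 : (1 : ℝ) ≤ n := by
    by_contra hlt
    rw [not_le] at hlt
    have h2 : (n : ℝ) * (2 * δ) ≤ 1 * (2 * δ) := mul_le_mul_of_nonneg_right hlt.le (by positivity)
    have h3 : 0 < 2 * α₁ * J := by positivity
    linarith
  have hn1' : 1 ≤ n := by exact_mod_cast hn1
  obtain ⟨θ, hθ⟩ : ∃ θ, θ = min (min θ₁ θ₂) (B₀ / (32 * ((2 * J + 1) * n))) := ⟨_, rfl⟩
  have hθ0 : 0 < θ := by rw [hθ]; positivity
  have hθa : θ ≤ θ₁ := by rw [hθ]; exact (min_le_left _ _).trans (min_le_left _ _)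
  have hθb : θ ≤ θ₂ := by rw [hθ]; exact (min_le_left _ _).trans (min_le_right _ _)
  have hθc : θ ≤ B₀ / (32 * ((2 * J + 1) * n)) := by rw [hθ]; exact min_le_right _ _
  have hθd : (2 * J + 1) * n * (4 * θ) ≤ B₀ / 8 := by
    rw [le_div_iff₀ (by positivity)] at hθc
    linarith
  have hθe : θ ≤ 1 / 40 := hθa.trans hθ₁'
  refine ⟨δ * B₀ / (2 * J), θ, by positivity, hθ0, hθe, ?_⟩
  have e1 : ∀ᶠ T : ℝ in atTop, max 2 (2 * δ * n + 2 * d) ≤ Real.log T := Real.tendsto_log_atTop.eventually_ge_atTop _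
  have e2 : ∀ᶠ T : ℝ in atTop, 8 * Real.log T + 16 ≤ T := by
    have := (Real.isLittleO_log_id_atTop).bound (show (0 : ℝ) < 1 / 16 by norm_num)
    filter_upwards [this, eventually_ge_atTop (64 : ℝ)] with T h hT
    rw [id, Real.norm_eq_abs, Real.norm_eq_abs, abs_of_nonneg (by linarith : 0 ≤ T)] at h
    have := (le_abs_self (Real.log T)).trans h
    linarith
  filter_upwards [hSI, hLL, w_var hθ0 hθe, edge_small hδ0 (show 0 < B₀ / 8 by positivity), e1, e2, eventually_ge_atTop (16 : ℝ)]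
    with T hSI hLL hwv hedge e1 e2 hT16 a ha1 ha2 σ hqσ M hM b
  have hT0 : 0 < T := by linarith
  have hT1 : 1 ≤ T := by linarith
  have hM1 : (M : ℝ) ≤ T ^ θ₁ := hM.trans (Real.rpow_le_rpow_of_exponent_le hT1 hθa)
  have hM2 : (M : ℝ) ≤ T ^ θ₂ := hM.trans (Real.rpow_le_rpow_of_exponent_le hT1 hθb)
  have hM40 : (M : ℝ) ≤ T ^ (1 / 40 : ℝ) := hM.trans (Real.rpow_le_rpow_of_exponent_le hT1 hθe)
  replace hSI := hSI M hM1 b
  replace hLL := hLL M hM2 b
  replace hwv := hwv M hM b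
  replace hedge := hedge M hM40
  obtain ⟨L, hL⟩ : ∃ L, L = Real.log T := ⟨_, rfl⟩
  rw [← hL] at hSI hLL hwv hedge e1 e2 ha1 ha2
  have hL2 : 2 ≤ L := (le_max_left _ _).trans e1
  have hLn : 2 * δ * n + 2 * d ≤ L := (le_max_right _ _).trans e1
  have hL0 : 0 < L := by linarith
  obtain ⟨r, hr⟩ : ∃ r, r = δ / L := ⟨_, rfl⟩
  have hr0 : 0 < r := by rw [hr]; positivity
  have hrL : r * L = δ := by rw [hr]; field_simp
  have hra : r < a := by
    have : r * L < a * L := by linarith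
    exact lt_of_mul_lt_mul_right this hL0.le
  have ha0 : 0 < a := by linarith
  have hdL : d / L ≤ 1 := by
    rw [div_le_one hL0]
    have : 0 ≤ 2 * δ * n := by positivity
    linarith
  have hrd : 4 * r ≤ d / L := by
    rw [hr, ← mul_div_assoc]
    gcongr
    linarith
  have hrd' : r < d / L := by linarith
  have hJa : (J : ℝ) * a ≤ α₁ * J / L := by
    rw [le_div_iff₀ hL0]
    calc (J : ℝ) * a * L = J * (a * L) := by ring
      _ ≤ J * α₁ := mul_le_mul_of_nonneg_left ha2 hJ0.le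
      _ = _ := by ring
  have hrn : 2 * r * n ≤ 1 := by
    have : 2 * r * n = 2 * δ * n / L := by rw [hr]; ring
    rw [this, div_le_one hL0]
    linarith
  have hchain : 2 * J * a + 2 * r ≤ 2 * r * n := by
    have h2 : 2 * α₁ * J / L + 2 * r ≤ 2 * r * n := by
      have h3 : (2 * α₁ * J + 2 * δ) / L ≤ n * (2 * δ) / L := by gcongr
      have h4 : (2 * α₁ * J + 2 * δ) / L = 2 * α₁ * J / L + 2 * r := by rw [hr]; ring
      have h5 : n * (2 * δ) / L = 2 * r * n := by rw [hr]; ring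
      rw [h4, h5] at h3
      exact h3
    have h3 : 2 * α₁ * J / L = 2 * (α₁ * J / L) := by ring
    rw [h3] at h2
    linarith
  have hHL : H / L = α₁ * J / L + 2 * r := by rw [hH, hr]; ring
  have hJa0 : 0 < (J : ℝ) * a := by positivity
  -- the zeros
  classical
  obtain ⟨Γ, hΓ⟩ : ∃ Γ, Γ = (ZI d T).filter (fun s => T + 2 * L + 2 ≤ s.im ∧ s.im ≤ 2 * T - 2 * L - 2) := ⟨_, rfl⟩
  have hΓm : ∀ s ∈ Γ, s ∈ ZI d T ∧ T + 2 * L + 2 ≤ s.im ∧ s.im ≤ 2 * T - 2 * L - 2 := fun s hs => by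
    rw [hΓ, Finset.mem_filter] at hs
    exact ⟨hs.1, hs.2.1, hs.2.2⟩
  have hdis : ∀ i ∈ ZI d T, ∀ j ∈ ZI d T, i ≠ j → 2 * r ≤ |i.im - j.im| := fun i hi j hj hij => by
    have h2 := (iso_facts hT16 (by rw [← hL]; exact hdL) hi).2.2 j hj hij
    rw [← hL] at h2
    linarith
  have hdisΓ : ∀ i ∈ Γ, ∀ j ∈ Γ, i ≠ j → 2 * r ≤ |i.im - j.im| := fun i hi j hj hij =>
    hdis i (hΓm i hi).1 j (hΓm j hj).1 hij
  obtain ⟨W, hW⟩ : ∃ W, W = T * N2 M b := ⟨_, rfl⟩
  have hW0 : 0 ≤ W := by rw [hW]; exact mul_nonneg hT0.le (N2_nonneg _ _)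
  rw [← hW] at hSI hLL hwv ⊢
  obtain ⟨m, hm⟩ : ∃ m, m = ∫ t in T..(2 * T), uS σ a t * w M b t := ⟨_, rfl⟩
  have hm0 : 0 ≤ m := by
    rw [hm]
    exact intervalIntegral.integral_nonneg (by linarith) fun t _ => mul_nonneg (uS_nonneg _ _ _) (w_nonneg _ _ _)
  obtain ⟨mN, B1, bN⟩ := Nw_meas T (H / L)
  have iN : ∀ x y, IntervalIntegrable (fun t => |Nw T (H / L) t - h| * w M b t) volume x y := fun x y =>
    ii_mul ((mN.sub_const h).abs) (B := B1 + |h|) (fun t => by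
      rw [abs_abs]
      exact (abs_sub _ _).trans (add_le_add (bN t) le_rfl)) (w_cont M b) _ _
  have hLL' : ∫ t in (T + 2 * L)..(2 * T - 2 * L), |Nw T (H / L) t - h| * w M b t ≤ ρ * δ * B₀ / 4 * h * W := by
    rw [hh]
    exact hLL
  -- one zero
  obtain ⟨κ, hκ⟩ : ∃ κ, κ = ρ * J := ⟨_, rfl⟩
  have hκ0 : 0 < κ := by rw [hκ]; positivity
  have hq' : q = 1 ∨ (q = 2 ∧ 0 < σ) := by
    rcases hqσ with h | h
    · exact Or.inl h
    · rcases hq with h' | h'
      · exact Or.inl h'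
      · exact Or.inr ⟨h', h⟩
  have hone : ∀ s ∈ Γ, r * w M b s.im ≤
      ∑ j ∈ Finset.range J, (∫ t in (s.im + (2 * j + 1) * a - r)..(s.im + (2 * j + 1) * a + r), uS σ a t * w M b t) +
      1 / (2 * κ) * (∫ t in (s.im + J * a - r)..(s.im + J * a + r), |Nw T (H / L) t - h| * w M b t) +
      (2 * J + 1) * r * ∑ i ∈ Finset.range n, ∫ t in (s.im + 2 * r * i - r)..(s.im + 2 * r * i + r), |w' M b t| := by
    intro s hs
    obtain ⟨hs1, hs2, hs3⟩ := hΓm s hs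
    obtain ⟨f1, f2, -⟩ := iso_facts hT16 (by rw [← hL]; exact hdL) hs1
    rw [← hL] at f2
    refine per_zero (w_cont M b) (w_nonneg M b) hT1 hr0 hra hrd' (by linarith) f1 f2 (by linarith) (by linarith)
      (by rw [hHL]; linarith) hκ0 hq' ?_ fun y hy1 hy2 => ?_
    · rw [hκ, hhe]
      linarith
    · exact var_near M b hr0.le hy1 (by linarith) hn1'
  have hsum := Finset.sum_le_sum hone
  rw [← Finset.mul_sum, Finset.sum_add_distrib, Finset.sum_add_distrib, ← Finset.mul_sum, ← Finset.mul_sum, Finset.sum_comm,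
    Finset.sum_comm (s := Γ) (t := Finset.range n)] at hsum
  have s1 : ∑ j ∈ Finset.range J, ∑ s ∈ Γ, (∫ t in (s.im + (2 * j + 1) * a - r)..(s.im + (2 * j + 1) * a + r), uS σ a t * w M b t) ≤ J * m := by
    have h2 : ∀ j ∈ Finset.range J, ∑ s ∈ Γ, (∫ t in (s.im + (2 * j + 1) * a - r)..(s.im + (2 * j + 1) * a + r), uS σ a t * w M b t) ≤ m := by
      intro j hj
      rw [Finset.mem_range] at hj
      have hjJ : (j : ℝ) + 1 ≤ J := by exact_mod_cast hj
      have hj0 : (0 : ℝ) ≤ j := Nat.cast_nonneg j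
      have hja : 0 ≤ (2 * (j : ℝ) + 1) * a := by positivity
      have hja2 : (2 * (j : ℝ) + 1) * a ≤ 2 * J * a := by nlinarith
      rw [hm]
      refine sum_win (f := fun s : ℂ => s.im) (x := (2 * j + 1) * a) (fun t => mul_nonneg (uS_nonneg _ _ _) (w_nonneg _ _ _))
        (uS_mul_ii σ a (w_cont M b) _ _) hr0.le (by linarith) hdisΓ fun s hs => ?_
      obtain ⟨hs1, hs2, hs3⟩ := hΓm s hs
      constructor <;> linarith
    refine (Finset.sum_le_sum h2).trans (le_of_eq ?_)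
    rw [Finset.sum_const, Finset.card_range, nsmul_eq_mul]
  have s2 : ∑ s ∈ Γ, (∫ t in (s.im + J * a - r)..(s.im + J * a + r), |Nw T (H / L) t - h| * w M b t) ≤ ρ * δ * B₀ / 4 * h * W := by
    refine le_trans ?_ hLL'
    refine sum_win (f := fun s : ℂ => s.im) (x := J * a) (fun t => mul_nonneg (abs_nonneg _) (w_nonneg _ _ _))
      (iN _ _) hr0.le (by linarith) hdisΓ fun s hs => ?_
    obtain ⟨hs1, hs2, hs3⟩ := hΓm s hs
    constructor <;> linarith
  have s3 : ∑ i ∈ Finset.range n, ∑ s ∈ Γ, (∫ t in (s.im + 2 * r * i - r)..(s.im + 2 * r * i + r), |w' M b t|) ≤ n * (4 * θ * (L * W)) := by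
    have h2 : ∀ i ∈ Finset.range n, ∑ s ∈ Γ, (∫ t in (s.im + 2 * r * i - r)..(s.im + 2 * r * i + r), |w' M b t|) ≤ 4 * θ * (L * W) := by
      intro i hi
      rw [Finset.mem_range] at hi
      have hin : (i : ℝ) + 1 ≤ n := by exact_mod_cast hi
      have hi0 : (0 : ℝ) ≤ i := Nat.cast_nonneg i
      have hri : 0 ≤ 2 * r * (i : ℝ) := by positivity
      have hri2 : 2 * r * (i : ℝ) + 2 * r ≤ 2 * r * n := by nlinarith
      refine le_trans ?_ hwv
      refine sum_win (f := fun s : ℂ => s.im) (x := 2 * r * i) (fun t => abs_nonneg _)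
        ((w'_cont M b).abs.intervalIntegrable _ _) hr0.le (by linarith) hdisΓ fun s hs => ?_
      obtain ⟨hs1, hs2, hs3⟩ := hΓm s hs
      constructor <;> linarith
    refine (Finset.sum_le_sum h2).trans (le_of_eq ?_)
    rw [Finset.sum_const, Finset.card_range, nsmul_eq_mul]
  -- the edges
  have hcard : ∑ s ∈ (ZI d T).filter (fun s => ¬ (T + 2 * L + 2 ≤ s.im ∧ s.im ≤ 2 * T - 2 * L - 2)), w M b s.im ≤ B₀ / 8 * (L * W) := by
    obtain ⟨E₁, hE₁⟩ : ∃ E₁, E₁ = (ZI d T).filter (fun s => ¬ T + 2 * L + 2 ≤ s.im) := ⟨_, rfl⟩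
    obtain ⟨E₂, hE₂⟩ : ∃ E₂, E₂ = (ZI d T).filter (fun s => ¬ s.im ≤ 2 * T - 2 * L - 2) := ⟨_, rfl⟩
    have c1 : (E₁.card : ℝ) * (2 * r) ≤ 2 * L + 4 := by
      have h2 := card_win (Γ := E₁) (f := fun s : ℂ => s.im) (X := T - 1) (Y := T + 2 * L + 3) hr0 (by linarith)
        (fun i hi j hj hij => hdis i (by rw [hE₁] at hi; exact Finset.mem_of_mem_filter i hi) j (by rw [hE₁] at hj; exact Finset.mem_of_mem_filter j hj) hij)
        (fun s hs => by
          rw [hE₁, Finset.mem_filter, not_le] at hs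
          have h3 := ZI_facts hT1 hs.1
          constructor <;> linarith [h3.2.2.2.1, hs.2])
      linarith
    have c2 : (E₂.card : ℝ) * (2 * r) ≤ 2 * L + 4 := by
      have h2 := card_win (Γ := E₂) (f := fun s : ℂ => s.im) (X := 2 * T - 2 * L - 3) (Y := 2 * T + 1) hr0 (by linarith)
        (fun i hi j hj hij => hdis i (by rw [hE₂] at hi; exact Finset.mem_of_mem_filter i hi) j (by rw [hE₂] at hj; exact Finset.mem_of_mem_filter j hj) hij)
        (fun s hs => by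
          rw [hE₂, Finset.mem_filter, not_le] at hs
          have h3 := ZI_facts hT1 hs.1
          constructor <;> linarith [h3.2.2.2.2, hs.2])
      linarith
    have c3 : (ZI d T).filter (fun s => ¬ (T + 2 * L + 2 ≤ s.im ∧ s.im ≤ 2 * T - 2 * L - 2)) ⊆ E₁ ∪ E₂ := by
      intro s hs
      rw [Finset.mem_filter, not_and_or] at hs
      rw [Finset.mem_union, hE₁, hE₂, Finset.mem_filter, Finset.mem_filter]
      rcases hs.2 with h | h
      · exact Or.inl ⟨hs.1, h⟩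
      · exact Or.inr ⟨hs.1, h⟩
    have c4 : (((ZI d T).filter (fun s => ¬ (T + 2 * L + 2 ≤ s.im ∧ s.im ≤ 2 * T - 2 * L - 2))).card : ℝ) ≤ (2 * L + 4) * L / δ := by
      have h2 : (((ZI d T).filter (fun s => ¬ (T + 2 * L + 2 ≤ s.im ∧ s.im ≤ 2 * T - 2 * L - 2))).card : ℝ) ≤ E₁.card + E₂.card := by
        exact_mod_cast (Finset.card_le_card c3).trans (Finset.card_union_le _ _)
      refine h2.trans ?_
      rw [le_div_iff₀ hδ0, ← hrL]
      have h3 : ((E₁.card : ℝ) + E₂.card) * (r * L) = ((E₁.card * (2 * r)) + (E₂.card * (2 * r))) * (L / 2) := by ring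
      rw [h3]
      have h4 : ((E₁.card * (2 * r)) + (E₂.card * (2 * r))) * (L / 2) ≤ ((2 * L + 4) + (2 * L + 4)) * (L / 2) := by gcongr
      linarith
    calc ∑ s ∈ (ZI d T).filter (fun s => ¬ (T + 2 * L + 2 ≤ s.im ∧ s.im ≤ 2 * T - 2 * L - 2)), w M b s.im
        ≤ ∑ s ∈ (ZI d T).filter (fun s => ¬ (T + 2 * L + 2 ≤ s.im ∧ s.im ≤ 2 * T - 2 * L - 2)), (M : ℝ) * N2 M b :=
          Finset.sum_le_sum fun s _ => w_le M b s.im
      _ = (((ZI d T).filter (fun s => ¬ (T + 2 * L + 2 ≤ s.im ∧ s.im ≤ 2 * T - 2 * L - 2))).card : ℝ) * (M * N2 M b) := by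
          rw [Finset.sum_const, nsmul_eq_mul]
      _ ≤ (2 * L + 4) * L / δ * (M * N2 M b) := mul_le_mul_of_nonneg_right c4 (mul_nonneg (Nat.cast_nonneg _) (N2_nonneg _ _))
      _ = ((2 * L + 4) * L / δ * M) * N2 M b := by ring
      _ ≤ (B₀ / 8 * (L * T)) * N2 M b := mul_le_mul_of_nonneg_right hedge (N2_nonneg _ _)
      _ = B₀ / 8 * (L * W) := by rw [hW]; ring
  have hall : B₀ * (L * W) ≤ ∑ s ∈ Γ, w M b s.im + B₀ / 8 * (L * W) := by
    have h2 : ∑ s ∈ ZI d T, w M b s.im = ∑ s ∈ Γ, w M b s.im +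
        ∑ s ∈ (ZI d T).filter (fun s => ¬ (T + 2 * L + 2 ≤ s.im ∧ s.im ≤ 2 * T - 2 * L - 2)), w M b s.im := by
      rw [hΓ, Finset.sum_filter_add_sum_filter_not]
    have h3 : (2 - H370.cMTinv - (2 - H370.cMTinv) / 2) * (L / (2 * Real.pi)) * W = B₀ * (L * W) := by
      rw [hB₀]
      field_simp
      ring
    rw [h3] at hSI
    have h4 : ∑ s ∈ ZI d T, ‖dp M b s.im‖ ^ 2 = ∑ s ∈ ZI d T, w M b s.im := rfl
    rw [h4, h2] at hSI
    linarith
  -- the end
  have k1 : 1 / (2 * κ) * (ρ * δ * B₀ / 4 * h * W) ≤ δ * (B₀ / 4) * W := by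
    have h2 : 1 / (2 * κ) * (ρ * δ * B₀ / 4 * h * W) = (h / J) * (δ * (B₀ / 8) * W) := by
      rw [hκ]
      field_simp
      ring
    rw [h2]
    have h3 : h / J ≤ 2 := by rw [div_le_iff₀ hJ0]; exact hhJ
    have h4 := mul_le_mul_of_nonneg_right h3 (by positivity : 0 ≤ δ * (B₀ / 8) * W)
    linarith
  have k2 : (2 * J + 1) * r * (n * (4 * θ * (L * W))) ≤ δ * (B₀ / 8) * W := by
    have h2 : (2 * J + 1) * r * (n * (4 * θ * (L * W))) = ((2 * J + 1) * n * (4 * θ)) * (δ * W) := by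
      rw [← hrL]; ring
    rw [h2]
    have := mul_le_mul_of_nonneg_right hθd (show 0 ≤ δ * W by positivity)
    linarith
  have k3 : r * ∑ s ∈ Γ, w M b s.im ≤ J * m + δ * (B₀ / 4) * W + δ * (B₀ / 8) * W := by
    have h2 := mul_le_mul_of_nonneg_left s2 (show 0 ≤ 1 / (2 * κ) by positivity)
    have h3 := mul_le_mul_of_nonneg_left s3 (show 0 ≤ (2 * (J : ℝ) + 1) * r by positivity)
    linarith
  have k4 : r * (B₀ * (L * W)) ≤ r * ∑ s ∈ Γ, w M b s.im + r * (B₀ / 8 * (L * W)) := by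
    rw [← mul_add]
    exact mul_le_mul_of_nonneg_left hall hr0.le
  have k5 : r * (B₀ * (L * W)) = δ * B₀ * W := by rw [← hrL]; ring
  have k6 : r * (B₀ / 8 * (L * W)) = δ * (B₀ / 8) * W := by rw [← hrL]; ring
  rw [k5, k6] at k4
  rw [← hm]
  have k7 : δ * B₀ / 2 * W ≤ J * m := by linarith
  rw [div_mul_eq_mul_div, div_le_iff₀ (by positivity)]
  linarith

end

end Pool.Agent.H4.SC
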